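import Pool.Agent.U20.LP.Para

/-!
# Drawings with the vertices on a parabola: the drawing
-/

set_option autoImplicit false

namespace Pool.Agent.U20.LP

open Set Complex Pool.Agent.TH510.Sefe

variable {V : Type}

/-- places for the vertices of a graph: apex, spokes and subdivided chords -/
structure Placed (G : SimpleGraph V) (loc : V → Loc) (M : ℕ) (ch : ℤ → ℤ → ℕ → Prop) : Prop where
  inj : Function.Injective loc
  at_bd : ∀ v t, loc v = .pt t → |t| ≤ M
  on_spec : ∀ v h x i, loc v = .on h x i → ∃ n, ch h x n ∧ 0 < i ∧ i < n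
  ch_spec : ∀ h x n, ch h x n → h ≠ x ∧ 0 < n ∧ (∃ v, loc v = .pt h) ∧ (∃ v, loc v = .pt x) ∧
    ∀ i, 0 < i → i < n → ∃ v, loc v = .on h x i
  ch_uniq : ∀ h x n h' x' n', ch h x n → ch h' x' n' →
    ((h = h' ∧ x = x') ∨ (h = x' ∧ x = h')) → h = h' ∧ x = x' ∧ n = n'
  edge : ∀ a b, G.Adj a b → (loc a = .apex ∧ ∃ t, loc b = .pt t) ∨
    (loc b = .apex ∧ ∃ t, loc a = .pt t) ∨ ∃ h x n i, ch h x n ∧ i < n ∧
      ((loc a = vloc h x n i ∧ loc b = vloc h x n (i + 1)) ∨
        (loc b = vloc h x n i ∧ loc a = vloc h x n (i + 1)))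

namespace Placed

variable {G : SimpleGraph V} {loc : V → Loc} {M : ℕ} {ch : ℤ → ℤ → ℕ → Prop}
  (P : Placed G loc M ch)

include P

theorem ch_bd {h x : ℤ} {n : ℕ} (hc : ch h x n) : |h| ≤ M ∧ |x| ≤ M := by
  obtain ⟨-, -, ⟨v, hv⟩, ⟨w, hw⟩, -⟩ := P.ch_spec h x n hc
  exact ⟨P.at_bd v h hv, P.at_bd w x hw⟩

theorem vloc_vertex {h x : ℤ} {n i : ℕ} (hc : ch h x n) (hi : i ≤ n) : ∃ v, loc v = vloc h x n i := by
  obtain ⟨-, -, h1, h2, h3⟩ := P.ch_spec h x n hc
  unfold vloc
  split_ifs with e1 e2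
  · exact h1
  · exact h2
  · exact h3 i (by omega) (by omega)

/-- a common point of two different chords is an end of both or lies on two alternating chords,
in the main pieces -/
theorem diff_chords {ε : ℝ} (hε : ε * (1 + 4 * (M : ℝ) ^ 2) < 1)
    {h x h' x' : ℤ} {n n' : ℕ} (hc : ch h x n) (hc' : ch h' x' n')
    (hne : ¬ ((h = h' ∧ x = x') ∨ (h = x' ∧ x = h'))) {l m : ℝ} (hl0 : 0 ≤ l) (hl1 : l ≤ 1)
    (hm0 : 0 ≤ m) (hm1 : m ≤ 1) {z : ℂ} (hz : z = cpt h x l) (hz' : z = cpt h' x' m) :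
    ((l = 0 ∨ l = 1) ∧ (m = 0 ∨ m = 1)) ∨
      (ε < l ∧ ε < m ∧ (x - h') * (x - x') * ((h - h') * (h - x')) < 0) := by
  have hhx := (P.ch_spec h x n hc).1
  have hhx' := (P.ch_spec h' x' n' hc').1
  obtain ⟨b1, b2⟩ := P.ch_bd hc
  obtain ⟨b3, b4⟩ := P.ch_bd hc'
  have e := line_cpt (hz.symm.trans hz')
  have e' := line_cpt (hz'.symm.trans hz)
  have para := (cpt_para (h := (h : ℝ)) (x := x) (l := l))
  have para' := (cpt_para (h := (h' : ℝ)) (x := x') (l := m))
  rw [← hz] at para
  rw [← hz'] at para'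
  have r1 : ((h : ℝ) - x) ≠ 0 := sub_ne_zero.2 (by exact_mod_cast hhx)
  have r2 : ((h' : ℝ) - x') ≠ 0 := sub_ne_zero.2 (by exact_mod_cast hhx')
  have sq1 : 0 < ((h : ℝ) - x) ^ 2 := by positivity
  have sq2 : 0 < ((h' : ℝ) - x') ^ 2 := by positivity
  -- if one parameter is extreme, so is the other
  have ext : (l = 0 ∨ l = 1) ↔ (m = 0 ∨ m = 1) := by
    have k : l * (1 - l) * ((h : ℝ) - x) ^ 2 = m * (1 - m) * ((h' : ℝ) - x') ^ 2 := by
      rw [← para, ← para']
    constructor
    · intro hl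
      have : l * (1 - l) = 0 := by rcases hl with rfl | rfl <;> norm_num
      rw [this, zero_mul] at k
      have k2 := (mul_eq_zero.1 k.symm).resolve_right sq2.ne'
      rcases mul_eq_zero.1 k2 with h | h
      · exact Or.inl h
      · exact Or.inr (by linarith)
    · intro hl
      have : m * (1 - m) = 0 := by rcases hl with rfl | rfl <;> norm_num
      rw [this, zero_mul] at k
      have k2 := (mul_eq_zero.1 k).resolve_right sq1.ne'
      rcases mul_eq_zero.1 k2 with h | h
      · exact Or.inl h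
      · exact Or.inr (by linarith)
  by_cases hx : l = 0 ∨ l = 1
  · exact Or.inl ⟨hx, ext.1 hx⟩
  right
  push Not at hx
  have hl0' : 0 < l := lt_of_le_of_ne hl0 (Ne.symm hx.1)
  have hl1' : l < 1 := lt_of_le_of_ne hl1 hx.2
  have hm : ¬ (m = 0 ∨ m = 1) := fun h => by
    rcases ext.2 h with h | h
    · exact hx.1 h
    · exact hx.2 h
  push Not at hm
  have hm0' : 0 < m := lt_of_le_of_ne hm0 (Ne.symm hm.1)
  have hm1' : m < 1 := lt_of_le_of_ne hm1 hm.2
  -- no common ends
  have aux : ∀ {h x c d : ℤ} {l : ℝ}, h ≠ x → c ≠ d → ¬ ((h = c ∧ x = d) ∨ (h = d ∧ x = c)) →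
      0 < l → l < 1 → (1 - l) * (((x : ℝ) - c) * (x - d)) + l * (((h : ℝ) - c) * (h - d)) = 0 →
      (x ≠ c ∧ x ≠ d) ∧ (h ≠ c ∧ h ≠ d) := by
    intro h x c d l hhx hcd hn l0 l1 he
    have key : (x = c ∨ x = d) ↔ (h = c ∨ h = d) := by
      constructor
      · intro hh
        have : ((x : ℝ) - c) * (x - d) = 0 := by rcases hh with rfl | rfl <;> simp
        rw [this, mul_zero, zero_add] at he
        have k := (mul_eq_zero.1 he).resolve_left l0.ne'
        rcases mul_eq_zero.1 k with k | k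
        · left; exact_mod_cast sub_eq_zero.1 k
        · right; exact_mod_cast sub_eq_zero.1 k
      · intro hh
        have : ((h : ℝ) - c) * (h - d) = 0 := by rcases hh with rfl | rfl <;> simp
        rw [this, mul_zero, add_zero] at he
        have k := (mul_eq_zero.1 he).resolve_left (by linarith)
        rcases mul_eq_zero.1 k with k | k
        · left; exact_mod_cast sub_eq_zero.1 k
        · right; exact_mod_cast sub_eq_zero.1 k
    by_cases hxx : x = c ∨ x = d
    · exfalso
      have := key.1 hxx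
      omega
    · have : ¬ (h = c ∨ h = d) := fun hh => hxx (key.2 hh)
      omega
  obtain ⟨⟨n1, n2⟩, ⟨n3, n4⟩⟩ := aux hhx hhx' hne hl0' hl1' e
  have hε' : ∀ {h x c d : ℤ} {l : ℝ}, |h| ≤ M → |x| ≤ M → |c| ≤ M → |d| ≤ M → x ≠ c → x ≠ d →
      0 ≤ l → (1 - l) * (((x : ℝ) - c) * (x - d)) + l * (((h : ℝ) - c) * (h - d)) = 0 → ε < l := by
    intro h x c d l q1 q2 q3 q4 q5 q6 q7 q8
    by_contra hcon
    push Not at hcon
    exact no_zero hε q1 q2 q3 q4 q5 q6 q7 hcon q8
  exact ⟨hε' b1 b2 b3 b4 n1 n2 hl0 e, hε' b3 b4 b1 b2 n4.symm n2.symm hm0 e',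
    alt_of_inter n1 n2 n3 n4 hl0 hl1 e⟩

/-- the parabola function -/
noncomputable def pf (z : ℂ) : ℝ := z.im - z.re ^ 2

omit P in
theorem pf_cpt (h x l : ℝ) : pf (cpt h x l) = l * (1 - l) * (h - x) ^ 2 := cpt_para

omit P in
theorem pf_at (R ε : ℝ) (t : ℤ) : pf (lpt R ε (.pt t)) = 0 := by simp [pf, lpt]

omit P in
theorem pf_spoke (R : ℝ) (t m : ℝ) :
    pf ⟨m * t, -R * (1 - m) + m * t ^ 2⟩ = (1 - m) * (m * t ^ 2 - R) := by
  simp only [pf]; ring

theorem pf_on {R ε : ℝ} (h0 : 0 < ε) (h1 : ε < 1) {v : V} {h x : ℤ} {i : ℕ}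
    (hv : loc v = .on h x i) : 0 < pf (lpt R ε (loc v)) := by
  obtain ⟨n, hc, hi, hin⟩ := P.on_spec v h x i hv
  have hhx := (P.ch_spec h x n hc).1
  rw [hv]
  show 0 < pf (cpt h x (ε / i))
  rw [pf_cpt]
  have r1 : ((h : ℝ) - x) ≠ 0 := sub_ne_zero.2 (by exact_mod_cast hhx)
  have hi' : (1 : ℝ) ≤ i := by exact_mod_cast (by omega : 1 ≤ i)
  have e1 : 0 < ε / i := by positivity
  have e2 : ε / i < 1 := (div_le_self h0.le hi').trans_lt h1
  have e3 : 0 < 1 - ε / i := by linarith
  positivity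

/-- points of an edge -/
theorem edge_point {R ε : ℝ} (h0 : 0 < ε) (h1 : ε < 1) {a b : V} (hab : G.Adj a b) {z : ℂ}
    (hz : z ∈ segment ℝ (lpt R ε (loc a)) (lpt R ε (loc b))) :
    (∃ u v t, ∃ m : ℝ, s(a, b) = s(u, v) ∧ loc u = .apex ∧ loc v = .pt t ∧ 0 ≤ m ∧ m ≤ 1 ∧
      z = ⟨m * t, -R * (1 - m) + m * (t : ℝ) ^ 2⟩) ∨
    (∃ u v h x n i, ∃ l : ℝ, s(a, b) = s(u, v) ∧ loc u = vloc h x n i ∧
      loc v = vloc h x n (i + 1) ∧ ch h x n ∧ i < n ∧ par ε n (i + 1) ≤ l ∧ l ≤ par ε n i ∧
      z = cpt h x l) := by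
  have sp : ∀ {u v : V} {t : ℤ}, loc u = .apex → loc v = .pt t →
      z ∈ segment ℝ (lpt R ε (loc u)) (lpt R ε (loc v)) → ∃ m : ℝ, 0 ≤ m ∧ m ≤ 1 ∧
      z = ⟨m * t, -R * (1 - m) + m * (t : ℝ) ^ 2⟩ := by
    intro u v t hu hv hz
    rw [hu, hv] at hz
    obtain ⟨m, m0, m1, e1, e2⟩ := mem_seg hz
    refine ⟨m, m0, m1, ?_⟩
    apply Complex.ext
    · rw [e1]; simp [lpt]
    · rw [e2]; simp [lpt]; ring
  have pc : ∀ {u v : V} {h x : ℤ} {n i : ℕ}, i < n → loc u = vloc h x n i →
      loc v = vloc h x n (i + 1) → z ∈ segment ℝ (lpt R ε (loc u)) (lpt R ε (loc v)) →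
      ∃ l : ℝ, par ε n (i + 1) ≤ l ∧ l ≤ par ε n i ∧ z = cpt h x l := by
    intro u v h x n i hin hu hv hz
    rw [hu, hv, lpt_vloc, lpt_vloc, segment_symm] at hz
    exact mem_piece (par_anti h0 h1 (Nat.lt_succ_self i) (by omega)).le hz
  rcases P.edge a b hab with ⟨ha, t, hb⟩ | ⟨hb, t, ha⟩ | ⟨h, x, n, i, hc, hin, ⟨ha, hb⟩ | ⟨hb, ha⟩⟩
  · obtain ⟨m, m0, m1, e⟩ := sp ha hb hz
    exact Or.inl ⟨a, b, t, m, rfl, ha, hb, m0, m1, e⟩
  · rw [segment_symm] at hz
    obtain ⟨m, m0, m1, e⟩ := sp hb ha hz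
    exact Or.inl ⟨b, a, t, m, Sym2.eq_swap, hb, ha, m0, m1, e⟩
  · obtain ⟨l, l0, l1, e⟩ := pc hin ha hb hz
    exact Or.inr ⟨a, b, h, x, n, i, l, rfl, ha, hb, hc, hin, l0, l1, e⟩
  · rw [segment_symm] at hz
    obtain ⟨l, l0, l1, e⟩ := pc hin hb ha hz
    exact Or.inr ⟨b, a, h, x, n, i, l, Sym2.eq_swap, hb, ha, hc, hin, l0, l1, e⟩

omit P in
theorem cpt_inj {h x l m : ℝ} (hhx : h ≠ x) (e : cpt h x l = cpt h x m) : l = m := by
  have h1 := congrArg Complex.re e
  simp only [cpt] at h1
  have : (l - m) * (h - x) = 0 := by linear_combination h1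
  rcases mul_eq_zero.1 this with h2 | h2
  · linarith
  · exact absurd (sub_eq_zero.1 h2) hhx

omit P in
theorem par_on {ε : ℝ} {n j : ℕ} (h0 : 0 < j) (hj : j < n) : par ε n j = ε / j := by
  unfold par
  rw [if_neg (by omega), if_neg (by omega)]

omit P in
theorem vloc_on {h x : ℤ} {n j : ℕ} (h0 : 0 < j) (hj : j < n) : vloc h x n j = .on h x j := by
  unfold vloc
  rw [if_neg (by omega), if_neg (by omega)]

/-- a vertex on a chord -/
theorem vertex_on_chord {R ε : ℝ} (hR : 0 < R) (h0 : 0 < ε) (h1 : ε < 1)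
    (hε : ε * (1 + 4 * (M : ℝ) ^ 2) < 1) {h x : ℤ} {n : ℕ} (hc : ch h x n) {l : ℝ} (hl0 : 0 ≤ l)
    (hl1 : l ≤ 1) {w : V} (hw : lpt R ε (loc w) = cpt h x l) :
    ∃ j, j ≤ n ∧ loc w = vloc h x n j ∧ l = par ε n j := by
  have hhx := (P.ch_spec h x n hc).1
  have hhx' : (h : ℝ) ≠ x := by exact_mod_cast hhx
  have hn := (P.ch_spec h x n hc).2.1
  have r1 : ((h : ℝ) - x) ≠ 0 := sub_ne_zero.2 hhx'
  have sq1 : 0 < ((h : ℝ) - x) ^ 2 := by positivity
  cases hlw : loc w with
  | apex =>
    exfalso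
    rw [hlw] at hw
    have e := congrArg pf hw
    rw [pf_cpt] at e
    have e2 : pf (lpt R ε .apex) = -R := by simp [pf, lpt]
    rw [e2] at e
    have : 0 ≤ l * (1 - l) * ((h : ℝ) - x) ^ 2 := by
      have : 0 ≤ 1 - l := by linarith
      positivity
    linarith
  | pt t =>
    rw [hlw] at hw
    have e := congrArg pf hw
    rw [pf_cpt, pf_at] at e
    have k2 := (mul_eq_zero.1 e.symm).resolve_right sq1.ne'
    have hre := congrArg Complex.re hw
    simp only [lpt, cpt] at hre
    rcases mul_eq_zero.1 k2 with k | k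
    · refine ⟨n, le_rfl, ?_, ?_⟩
      · rw [k] at hre
        simp at hre
        have : t = x := by exact_mod_cast hre
        unfold vloc
        rw [if_neg (by omega), if_pos rfl, this]
      · unfold par
        rw [if_neg (by omega), if_pos rfl, k]
    · have k' : l = 1 := by linarith
      refine ⟨0, by omega, ?_, ?_⟩
      · rw [k'] at hre
        have : (t : ℝ) = h := by linarith
        have : t = h := by exact_mod_cast this
        unfold vloc
        rw [if_pos rfl, this]
      · unfold par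
        rw [if_pos rfl, k']
  | on h' x' j =>
    obtain ⟨n', hc', hj, hjn⟩ := P.on_spec w h' x' j hlw
    have hj' : (1 : ℝ) ≤ j := by exact_mod_cast (by omega : 1 ≤ j)
    have e1 : 0 < ε / j := by positivity
    have e2 : ε / j ≤ ε := div_le_self h0.le hj'
    rw [hlw] at hw
    have hw' : cpt h' x' (ε / j) = cpt h x l := hw
    by_cases hsame : (h = h' ∧ x = x') ∨ (h = x' ∧ x = h')
    · obtain ⟨rfl, rfl, rfl⟩ := P.ch_uniq _ _ _ _ _ _ hc hc' hsame
      have := cpt_inj hhx' hw'
      refine ⟨j, hjn.le, (vloc_on hj hjn).symm, ?_⟩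
      rw [par_on hj hjn, this]
    · exfalso
      rcases P.diff_chords hε hc hc' hsame hl0 hl1 e1.le (e2.trans h1.le) (z := cpt h x l) rfl
        hw'.symm with h | h
      · rcases h.2 with h | h
        · exact e1.ne' h
        · linarith
      · linarith [h.2.1]

theorem main : ∃ D : Drawing G, ∀ a b c d, G.Adj a b → G.Adj c d → s(a, b) ≠ s(c, d) →
    (D.crossings s(a, b) s(c, d)).Nonempty → ∃ u v h x n u' v' h' x' n', s(a, b) = s(u, v) ∧
      s(c, d) = s(u', v') ∧ ch h x n ∧ ch h' x' n' ∧ loc u = .pt h ∧ loc v = vloc h x n 1 ∧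
      loc u' = .pt h' ∧ loc v' = vloc h' x' n' 1 ∧
      (x - h') * (x - x') * ((h - h') * (h - x')) < 0 := by
  set R : ℝ := (M : ℝ) ^ 2 + 1 with hRdef
  have hR : 0 < R := by positivity
  set ε : ℝ := 1 / (2 + 4 * (M : ℝ) ^ 2) with hεdef
  have hd : 0 < 2 + 4 * (M : ℝ) ^ 2 := by positivity
  have h0 : 0 < ε := by positivity
  have hε : ε * (1 + 4 * (M : ℝ) ^ 2) < 1 := by
    rw [hεdef, one_div, inv_mul_lt_iff₀ hd]; linarith
  have h1 : ε < 1 := by
    rw [hεdef, div_lt_one hd]
    nlinarith [sq_nonneg (M : ℝ)]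
  have hRt : ∀ {v : V} {t : ℤ}, loc v = .pt t → (t : ℝ) ^ 2 < R := by
    intro v t hv
    have := P.at_bd v t hv
    have h2 : |(t : ℝ)| ≤ M := by exact_mod_cast this
    have := sq_le_sq' (abs_le.1 h2).1 (abs_le.1 h2).2
    linarith
  -- a vertex on a spoke
  have vsp : ∀ {v w : V} {t : ℤ} {m : ℝ}, loc v = .pt t → 0 ≤ m → m ≤ 1 →
      lpt R ε (loc w) = ⟨m * t, -R * (1 - m) + m * (t : ℝ) ^ 2⟩ → loc w = .apex ∨ w = v := by
    intro v w t m hv m0 m1 hw
    have e := congrArg pf hw
    rw [pf_spoke] at e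
    have hb := hRt hv
    have hb' : m * (t : ℝ) ^ 2 - R < 0 := by nlinarith [sq_nonneg (t : ℝ)]
    cases hlw : loc w with
    | apex => exact Or.inl rfl
    | pt s =>
      right
      rw [hlw, pf_at] at e
      have k := (mul_eq_zero.1 e.symm).resolve_right hb'.ne
      have hm : m = 1 := by linarith
      rw [hlw] at hw
      have hre := congrArg Complex.re hw
      simp only [lpt, hm, one_mul] at hre
      have : s = t := by exact_mod_cast hre
      apply P.inj
      rw [hlw, hv, this]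
    | on h x i =>
      exfalso
      have := P.pf_on (R := R) h0 h1 hlw
      rw [e] at this
      nlinarith
  have hinj : Function.Injective (fun v => lpt R ε (loc v)) := by
    intro v w hvw
    have hvw : lpt R ε (loc v) = lpt R ε (loc w) := hvw
    cases hlv : loc v with
    | apex =>
      cases hlw : loc w with
      | apex => exact P.inj (hlv.trans hlw.symm)
      | pt s =>
        have e := congrArg pf hvw
        rw [hlv, hlw, pf_at] at e
        have e2 : pf (lpt R ε .apex) = -R := by simp [pf, lpt]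
        rw [e2] at e
        linarith
      | on h x i =>
        have := P.pf_on (R := R) h0 h1 hlw
        rw [← hvw, hlv] at this
        have e2 : pf (lpt R ε .apex) = -R := by simp [pf, lpt]
        rw [e2] at this
        linarith
    | pt t =>
      rcases vsp (v := v) (w := w) (m := 1) hlv zero_le_one le_rfl (by
        rw [← hvw, hlv]; simp [lpt]) with h | h
      · have e := congrArg pf hvw
        rw [hlv, h, pf_at] at e
        have e2 : pf (lpt R ε .apex) = -R := by simp [pf, lpt]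
        rw [e2] at e
        linarith
      · exact h.symm
    | on h x i =>
      obtain ⟨n, hc, hi, hin⟩ := P.on_spec v h x i hlv
      have hi' : (1 : ℝ) ≤ i := by exact_mod_cast (by omega : 1 ≤ i)
      have e1 : 0 < ε / i := by positivity
      have e2 : ε / i ≤ ε := div_le_self h0.le hi'
      rw [hlv] at hvw
      obtain ⟨j, hj, hw, hl⟩ := P.vertex_on_chord hR h0 h1 hε hc e1.le (e2.trans h1.le)
        (w := w) (l := ε / i) hvw.symm
      apply P.inj
      rw [hlv, hw]
      have hij : i = j := by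
        rw [← par_on (ε := ε) hi hin] at hl
        rcases lt_trichotomy i j with h | h | h
        · have := par_anti h0 h1 h hj
          linarith
        · exact h
        · have := par_anti h0 h1 h hin.le
          linarith
      rw [← hij, vloc_on hi hin]
  have havoid : ∀ a b w, G.Adj a b → lpt R ε (loc w) ∈ segment ℝ (lpt R ε (loc a))
      (lpt R ε (loc b)) → w = a ∨ w = b := by
    intro a b w hab hw
    have fin : ∀ {u v : V}, s(a, b) = s(u, v) → (w = u ∨ w = v) → w = a ∨ w = b := by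
      intro u v h hw
      rw [Sym2.eq_iff] at h
      rcases h with ⟨rfl, rfl⟩ | ⟨rfl, rfl⟩
      · exact hw
      · exact hw.symm
    rcases P.edge_point h0 h1 hab hw with ⟨u, v, t, m, huv, hu, hv, m0, m1, e⟩ |
      ⟨u, v, h, x, n, i, l, huv, hu, hv, hc, hin, l0, l1, e⟩
    · apply fin huv
      rcases vsp hv m0 m1 e with h | h
      · exact Or.inl (P.inj (h.trans hu.symm))
      · exact Or.inr h
    · apply fin huv
      obtain ⟨j, hj, hwj, hl⟩ := P.vertex_on_chord hR h0 h1 hε hc
        ((par_nonneg h0 n (i + 1)).trans l0) (l1.trans (par_le_one h0 h1 n i)) e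
      have hij : j = i ∨ j = i + 1 := by
        by_contra hcon
        push Not at hcon
        rcases lt_or_gt_of_ne hcon.1 with h | h
        · have := par_anti h0 h1 h hin.le
          linarith
        · have := par_anti h0 h1 (i := i + 1) (j := j) (by omega) hj
          linarith
      rcases hij with rfl | rfl
      · exact Or.inl (P.inj (hwj.trans hu.symm))
      · exact Or.inr (P.inj (hwj.trans hv.symm))
  -- common points of two edges
  have key : ∀ a b c d, G.Adj a b → G.Adj c d → s(a, b) ≠ s(c, d) → ∀ z,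
      z ∈ segment ℝ (lpt R ε (loc a)) (lpt R ε (loc b)) →
      z ∈ segment ℝ (lpt R ε (loc c)) (lpt R ε (loc d)) →
      z ∉ Set.range (fun v => lpt R ε (loc v)) →
      ∃ u v h x n u' v' h' x' n', s(a, b) = s(u, v) ∧ s(c, d) = s(u', v') ∧ ch h x n ∧
        ch h' x' n' ∧ loc u = .pt h ∧ loc v = vloc h x n 1 ∧
        loc u' = .pt h' ∧ loc v' = vloc h' x' n' 1 ∧
        (x - h') * (x - x') * ((h - h') * (h - x')) < 0 := by
    intro a b c d hab hcd hne z hz hz' hzn
    have hspch : ∀ {u v : V} {t : ℤ} {m : ℝ} {h x : ℤ} {n : ℕ} {l : ℝ}, loc u = .apex →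
        loc v = .pt t → 0 ≤ m → m ≤ 1 → z = ⟨m * t, -R * (1 - m) + m * (t : ℝ) ^ 2⟩ →
        0 ≤ l → l ≤ 1 → z = cpt h x l → False := by
      intro u v t m h x n l hu hv m0 m1 e1 l0 l1 e2
      have k1 : pf z = (1 - m) * (m * (t : ℝ) ^ 2 - R) := by rw [e1, pf_spoke]
      have k2 : pf z = l * (1 - l) * ((h : ℝ) - x) ^ 2 := by rw [e2, pf_cpt]
      have hb := hRt hv
      have hb' : m * (t : ℝ) ^ 2 - R < 0 := by nlinarith [sq_nonneg (t : ℝ)]
      have k3 : 0 ≤ l * (1 - l) * ((h : ℝ) - x) ^ 2 := by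
        have : 0 ≤ 1 - l := by linarith
        positivity
      have k4 : (1 - m) * (m * (t : ℝ) ^ 2 - R) = 0 := by
        apply le_antisymm
        · nlinarith
        · rw [← k1, k2]; exact k3
      have k := (mul_eq_zero.1 k4).resolve_right hb'.ne
      have hm : m = 1 := by linarith
      apply hzn
      refine ⟨v, ?_⟩
      show lpt R ε (loc v) = z
      rw [hv, e1, hm]
      simp [lpt]
    rcases P.edge_point h0 h1 hab hz with ⟨u, v, t, m, huv, hu, hv, m0, m1, e⟩ |
      ⟨u, v, h, x, n, i, l, huv, hu, hv, hc, hin, l0, l1, e⟩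
    · rcases P.edge_point h0 h1 hcd hz' with ⟨u', v', t', m', huv', hu', hv', m0', m1', e'⟩ |
        ⟨u', v', h', x', n', i', l', huv', hu', hv', hc', hin', l0', l1', e'⟩
      · exfalso
        have huu : u = u' := P.inj (hu.trans hu'.symm)
        by_cases htt : t = t'
        · apply hne
          have : v = v' := P.inj (by rw [hv, hv', htt])
          rw [huv, huv', huu, this]
        · have re := congrArg Complex.re (e.symm.trans e')
          have im := congrArg Complex.im (e.symm.trans e')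
          simp only at re im
          have b1 := hRt hv
          have b2 := hRt hv'
          have k : (m * m') * (((t : ℝ) - t') * (R - t * t')) = 0 := by
            have im' : m * (R + (t : ℝ) ^ 2) = m' * (R + (t' : ℝ) ^ 2) := by linarith
            linear_combination (m' * (R + (t' : ℝ) ^ 2)) * re - (m' * t') * im'
          have ht : ((t : ℝ) - t') ≠ 0 := sub_ne_zero.2 (by exact_mod_cast htt)
          have hRR : R - (t : ℝ) * t' ≠ 0 := by
            have : (t : ℝ) * t' < R := by nlinarith [sq_nonneg ((t : ℝ) - t')]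
            linarith
          have hmm := (mul_eq_zero.1 k).resolve_right (mul_ne_zero ht hRR)
          apply hzn
          refine ⟨u, ?_⟩
          show lpt R ε (loc u) = z
          rw [hu]
          rcases mul_eq_zero.1 hmm with h | h
          · rw [e, h]; simp [lpt]
          · rw [e', h]; simp [lpt]
      · exact (hspch (n := n') hu hv m0 m1 e ((par_nonneg h0 _ _).trans l0')
          (l1'.trans (par_le_one h0 h1 _ _)) e').elim
    · have L0 : 0 ≤ l := (par_nonneg h0 _ _).trans l0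
      have L1 : l ≤ 1 := l1.trans (par_le_one h0 h1 _ _)
      rcases P.edge_point h0 h1 hcd hz' with ⟨u', v', t', m', huv', hu', hv', m0', m1', e'⟩ |
        ⟨u', v', h', x', n', i', l', huv', hu', hv', hc', hin', l0', l1', e'⟩
      · exact (hspch (n := n) hu' hv' m0' m1' e' L0 L1 e).elim
      · have L0' : 0 ≤ l' := (par_nonneg h0 _ _).trans l0'
        have L1' : l' ≤ 1 := l1'.trans (par_le_one h0 h1 _ _)
        have hvert : ∀ {h x : ℤ} {n j : ℕ}, ch h x n → j ≤ n → z = cpt h x (par ε n j) → False := by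
          intro h x n j hc hj e
          obtain ⟨w, hw⟩ := P.vloc_vertex hc hj
          apply hzn
          refine ⟨w, ?_⟩
          show lpt R ε (loc w) = z
          rw [hw, lpt_vloc, e]
        by_cases hsame : (h = h' ∧ x = x') ∨ (h = x' ∧ x = h')
        · exfalso
          obtain ⟨rfl, rfl, rfl⟩ := P.ch_uniq _ _ _ _ _ _ hc hc' hsame
          have hhx' : (h : ℝ) ≠ x := by exact_mod_cast (P.ch_spec h x n hc).1
          have hll : l = l' := cpt_inj hhx' (e.symm.trans e')
          rcases lt_trichotomy i i' with hlt | heq | hlt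
          · have h2 : par ε n i' ≤ par ε n (i + 1) := by
              rcases (by omega : i + 1 = i' ∨ i + 1 < i') with h | h
              · rw [h]
              · exact (par_anti h0 h1 h (by omega)).le
            exact hvert hc (j := i + 1) (by omega) (by rw [e]; congr 1; linarith)
          · subst heq
            apply hne
            rw [huv, huv', P.inj (hu.trans hu'.symm), P.inj (hv.trans hv'.symm)]
          · have h2 : par ε n i ≤ par ε n (i' + 1) := by
              rcases (by omega : i' + 1 = i ∨ i' + 1 < i) with h | h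
              · rw [h]
              · exact (par_anti h0 h1 h (by omega)).le
            exact hvert hc (j := i) (by omega) (by rw [e]; congr 1; linarith)
        · rcases P.diff_chords hε hc hc' hsame L0 L1 L0' L1' e e' with hh | ⟨g1, g2, g3⟩
          · exfalso
            have hn := (P.ch_spec h x n hc).2.1
            rcases hh.1 with h2 | h2
            · exact hvert hc (j := n) le_rfl (by
                rw [e, h2]; congr 1; unfold par; rw [if_neg (by omega), if_pos rfl])
            · exact hvert hc (j := 0) (by omega) (by rw [e, h2]; simp [par])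
          · have hi : i = 0 := by
              by_contra hcon
              have := par_le h0 (n := n) (i := i) (by omega)
              linarith
            have hi' : i' = 0 := by
              by_contra hcon
              have := par_le h0 (n := n') (i := i') (by omega)
              linarith
            subst hi hi'
            refine ⟨u, v, h, x, n, u', v', h', x', n', huv, huv', hc, hc', ?_, hv, ?_, hv', g3⟩
            · rw [hu]; simp [vloc]
            · rw [hu']; simp [vloc]
  have hdet : ∀ a b c d, G.Adj a b → G.Adj c d → s(a, b) ≠ s(c, d) → ∀ z,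
      z ∈ segment ℝ (lpt R ε (loc a)) (lpt R ε (loc b)) →
      z ∈ segment ℝ (lpt R ε (loc c)) (lpt R ε (loc d)) →
      z ∉ Set.range (fun v => lpt R ε (loc v)) →
      det (lpt R ε (loc b) - lpt R ε (loc a)) (lpt R ε (loc d) - lpt R ε (loc c)) ≠ 0 := by
    intro a b c d hab hcd hne z hz hz' hzn
    obtain ⟨u, v, h, x, n, u', v', h', x', n', huv, huv', hc, hc', hu, hv, hu', hv', hneg⟩ :=
      key a b c d hab hcd hne z hz hz' hzn
    have hn := (P.ch_spec h x n hc).2.1
    have hn' := (P.ch_spec h' x' n' hc').2.1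
    have hhx := (P.ch_spec h x n hc).1
    have hhx' := (P.ch_spec h' x' n' hc').1
    have hu2 : loc u = vloc h x n 0 := by rw [hu]; simp [vloc]
    have hu2' : loc u' = vloc h' x' n' 0 := by rw [hu']; simp [vloc]
    have q1 : par ε n 0 ≠ par ε n 1 := (par_anti h0 h1 one_pos hn).ne'
    have q2 : par ε n' 0 ≠ par ε n' 1 := (par_anti h0 h1 one_pos hn').ne'
    rw [Sym2.eq_iff] at huv huv'
    rcases huv with ⟨rfl, rfl⟩ | ⟨rfl, rfl⟩ <;> rcases huv' with ⟨rfl, rfl⟩ | ⟨rfl, rfl⟩ <;>
      rw [hu2, hv, hu2', hv', lpt_vloc, lpt_vloc, lpt_vloc, lpt_vloc]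
    · exact det_ne hhx hhx' hneg q1 q2
    · exact det_ne hhx hhx' hneg q1 q2.symm
    · exact det_ne hhx hhx' hneg q1.symm q2
    · exact det_ne hhx hhx' hneg q1.symm q2.symm
  refine ⟨segDrawing G (fun v => lpt R ε (loc v)) hinj havoid hdet, ?_⟩
  intro a b c d hab hcd hne hcr
  obtain ⟨z, hz⟩ := hcr
  obtain ⟨z1, z2, z3⟩ := segDrawing_crossings G _ hinj havoid hdet hz
  exact key a b c d hab hcd hne z z1 z2 z3

end Placed

end Pool.Agent.U20.LP
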