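import Pool.Agent.U20.LP.Graph
import Pool.Agent.U20.LP.Place

/-!
# Drawings from positions on the circle
-/

set_option autoImplicit false

namespace Pool.Agent.U20.LP

open Set Complex Pool.Agent.TH510.Sefe Pool.Agent.H622R2

namespace Dat

variable {d : Dat}

/-- the place of a vertex -/
def dloc (pos : Ga → ℤ) (a : La) : Loc :=
  if a.1 = 0 then .apex else if a.1 = 1 then .pt (pos a.2.1) else
    .on (pos a.2.1) (pos a.2.2.1) a.2.2.2

@[simp] theorem dloc_ap (pos : Ga → ℤ) : dloc pos ap = .apex := by simp [dloc, ap]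

@[simp] theorem dloc_at (pos : Ga → ℤ) (g : Ga) : dloc pos (at' g) = .pt (pos g) := by
  simp [dloc, at']

@[simp] theorem dloc_on (pos : Ga → ℤ) (g g' : Ga) (i : ℕ) :
    dloc pos (2, g, g', i) = .on (pos g) (pos g') i := by
  simp [dloc]

theorem dloc_lv (pos : Ga → ℤ) (L : ℕ) (l : Ga × Ga) (i : ℕ) :
    dloc pos (lv L l i) = vloc (pos l.1) (pos l.2) L i := by
  unfold lv vloc
  split_ifs <;> simp

/-- the chords -/
def dch (d : Dat) (pos : Ga → ℤ) (h x : ℤ) (n : ℕ) : Prop :=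
  ∃ e : Ga × Ga, ((e ∈ d.ed ∧ n = 1) ∨ (e ∈ d.lg ∧ n = d.L)) ∧ pos e.1 = h ∧ pos e.2 = x

theorem exists_bound (pos : Ga → ℤ) : ∀ l : List Ga, ∃ M : ℕ, ∀ g ∈ l, |pos g| ≤ M
  | [] => ⟨0, by simp⟩
  | a :: l => by
    obtain ⟨M, hM⟩ := exists_bound pos l
    refine ⟨M + (pos a).natAbs, ?_⟩
    intro g hg
    rw [List.mem_cons] at hg
    rcases hg with rfl | hg
    · push_cast
      have : |pos g| = ((pos g).natAbs : ℤ) := Int.abs_eq_natAbs _
      simp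
    · have := hM g hg
      push_cast
      have := abs_nonneg (pos a)
      omega

theorem placed (hW : d.WF) {pos : Ga → ℤ}
    (hpos : ∀ g ∈ d.cv, ∀ g' ∈ d.cv, pos g = pos g' → g = g') :
    ∃ M, Placed d.gr (fun v => dloc pos v.1) M (d.dch pos) := by
  obtain ⟨M, hM⟩ := exists_bound pos d.cv
  have hL := hW.L1
  have edn : ∀ {e : Ga × Ga} {n : ℕ}, ((e ∈ d.ed ∧ n = 1) ∨ (e ∈ d.lg ∧ n = d.L)) →
      e ∈ d.ed ∨ e ∈ d.lg := fun h => h.imp And.left And.left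
  have lgmem : ∀ {l : Ga × Ga}, l ∈ d.lg → l.1 ∈ d.cv ∧ l.2 ∈ d.cv := fun hl =>
    ⟨(hW.ends _ (Or.inr hl)).1, (hW.ends _ (Or.inr hl)).2.1⟩
  refine ⟨M, ?_, ?_, ?_, ?_, ?_, ?_⟩
  · rintro ⟨a, ha⟩ ⟨b, hb⟩ hab
    simp only at hab
    rw [Subtype.mk.injEq]
    rw [mem_vl] at ha hb
    rcases ha with rfl | ⟨g, hg, rfl⟩ | ⟨l, hl, i, h0, hi, rfl⟩ <;>
      rcases hb with rfl | ⟨g', hg', rfl⟩ | ⟨l', hl', i', h0', hi', rfl⟩ <;>
      simp only [dloc_ap, dloc_at, dloc_on, Loc.pt.injEq, Loc.on.injEq, reduceCtorEq] at hab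
    · rfl
    · rw [hpos g hg g' hg' hab]
    · have e1 := hpos _ (lgmem hl).1 _ (lgmem hl').1 hab.1
      have e2 := hpos _ (lgmem hl).2 _ (lgmem hl').2 hab.2.1
      rw [e1, e2, hab.2.2]
  · rintro ⟨a, ha⟩ t hv
    simp only at hv
    rw [mem_vl] at ha
    rcases ha with rfl | ⟨g, hg, rfl⟩ | ⟨l, hl, i, h0, hi, rfl⟩ <;>
      simp only [dloc_ap, dloc_at, dloc_on, Loc.pt.injEq, reduceCtorEq] at hv
    rw [← hv]
    exact hM g hg
  · rintro ⟨a, ha⟩ h x i hv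
    simp only at hv
    rw [mem_vl] at ha
    rcases ha with rfl | ⟨g, hg, rfl⟩ | ⟨l, hl, j, h0, hj, rfl⟩ <;>
      simp only [dloc_ap, dloc_at, dloc_on, Loc.on.injEq, reduceCtorEq] at hv
    obtain ⟨h1, h2, rfl⟩ := hv
    exact ⟨d.L, ⟨l, Or.inr ⟨hl, rfl⟩, h1, h2⟩, h0, hj⟩
  · rintro h x n ⟨e, he, h1, h2⟩
    obtain ⟨c1, c2, c3⟩ := hW.ends e (edn he)
    refine ⟨?_, ?_, ?_, ?_, ?_⟩
    · rw [← h1, ← h2]
      exact fun h => c3 (hpos _ c1 _ c2 h)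
    · rcases he with he | he <;> omega
    · exact ⟨d.vx (at' e.1), by rw [vx_val (at_mem c1), dloc_at, h1]⟩
    · exact ⟨d.vx (at' e.2), by rw [vx_val (at_mem c2), dloc_at, h2]⟩
    · intro i h0 hi
      rcases he with he | he
      · omega
      · have hm : (2, e.1, e.2, i) ∈ d.vl := by
          rw [mem_vl]
          exact Or.inr (Or.inr ⟨e, he.1, i, h0, by omega, rfl⟩)
        exact ⟨d.vx (2, e.1, e.2, i), by rw [vx_val hm, dloc_on, h1, h2]⟩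
  · rintro h x n h' x' n' ⟨e, he, rfl, rfl⟩ ⟨e', he', rfl, rfl⟩ hh
    obtain ⟨c1, c2, c3⟩ := hW.ends e (edn he)
    obtain ⟨c4, c5, c6⟩ := hW.ends e' (edn he')
    rcases hh with ⟨h1, h2⟩ | ⟨h1, h2⟩
    · have e1 := hpos _ c1 _ c4 h1
      have e2 := hpos _ c2 _ c5 h2
      have ee : e = e' := Prod.ext e1 e2
      subst ee
      refine ⟨rfl, rfl, ?_⟩
      rcases he with he | he <;> rcases he' with he' | he'
      · rw [he.2, he'.2]
      · exact absurd he'.1 (hW.disj _ he.1)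
      · exact absurd he.1 (hW.disj _ he'.1)
      · rw [he.2, he'.2]
    · have e1 := hpos _ c1 _ c5 h1
      have e2 := hpos _ c2 _ c4 h2
      have ee : e' = (e.2, e.1) := Prod.ext e2.symm e1.symm
      exact absurd (ee ▸ edn he') (hW.swap e (edn he))
  · rintro u v huv
    rw [adj_iff] at huv
    have key : ∀ {u v : {x // x ∈ d.vl}}, (u.1, v.1) ∈ d.es →
        (dloc pos u.1 = .apex ∧ ∃ t, dloc pos v.1 = .pt t) ∨ ∃ h x n i, d.dch pos h x n ∧ i < n ∧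
        (dloc pos u.1 = vloc h x n i ∧ dloc pos v.1 = vloc h x n (i + 1)) := by
      intro u v h
      rw [mem_es] at h
      rcases h with ⟨h1, g, -, h2⟩ | ⟨e, he, h1, h2⟩ | ⟨l, hl, i, hi, h1, h2⟩
      · left
        rw [h1, h2, dloc_ap, dloc_at]
        exact ⟨rfl, _, rfl⟩
      · right
        refine ⟨pos e.1, pos e.2, 1, 0, ⟨e, Or.inl ⟨he, rfl⟩, rfl, rfl⟩, one_pos, ?_, ?_⟩
        · rw [h1, dloc_at]; simp [vloc]
        · rw [h2, dloc_at]; simp [vloc]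
      · right
        refine ⟨pos l.1, pos l.2, d.L, i, ⟨l, Or.inr ⟨hl, rfl⟩, rfl, rfl⟩, hi, ?_, ?_⟩
        · rw [h1, dloc_lv]
        · rw [h2, dloc_lv]
    rcases huv.2 with h | h
    · rcases key h with h | ⟨h, x, n, i, h1, h2, h3⟩
      · exact Or.inl h
      · exact Or.inr (Or.inr ⟨h, x, n, i, h1, h2, Or.inl h3⟩)
    · rcases key h with h | ⟨h, x, n, i, h1, h2, h3⟩
      · exact Or.inr (Or.inl h)
      · exact Or.inr (Or.inr ⟨h, x, n, i, h1, h2, Or.inr h3⟩)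

/-- positions are good when alternating chords are far -/
theorem comp (hW : d.WF) {pos : Ga → ℤ}
    (hpos : ∀ g ∈ d.cv, ∀ g' ∈ d.cv, pos g = pos g' → g = g') {k : ℕ}
    (H : ∀ (p : Ga × Ga) (n : ℕ) (p' : Ga × Ga) (n' : ℕ),
      ((p ∈ d.ed ∧ n = 1) ∨ (p ∈ d.lg ∧ n = d.L)) → ((p' ∈ d.ed ∧ n' = 1) ∨ (p' ∈ d.lg ∧ n' = d.L)) →
      (pos p.2 - pos p'.1) * (pos p.2 - pos p'.2) *
        ((pos p.1 - pos p'.1) * (pos p.1 - pos p'.2)) < 0 →
      Far d.gr k s(d.vx (at' p.1), d.vx (lv n p 1)) s(d.vx (at' p'.1), d.vx (lv n' p' 1))) :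
    LocPlanar k d.gr := by
  obtain ⟨M, P⟩ := placed hW hpos
  obtain ⟨D, hD⟩ := P.main
  refine ⟨D, ?_⟩
  -- the vertices at the two ends of a first piece
  have hat : ∀ (u : {x // x ∈ d.vl}) (g : Ga), g ∈ d.cv → dloc pos u.1 = .pt (pos g) →
      u = d.vx (at' g) := by
    rintro ⟨a, ha⟩ g hg hu
    simp only at hu
    have ha' := ha
    rw [mem_vl] at ha
    rcases ha with rfl | ⟨g', hg', rfl⟩ | ⟨l, hl, i, h0, hi, rfl⟩ <;>
      simp only [dloc_ap, dloc_at, dloc_on, Loc.pt.injEq, reduceCtorEq] at hu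
    have := hpos _ hg' _ hg hu
    subst this
    apply Subtype.ext
    rw [vx_val ha']
  have hfp : ∀ (v : {x // x ∈ d.vl}) (e : Ga × Ga) (n : ℕ),
      ((e ∈ d.ed ∧ n = 1) ∨ (e ∈ d.lg ∧ n = d.L)) → dloc pos v.1 = vloc (pos e.1) (pos e.2) n 1 →
      v = d.vx (lv n e 1) := by
    intro v e n he hv
    have hc := hW.ends e (he.imp And.left And.left)
    by_cases hn : n = 1
    · subst hn
      have h1 : vloc (pos e.1) (pos e.2) 1 1 = .pt (pos e.2) := by simp [vloc]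
      have h2 : lv 1 e 1 = at' e.2 := by simp [lv]
      rw [h1] at hv
      rw [h2]
      exact hat v _ hc.2.1 hv
    · have he' : e ∈ d.lg ∧ n = d.L := he.resolve_left fun h => hn h.2
      have hL := hW.L1
      obtain ⟨hl, rfl⟩ := he'
      have h1 : vloc (pos e.1) (pos e.2) d.L 1 = .on (pos e.1) (pos e.2) 1 := by
        unfold vloc
        rw [if_neg one_ne_zero, if_neg (Ne.symm hn)]
      have h2 : lv d.L e 1 = (2, e.1, e.2, 1) := lv_mid e one_pos (by omega)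
      rw [h1] at hv
      rw [h2]
      obtain ⟨a, ha⟩ := v
      simp only at hv
      have ha' := ha
      rw [mem_vl] at ha
      rcases ha with rfl | ⟨g', hg', rfl⟩ | ⟨l, hl', i, h0, hi, rfl⟩ <;>
        simp only [dloc_ap, dloc_at, dloc_on, Loc.on.injEq, reduceCtorEq] at hv
      obtain ⟨e1, e2, rfl⟩ := hv
      have c := hW.ends l (Or.inr hl')
      have g1 := hpos _ c.1 _ hc.1 e1
      have g2 := hpos _ c.2.1 _ hc.2.1 e2
      have : l = e := Prod.ext g1 g2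
      subst this
      apply Subtype.ext
      rw [vx_val ha']
  intro u v p hp hl e he f hf hne
  by_contra hcon
  rw [← ne_eq, ← Set.nonempty_iff_ne_empty] at hcon
  have heE := p.edges_subset_edgeSet he
  have hfE := p.edges_subset_edgeSet hf
  revert he hf hne hcon heE hfE
  refine Sym2.ind (fun a b => ?_) e
  refine Sym2.ind (fun c c' => ?_) f
  intro he hf hne hcon heE hfE
  rw [SimpleGraph.mem_edgeSet] at heE hfE
  obtain ⟨u₁, v₁, h, x, n, u₂, v₂, h', x', n', e1, e2, ⟨q, hq, rfl, rfl⟩, ⟨q', hq', rfl, rfl⟩, l1, l2,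
    l3, l4, hneg⟩ := hD a b c c' heE hfE hne hcon
  have c1 := hW.ends q (hq.imp And.left And.left)
  have c2 := hW.ends q' (hq'.imp And.left And.left)
  have g1 := hat u₁ q.1 c1.1 l1
  have g2 := hfp v₁ q n hq l2
  have g3 := hat u₂ q'.1 c2.1 l3
  have g4 := hfp v₂ q' n' hq' l4
  rw [e1, g1, g2] at he
  rw [e2, g3, g4] at hf
  exact H q n q' n' hq hq' hneg u v p hp hl he hf

/-- levels of the vertices, measured from a hub -/
structure Lev (d : Dat) (ψ : Ga → ℕ) : Prop where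
  le : ∀ g ∈ d.cv, ψ g ≤ d.L + 3
  att : ∀ g ∈ d.att, d.L ≤ ψ g ∧ ψ g ≤ d.L + 2
  ed : ∀ e ∈ d.ed, ψ e.1 ≤ ψ e.2 + 1 ∧ ψ e.2 ≤ ψ e.1 + 1
  lg : ∀ l ∈ d.lg, (ψ l.1 = 0 ∧ ψ l.2 = d.L) ∨ (d.L + 2 ≤ ψ l.1 ∧ d.L + 2 ≤ ψ l.2)

/-- the level of a vertex -/
def lev (L : ℕ) (ψ : Ga → ℕ) (a : La) : ℕ :=
  if a.1 = 0 then L + 1 else if a.1 = 1 then ψ a.2.1 else if ψ a.2.1 = 0 then a.2.2.2 else L + 3

@[simp] theorem lev_ap (L : ℕ) (ψ : Ga → ℕ) : lev L ψ ap = L + 1 := by simp [lev, ap]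

@[simp] theorem lev_at (L : ℕ) (ψ : Ga → ℕ) (g : Ga) : lev L ψ (at' g) = ψ g := by
  simp [lev, at']

theorem lev_lv {ψ : Ga → ℕ} (hψ : Lev d ψ) (hW : d.WF) {l : Ga × Ga} (hl : l ∈ d.lg) {i : ℕ}
    (hi : i ≤ d.L) :
    (ψ l.1 = 0 ∧ lev d.L ψ (lv d.L l i) = i) ∨
      (ψ l.1 ≠ 0 ∧ d.L + 2 ≤ lev d.L ψ (lv d.L l i) ∧ lev d.L ψ (lv d.L l i) ≤ d.L + 3) := by
  have hL := hW.L1
  have c := hW.ends l (Or.inr hl)
  rcases hψ.lg l hl with ⟨h1, h2⟩ | ⟨h1, h2⟩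
  · left
    refine ⟨h1, ?_⟩
    unfold lv
    split_ifs with e1 e2
    · rw [lev_at, h1, e1]
    · rw [lev_at, h2, e2]
    · simp [lev, h1]
  · right
    refine ⟨by omega, ?_⟩
    have h3 := hψ.le _ c.1
    have h4 := hψ.le _ c.2.1
    unfold lv
    split_ifs with e1 e2
    · rw [lev_at]; omega
    · rw [lev_at]; omega
    · have : ψ l.1 ≠ 0 := by omega
      simp [lev, this]

theorem lev_lip {ψ : Ga → ℕ} (hψ : Lev d ψ) (hW : d.WF) (u v : {x // x ∈ d.vl})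
    (h : d.gr.Adj u v) : lev d.L ψ v.1 ≤ lev d.L ψ u.1 + 1 := by
  have hL := hW.L1
  have key : ∀ {a b : La}, (a, b) ∈ d.es → lev d.L ψ a ≤ lev d.L ψ b + 1 ∧
      lev d.L ψ b ≤ lev d.L ψ a + 1 := by
    intro a b h
    rw [mem_es] at h
    rcases h with ⟨rfl, g, hg, rfl⟩ | ⟨e, he, rfl, rfl⟩ | ⟨l, hl, i, hi, rfl, rfl⟩
    · have := hψ.att g hg
      rw [lev_ap, lev_at]
      omega
    · rw [lev_at, lev_at]
      exact hψ.ed e he
    · rcases lev_lv hψ hW hl (i := i) hi.le with h1 | h1 <;>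
        rcases lev_lv hψ hW hl (i := i + 1) hi with h2 | h2
      · omega
      · exact absurd h1.1 h2.1
      · exact absurd h2.1 h1.1
      · omega
  rw [adj_iff] at h
  rcases h.2 with h | h
  · exact (key h).2
  · exact (key h).1

/-- positions are good when alternating chords have different levels -/
theorem comp_lev (hW : d.WF) {pos : Ga → ℤ}
    (hpos : ∀ g ∈ d.cv, ∀ g' ∈ d.cv, pos g = pos g' → g = g')
    (H : ∀ p p' : Ga × Ga, (p ∈ d.ed ∨ p ∈ d.lg) → (p' ∈ d.ed ∨ p' ∈ d.lg) →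
      (pos p.2 - pos p'.1) * (pos p.2 - pos p'.2) *
        ((pos p.1 - pos p'.1) * (pos p.1 - pos p'.2)) < 0 →
      ∃ ψ, Lev d ψ ∧ ((ψ p.1 = 0 ∧ d.L + 2 ≤ ψ p'.1 ∧ d.L + 2 ≤ ψ p'.2) ∨
        (ψ p'.1 = 0 ∧ d.L + 2 ≤ ψ p.1 ∧ d.L + 2 ≤ ψ p.2))) :
    LocPlanar (d.L + 2) d.gr := by
  refine comp hW hpos ?_
  intro p n p' n' hp hp' hneg
  obtain ⟨ψ, hψ, h⟩ := H p p' (hp.imp And.left And.left) (hp'.imp And.left And.left) hneg
  have hL := hW.L1
  have key : ∀ {p p' : Ga × Ga} {n n' : ℕ}, ((p ∈ d.ed ∧ n = 1) ∨ (p ∈ d.lg ∧ n = d.L)) →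
      ((p' ∈ d.ed ∧ n' = 1) ∨ (p' ∈ d.lg ∧ n' = d.L)) → ψ p.1 = 0 → d.L + 2 ≤ ψ p'.1 →
      d.L + 2 ≤ ψ p'.2 → Far d.gr (d.L + 2) s(d.vx (at' p.1), d.vx (lv n p 1))
        s(d.vx (at' p'.1), d.vx (lv n' p' 1)) := by
    intro p p' n n' hp hp' h0 h1 h2
    have c1 := hW.ends p (hp.imp And.left And.left)
    have c2 := hW.ends p' (hp'.imp And.left And.left)
    refine far_of_lip (φ := fun v => lev d.L ψ v.1) (fun u v huv => lev_lip hψ hW u v huv) ?_ ?_ ?_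
    · rw [vx_val (at_mem c1.1), lev_at, h0]
    · rw [vx_val (at_mem c2.1), lev_at]
      exact h1
    · rcases hp' with ⟨he, rfl⟩ | ⟨he, rfl⟩
      · have e2 : lv 1 p' 1 = at' p'.2 := by simp [lv]
        rw [e2, vx_val (at_mem c2.2.1), lev_at]
        exact h2
      · rw [vx_val (lv_mem hW he hL)]
        rcases lev_lv hψ hW he hL with h | h
        · omega
        · exact h.2.1
  rcases h with ⟨h0, h1, h2⟩ | ⟨h0, h1, h2⟩
  · exact key hp hp' h0 h1 h2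
  · exact (key hp' hp h0 h1 h2).symm

end Dat

end Pool.Agent.U20.LP
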