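import Pool.Agent.U20.LP.FamA
import Pool.Agent.H495R3.CySat2

/-!
# Completeness for `k ≥ 4`
-/

set_option autoImplicit false

namespace Pool.Agent.U20.LP

open Pool.Agent.H622R2 Pool.Agent.H495R3.Cy Dat

variable {N : ℕ} {T : List (ℕ × ℕ × ℕ)} {L : ℕ}

/-- the product of the differences is negative only for alternating pairs -/
theorem alt_cases {a b c d : ℤ} (h : (b - c) * (b - d) * ((a - c) * (a - d)) < 0) :
    (((c < b ∧ b < d) ∨ (d < b ∧ b < c)) ∧ ((a < c ∧ a < d) ∨ (c < a ∧ d < a))) ∨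
    (((b < c ∧ b < d) ∨ (c < b ∧ d < b)) ∧ ((c < a ∧ a < d) ∨ (d < a ∧ a < c))) := by
  have neg : ∀ {x : ℤ}, (x - c) * (x - d) < 0 → (c < x ∧ x < d) ∨ (d < x ∧ x < c) := by
    intro x hx
    rcases mul_neg_iff.1 hx with ⟨h1, h2⟩ | ⟨h1, h2⟩
    · left; constructor <;> omega
    · right; constructor <;> omega
  have pos : ∀ {x : ℤ}, 0 < (x - c) * (x - d) → (x < c ∧ x < d) ∨ (c < x ∧ d < x) := by
    intro x hx
    rcases mul_pos_iff.1 hx with ⟨h1, h2⟩ | ⟨h1, h2⟩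
    · right; constructor <;> omega
    · left; constructor <;> omega
  rcases mul_neg_iff.1 h with ⟨h1, h2⟩ | ⟨h1, h2⟩
  · exact Or.inr ⟨pos h1, neg h2⟩
  · exact Or.inl ⟨neg h1, pos h2⟩

theorem alt_symm {a b c d : ℤ} (h : (b - c) * (b - d) * ((a - c) * (a - d)) < 0) :
    (d - a) * (d - b) * ((c - a) * (c - b)) < 0 := by
  have : (d - a) * (d - b) * ((c - a) * (c - b)) = (b - c) * (b - d) * ((a - c) * (a - d)) := by
    ring
  rw [this]; exact h

/-- the cluster of a vertex -/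
def elA (T : List (ℕ × ℕ × ℕ)) (n : Ga) : ℕ :=
  if n.1 = 0 then n.2.1 else if n.1 = 1 ∨ n.1 = 2 then tq (T.getD n.2.1 (0, 0, 0)) n.2.2 else
    if n.1 = 3 then (T.getD n.2.1 (0, 0, 0)).1 else (T.getD n.2.1 (0, 0, 0)).2.2

/-- the offset of a vertex in its cluster -/
def offA (n : Ga) : ℤ :=
  if n.1 = 0 then 0 else if n.1 = 1 then 4 * n.2.1 + 1 else if n.1 = 2 then 4 * n.2.1 + 2 else
    4 * n.2.1 + 3

/-- the positions -/
def posA (T : List (ℕ × ℕ × ℕ)) (g : ℕ → ℤ) (B R : ℤ) (n : Ga) : ℤ :=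
  if n.1 = 5 then -(B * R) else B * g (elA T n) + offA n

section

variable (g : ℕ → ℤ) (B R : ℤ)

theorem pos_v (x : ℕ) : posA T g B R (vE x) = B * g x + 0 := by simp [posA, elA, offA, vE]
theorem pos_c (s q : ℕ) : posA T g B R (cE s q) = B * g (tq (T.getD s (0, 0, 0)) q) +
    (4 * s + 1) := by simp [posA, elA, offA, cE]
theorem pos_b (s q : ℕ) : posA T g B R (bE s q) = B * g (tq (T.getD s (0, 0, 0)) q) +
    (4 * s + 2) := by simp [posA, elA, offA, bE]
theorem pos_z (s : ℕ) : posA T g B R (zE s) = B * g (tq (T.getD s (0, 0, 0)) 1) +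
    (4 * s + 3) := by simp [posA, elA, offA, zE, tq]
theorem pos_w (s : ℕ) : posA T g B R (wE s) = B * g (tq (T.getD s (0, 0, 0)) 3) +
    (4 * s + 3) := by simp [posA, elA, offA, wE, tq]
theorem pos_u : posA T g B R uE = -(B * R) := by simp [posA, uE]

end

/-- separation of the clusters -/
theorem sep_g {g : ℕ → ℤ} {B : ℤ} (hB : 0 < B) {x y : ℕ} (h : g x < g y) :
    B * g x + B ≤ B * g y := by
  nlinarith

/-- the conditions on the ordering of the elements -/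
structure Good (N : ℕ) (T : List (ℕ × ℕ × ℕ)) (g : ℕ → ℤ) (R : ℤ) : Prop where
  inj : ∀ x y, x < N → y < N → g x = g y → x = y
  bd : ∀ x < N, -R < g x
  btw : ∀ t ∈ T, NonSep g 0 t.1 t.2.1 t.2.2 ∧ NonSep g 0 t.2.2 t.1 t.2.1

section

variable {g : ℕ → ℤ} {B R : ℤ} (hg : Good N T g R) (hB : B = 4 * T.length + 4)

include hg hB

theorem sepA {x y : ℕ} (hx : x < N) (hy : y < N) (hxy : x ≠ y) :
    B * g x + B ≤ B * g y ∨ B * g y + B ≤ B * g x := by
  have hB0 : 0 < B := by omega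
  have : g x ≠ g y := fun h => hxy (hg.inj x y hx hy h)
  rcases lt_or_gt_of_ne this with h | h
  · exact Or.inl (sep_g hB0 h)
  · exact Or.inr (sep_g hB0 h)

theorem uA {x : ℕ} (hx : x < N) : -(B * R) + B ≤ B * g x := by
  have := hg.bd x hx
  have hB0 : 0 < B := by omega
  nlinarith

theorem posA_inj (hN : 0 < N) (hT : OKT N T) : ∀ a ∈ (datA N T L).cv, ∀ b ∈ (datA N T L).cv,
    posA T g B R a = posA T g B R b → a = b := by
  have key : ∀ {x y : ℕ} {o o' : ℤ}, x < N → y < N → 0 ≤ o → o < B → 0 ≤ o' → o' < B →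
      B * g x + o = B * g y + o' → x = y ∧ o = o' := by
    intro x y o o' hx hy h1 h2 h3 h4 h
    have : x = y := by
      by_contra hne
      rcases sepA hg hB hx hy hne with h' | h' <;> omega
    subst this
    exact ⟨rfl, by omega⟩
  have ku : ∀ {x : ℕ} {o : ℤ}, x < N → 0 ≤ o → -(B * R) ≠ B * g x + o := by
    intro x o hx h1 h
    have := uA hg hB hx
    omega
  have tl : ∀ {s : ℕ} (q : ℕ), s < T.length → tq (T.getD s (0, 0, 0)) q < N := fun q hs =>
    tq_lt hN hT hs q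
  intro a ha b hb h
  rw [memA_cv] at ha hb
  rcases ha with ⟨x, hx, rfl⟩ | ⟨s, hs, q, hq, rfl⟩ | ⟨s, hs, q, hq, rfl⟩ | ⟨s, hs, rfl⟩ |
      ⟨s, hs, rfl⟩ | rfl <;>
    rcases hb with ⟨x', hx', rfl⟩ | ⟨s', hs', q', hq', rfl⟩ | ⟨s', hs', q', hq', rfl⟩ |
      ⟨s', hs', rfl⟩ | ⟨s', hs', rfl⟩ | rfl <;>
    simp only [pos_v, pos_c, pos_b, pos_z, pos_w, pos_u] at h
  · -- v v
    have := key hx hx' (by omega) (by omega) (by omega) (by omega) h
    rw [this.1]
  · have := key hx (tl q' hs') (by omega) (by omega) (by omega) (by omega) h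
    omega
  · have := key hx (tl q' hs') (by omega) (by omega) (by omega) (by omega) h
    omega
  · have := key hx (tl 1 hs') (by omega) (by omega) (by omega) (by omega) h
    omega
  · have := key hx (tl 3 hs') (by omega) (by omega) (by omega) (by omega) h
    omega
  · exact absurd h.symm (ku hx (by omega))
  · have := key (tl q hs) hx' (by omega) (by omega) (by omega) (by omega) h
    omega
  · -- c c
    have := key (tl q hs) (tl q' hs') (by omega) (by omega) (by omega) (by omega) h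
    have e : s = s' := by omega
    subst e
    rw [tq_inj hT hs hq hq' this.1]
  · have := key (tl q hs) (tl q' hs') (by omega) (by omega) (by omega) (by omega) h
    omega
  · have := key (tl q hs) (tl 1 hs') (by omega) (by omega) (by omega) (by omega) h
    omega
  · have := key (tl q hs) (tl 3 hs') (by omega) (by omega) (by omega) (by omega) h
    omega
  · exact absurd h.symm (ku (tl q hs) (by omega))
  · have := key (tl q hs) hx' (by omega) (by omega) (by omega) (by omega) h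
    omega
  · have := key (tl q hs) (tl q' hs') (by omega) (by omega) (by omega) (by omega) h
    omega
  · -- b b
    have := key (tl q hs) (tl q' hs') (by omega) (by omega) (by omega) (by omega) h
    have e : s = s' := by omega
    subst e
    rw [tq_inj hT hs hq hq' this.1]
  · have := key (tl q hs) (tl 1 hs') (by omega) (by omega) (by omega) (by omega) h
    omega
  · have := key (tl q hs) (tl 3 hs') (by omega) (by omega) (by omega) (by omega) h
    omega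
  · exact absurd h.symm (ku (tl q hs) (by omega))
  · have := key (tl 1 hs) hx' (by omega) (by omega) (by omega) (by omega) h
    omega
  · have := key (tl 1 hs) (tl q' hs') (by omega) (by omega) (by omega) (by omega) h
    omega
  · have := key (tl 1 hs) (tl q' hs') (by omega) (by omega) (by omega) (by omega) h
    omega
  · -- z z
    have := key (tl 1 hs) (tl 1 hs') (by omega) (by omega) (by omega) (by omega) h
    have e : s = s' := by omega
    rw [e]
  · have := key (tl 1 hs) (tl 3 hs') (by omega) (by omega) (by omega) (by omega) h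
    have e : s = s' := by omega
    subst e
    have := tq_inj hT hs (by omega) (by omega) this.1
    omega
  · exact absurd h.symm (ku (tl 1 hs) (by omega))
  · have := key (tl 3 hs) hx' (by omega) (by omega) (by omega) (by omega) h
    omega
  · have := key (tl 3 hs) (tl q' hs') (by omega) (by omega) (by omega) (by omega) h
    omega
  · have := key (tl 3 hs) (tl q' hs') (by omega) (by omega) (by omega) (by omega) h
    omega
  · have := key (tl 3 hs) (tl 1 hs') (by omega) (by omega) (by omega) (by omega) h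
    have e : s = s' := by omega
    subst e
    have := tq_inj hT hs (by omega) (by omega) this.1
    omega
  · -- w w
    have := key (tl 3 hs) (tl 3 hs') (by omega) (by omega) (by omega) (by omega) h
    have e : s = s' := by omega
    rw [e]
  · exact absurd h.symm (ku (tl 3 hs) (by omega))
  · exact absurd h (ku hx' (by omega))
  · exact absurd h (ku (tl q' hs') (by omega))
  · exact absurd h (ku (tl q' hs') (by omega))
  · exact absurd h (ku (tl 1 hs') (by omega))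
  · exact absurd h (ku (tl 3 hs') (by omega))
  · rfl

end

/-- the possible orders of four elements -/
theorem ord8 {a b c d : ℤ} (h1 : a ≠ b) (h2 : a ≠ c) (h3 : a ≠ d) (h4 : b ≠ c) (h5 : b ≠ d)
    (h6 : c ≠ d) (n1 : ((a < c ∧ c < b) ∨ (b < c ∧ c < a)) ↔ ((a < d ∧ d < b) ∨ (b < d ∧ d < a)))
    (n2 : ((a < b ∧ b < d) ∨ (d < b ∧ b < a)) ↔ ((a < c ∧ c < d) ∨ (d < c ∧ c < a))) :
    (a < b ∧ b < c ∧ c < d) ∨ (b < c ∧ c < d ∧ d < a) ∨ (c < d ∧ d < a ∧ a < b) ∨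
    (d < a ∧ a < b ∧ b < c) ∨ (a < d ∧ d < c ∧ c < b) ∨ (d < c ∧ c < b ∧ b < a) ∨
    (c < b ∧ b < a ∧ a < d) ∨ (b < a ∧ a < d ∧ d < c) := by
  rcases lt_or_gt_of_ne h1 with k1 | k1 <;> rcases lt_or_gt_of_ne h4 with k2 | k2 <;>
    rcases lt_or_gt_of_ne h6 with k3 | k3 <;> rcases lt_or_gt_of_ne h3 with k4 | k4 <;>
    first
    | exact Or.inl ⟨k1, k2, k3⟩
    | exact Or.inr (Or.inl ⟨k2, k3, k4⟩)
    | exact Or.inr (Or.inr (Or.inl ⟨k3, k4, k1⟩))
    | exact Or.inr (Or.inr (Or.inr (Or.inl ⟨k4, k1, k2⟩)))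
    | exact Or.inr (Or.inr (Or.inr (Or.inr (Or.inl ⟨k4, k3, k2⟩))))
    | exact Or.inr (Or.inr (Or.inr (Or.inr (Or.inr (Or.inl ⟨k3, k2, k1⟩)))))
    | exact Or.inr (Or.inr (Or.inr (Or.inr (Or.inr (Or.inr (Or.inl ⟨k2, k1, k4⟩))))))
    | exact Or.inr (Or.inr (Or.inr (Or.inr (Or.inr (Or.inr (Or.inr ⟨k1, k4, k3⟩))))))
    | omega

section

variable {g : ℕ → ℤ} {B R : ℤ} (hg : Good N T g R) (hB : B = 4 * T.length + 4)

include hg hB

theorem quad_ord (hN : 0 < N) (hT : OKT N T) {s : ℕ} (hs : s < T.length) {X : ℕ → ℤ}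
    (hX : ∀ q, X q = B * g (tq (T.getD s (0, 0, 0)) q)) :
    (X 0 + B ≤ X 1 ∧ X 1 + B ≤ X 2 ∧ X 2 + B ≤ X 3) ∨
    (X 1 + B ≤ X 2 ∧ X 2 + B ≤ X 3 ∧ X 3 + B ≤ X 0) ∨
    (X 2 + B ≤ X 3 ∧ X 3 + B ≤ X 0 ∧ X 0 + B ≤ X 1) ∨
    (X 3 + B ≤ X 0 ∧ X 0 + B ≤ X 1 ∧ X 1 + B ≤ X 2) ∨
    (X 0 + B ≤ X 3 ∧ X 3 + B ≤ X 2 ∧ X 2 + B ≤ X 1) ∨
    (X 3 + B ≤ X 2 ∧ X 2 + B ≤ X 1 ∧ X 1 + B ≤ X 0) ∨
    (X 2 + B ≤ X 1 ∧ X 1 + B ≤ X 0 ∧ X 0 + B ≤ X 3) ∨
    (X 1 + B ≤ X 0 ∧ X 0 + B ≤ X 3 ∧ X 3 + B ≤ X 2) := by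
  have hB0 : 0 < B := by omega
  have ne : ∀ {i j : ℕ}, i < 4 → j < 4 → i ≠ j →
      g (tq (T.getD s (0, 0, 0)) i) ≠ g (tq (T.getD s (0, 0, 0)) j) := fun hi hj hij h =>
    hij (tq_inj hT hs hi hj (hg.inj _ _ (tq_lt hN hT hs _) (tq_lt hN hT hs _) h))
  have hm : T.getD s (0, 0, 0) ∈ T := by
    rw [List.getD_eq_getElem?_getD, List.getElem?_eq_getElem hs]
    exact List.getElem_mem hs
  have hb := hg.btw _ hm
  have e0 : tq (T.getD s (0, 0, 0)) 0 = 0 := rfl
  have e1 : tq (T.getD s (0, 0, 0)) 1 = (T.getD s (0, 0, 0)).1 := rfl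
  have e2 : tq (T.getD s (0, 0, 0)) 2 = (T.getD s (0, 0, 0)).2.1 := rfl
  have e3 : tq (T.getD s (0, 0, 0)) 3 = (T.getD s (0, 0, 0)).2.2 := rfl
  rw [hX, hX, hX, hX]
  have h8 := ord8 (ne (i := 0) (j := 1) (by omega) (by omega) (by omega))
    (ne (i := 0) (j := 2) (by omega) (by omega) (by omega))
    (ne (i := 0) (j := 3) (by omega) (by omega) (by omega))
    (ne (i := 1) (j := 2) (by omega) (by omega) (by omega))
    (ne (i := 1) (j := 3) (by omega) (by omega) (by omega))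
    (ne (i := 2) (j := 3) (by omega) (by omega) (by omega))
    (by rw [e0, e1, e2, e3]; exact hb.1)
    (by rw [e0, e1, e2, e3]; exact hb.2)
  rcases h8 with ⟨k1, k2, k3⟩ | ⟨k1, k2, k3⟩ | ⟨k1, k2, k3⟩ | ⟨k1, k2, k3⟩ | ⟨k1, k2, k3⟩ |
    ⟨k1, k2, k3⟩ | ⟨k1, k2, k3⟩ | ⟨k1, k2, k3⟩
  · exact Or.inl ⟨sep_g hB0 k1, sep_g hB0 k2, sep_g hB0 k3⟩
  · exact Or.inr (Or.inl ⟨sep_g hB0 k1, sep_g hB0 k2, sep_g hB0 k3⟩)
  · exact Or.inr (Or.inr (Or.inl ⟨sep_g hB0 k1, sep_g hB0 k2, sep_g hB0 k3⟩))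
  · exact Or.inr (Or.inr (Or.inr (Or.inl ⟨sep_g hB0 k1, sep_g hB0 k2, sep_g hB0 k3⟩)))
  · exact Or.inr (Or.inr (Or.inr (Or.inr (Or.inl ⟨sep_g hB0 k1, sep_g hB0 k2, sep_g hB0 k3⟩))))
  · exact Or.inr (Or.inr (Or.inr (Or.inr (Or.inr (Or.inl
      ⟨sep_g hB0 k1, sep_g hB0 k2, sep_g hB0 k3⟩)))))
  · exact Or.inr (Or.inr (Or.inr (Or.inr (Or.inr (Or.inr (Or.inl
      ⟨sep_g hB0 k1, sep_g hB0 k2, sep_g hB0 k3⟩))))))
  · exact Or.inr (Or.inr (Or.inr (Or.inr (Or.inr (Or.inr (Or.inr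
      ⟨sep_g hB0 k1, sep_g hB0 k2, sep_g hB0 k3⟩))))))

theorem nonalt_KK (hN : 0 < N) (hT : OKT N T) {s : ℕ} (hs : s < T.length) {p p' : Ga × Ga}
    (h : KK s p) (h' : KK s p')
    (hc : (posA T g B R p.2 - posA T g B R p'.1) * (posA T g B R p.2 - posA T g B R p'.2) *
      ((posA T g B R p.1 - posA T g B R p'.1) * (posA T g B R p.1 - posA T g B R p'.2)) < 0) :
    False := by
  obtain ⟨X, hX⟩ : ∃ X : ℕ → ℤ, ∀ q, X q = B * g (tq (T.getD s (0, 0, 0)) q) := ⟨_, fun _ => rfl⟩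
  have ho := quad_ord hg hB hN hT hs hX
  have hB4 : 4 ≤ B := by omega
  replace hc := alt_cases hc
  have f3 : ∀ q, q < 3 → q = 0 ∨ q = 1 ∨ q = 2 := by omega
  have f4 : ∀ q, q < 4 → q ≠ 1 → q = 0 ∨ q = 2 ∨ q = 3 := by omega
  rcases h with rfl | ⟨q, hq, rfl⟩ | ⟨q, hq, hq1, rfl⟩ <;>
    rcases h' with rfl | ⟨q', hq', rfl⟩ | ⟨q', hq', hq1', rfl⟩ <;>
    simp only [pos_z, pos_w, pos_b, ← hX] at hc
  · omega
  · omega
  · omega
  · omega
  · omega
  · rcases f3 q hq with rfl | rfl | rfl <;> rcases f4 q' hq' hq1' with rfl | rfl | rfl <;>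
      rcases ho with ho | ho | ho | ho | ho | ho | ho | ho <;> omega
  · omega
  · rcases f3 q' hq' with rfl | rfl | rfl <;> rcases f4 q hq hq1 with rfl | rfl | rfl <;>
      rcases ho with ho | ho | ho | ho | ho | ho | ho | ho <;> omega
  · omega

theorem nonalt_KT (hN : 0 < N) (hT : OKT N T) {s : ℕ} (hs : s < T.length) {p p' : Ga × Ga}
    (h : KK s p) (h' : Tie T s p')
    (hc : (posA T g B R p.2 - posA T g B R p'.1) * (posA T g B R p.2 - posA T g B R p'.2) *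
      ((posA T g B R p.1 - posA T g B R p'.1) * (posA T g B R p.1 - posA T g B R p'.2)) < 0) :
    False := by
  have tl : ∀ q, tq (T.getD s (0, 0, 0)) q < N := fun q => tq_lt hN hT hs q
  -- the vertices of the double star
  have hv : ∀ y, (y = p.1 ∨ y = p.2) → ∃ j < 4, ∃ o : ℤ, 4 * s + 2 ≤ o ∧ o ≤ 4 * s + 3 ∧
      posA T g B R y = B * g (tq (T.getD s (0, 0, 0)) j) + o := by
    rcases h with rfl | ⟨q, hq, rfl⟩ | ⟨q, hq, hq1, rfl⟩
    · rintro y (rfl | rfl)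
      · exact ⟨1, by omega, _, by omega, by omega, pos_z ..⟩
      · exact ⟨3, by omega, _, by omega, by omega, pos_w ..⟩
    · rintro y (rfl | rfl)
      · exact ⟨1, by omega, _, by omega, by omega, pos_z ..⟩
      · exact ⟨q, by omega, _, by omega, by omega, pos_b ..⟩
    · rintro y (rfl | rfl)
      · exact ⟨3, by omega, _, by omega, by omega, pos_w ..⟩
      · exact ⟨q, by omega, _, by omega, by omega, pos_b ..⟩
  -- the tie
  have ht : ∃ q < 4, ∃ lo hi : ℤ, 0 ≤ lo ∧ lo < hi ∧ hi ≤ 4 * s + 2 ∧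
      posA T g B R p'.1 = B * g (tq (T.getD s (0, 0, 0)) q) + lo ∧
      posA T g B R p'.2 = B * g (tq (T.getD s (0, 0, 0)) q) + hi := by
    rcases h' with ⟨q, hq, rfl | rfl⟩
    · exact ⟨q, hq, _, _, by omega, by omega, by omega, pos_v .., pos_c ..⟩
    · exact ⟨q, hq, _, _, by omega, by omega, by omega, pos_c .., pos_b ..⟩
  obtain ⟨q, hq, lo, hi, l0, l1, l2, e1, e2⟩ := ht
  have inner : ∀ y, (y = p.1 ∨ y = p.2) → ¬ (posA T g B R p'.1 < posA T g B R y ∧
      posA T g B R y < posA T g B R p'.2) := by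
    intro y hy
    obtain ⟨j, hj, o, o1, o2, e3⟩ := hv y hy
    rw [e1, e2, e3]
    by_cases hjq : j = q
    · subst hjq; omega
    · have := sepA hg hB (tl j) (tl q) (fun h => hjq (tq_inj hT hs hj hq h))
      omega
  have i1 := inner p.1 (Or.inl rfl)
  have i2 := inner p.2 (Or.inr rfl)
  have := alt_cases hc
  omega

theorem nonalt_UT (hN : 0 < N) (hT : OKT N T) {s : ℕ} (hs : s < T.length) {p p' : Ga × Ga}
    (h : UU N p) (h' : Tie T s p')
    (hc : (posA T g B R p.2 - posA T g B R p'.1) * (posA T g B R p.2 - posA T g B R p'.2) *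
      ((posA T g B R p.1 - posA T g B R p'.1) * (posA T g B R p.1 - posA T g B R p'.2)) < 0) :
    False := by
  have tl : ∀ q, tq (T.getD s (0, 0, 0)) q < N := fun q => tq_lt hN hT hs q
  replace hc := alt_cases hc
  obtain ⟨x, hx, rfl⟩ := h
  rcases h' with ⟨q, hq, rfl | rfl⟩ <;> simp only [pos_u, pos_v, pos_c, pos_b] at hc <;>
    have hu := uA hg hB (tl q) <;>
    have hu' := uA hg hB hx
  · by_cases hxq : x = tq (T.getD s (0, 0, 0)) q
    · rw [hxq] at hc; omega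
    · have := sepA hg hB hx (tl q) hxq
      omega
  · by_cases hxq : x = tq (T.getD s (0, 0, 0)) q
    · rw [hxq] at hc; omega
    · have := sepA hg hB hx (tl q) hxq
      omega

theorem nonalt_TT (hN : 0 < N) (hT : OKT N T) {s s' : ℕ} (hs : s < T.length)
    (hs' : s' < T.length) {p p' : Ga × Ga} (h : Tie T s p) (h' : Tie T s' p')
    (hc : (posA T g B R p.2 - posA T g B R p'.1) * (posA T g B R p.2 - posA T g B R p'.2) *
      ((posA T g B R p.1 - posA T g B R p'.1) * (posA T g B R p.1 - posA T g B R p'.2)) < 0) :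
    False := by
  replace hc := alt_cases hc
  have tl : ∀ q, tq (T.getD s (0, 0, 0)) q < N := fun q => tq_lt hN hT hs q
  have tl' : ∀ q, tq (T.getD s' (0, 0, 0)) q < N := fun q => tq_lt hN hT hs' q
  have cc : ∀ q q', g (tq (T.getD s (0, 0, 0)) q) = g (tq (T.getD s' (0, 0, 0)) q') ∨
      (B * g (tq (T.getD s (0, 0, 0)) q) + B ≤ B * g (tq (T.getD s' (0, 0, 0)) q') ∨
      B * g (tq (T.getD s' (0, 0, 0)) q') + B ≤ B * g (tq (T.getD s (0, 0, 0)) q)) := by
    intro q q'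
    by_cases he : tq (T.getD s (0, 0, 0)) q = tq (T.getD s' (0, 0, 0)) q'
    · left; rw [he]
    · exact Or.inr (sepA hg hB (tl q) (tl' q') he)
  rcases h with ⟨q, hq, rfl | rfl⟩ <;> rcases h' with ⟨q', hq', rfl | rfl⟩ <;>
    simp only [pos_v, pos_c, pos_b] at hc <;>
    rcases cc q q' with e | e
  · rw [e] at hc; omega
  · omega
  · rw [e] at hc; omega
  · omega
  · rw [e] at hc; omega
  · omega
  · rw [e] at hc; omega
  · omega

theorem nonalt_UU (hN : 0 < N) (hT : OKT N T) {p p' : Ga × Ga}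
    (h : UU N p) (h' : UU N p')
    (hc : (posA T g B R p.2 - posA T g B R p'.1) * (posA T g B R p.2 - posA T g B R p'.2) *
      ((posA T g B R p.1 - posA T g B R p'.1) * (posA T g B R p.1 - posA T g B R p'.2)) < 0) :
    False := by
  obtain ⟨x, hx, rfl⟩ := h
  obtain ⟨x', hx', rfl⟩ := h'
  simp at hc

end

theorem psiK_zero {s : ℕ} {p : Ga × Ga} (h : KK s p) : psiK L s p.1 = 0 := by
  rcases h with rfl | ⟨q, hq, rfl⟩ | ⟨q, hq, hq1, rfl⟩
  · rw [psiK_z, if_pos rfl]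
  · rw [psiK_z, if_pos rfl]
  · rw [psiK_w, if_pos rfl]

theorem psiK_farU {s : ℕ} {p : Ga × Ga} (h : UU N p) :
    L + 2 ≤ psiK L s p.1 ∧ L + 2 ≤ psiK L s p.2 := by
  obtain ⟨x, hx, rfl⟩ := h
  rw [psiK_u, psiK_v]; omega

theorem psiK_farT {s s' : ℕ} (hss : s' ≠ s) {p : Ga × Ga} (h : Tie T s' p) :
    L + 2 ≤ psiK L s p.1 ∧ L + 2 ≤ psiK L s p.2 := by
  obtain ⟨q, hq, rfl | rfl⟩ := h
  · rw [psiK_v, psiK_c, if_neg hss]; omega
  · rw [psiK_c, psiK_b, if_neg hss, if_neg hss]; omega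

theorem psiK_farK {s s' : ℕ} (hss : s' ≠ s) {p : Ga × Ga} (h : KK s' p) :
    L + 2 ≤ psiK L s p.1 ∧ L + 2 ≤ psiK L s p.2 := by
  rcases h with rfl | ⟨q, hq, rfl⟩ | ⟨q, hq, hq1, rfl⟩
  · rw [psiK_z, psiK_w, if_neg hss]; omega
  · rw [psiK_z, psiK_b, if_neg hss, if_neg hss]; omega
  · rw [psiK_w, psiK_b, if_neg hss, if_neg hss]; omega

theorem compA (hN : 0 < N) (hT : OKT N T) (hL : 1 ≤ L) {g : ℕ → ℤ} {R : ℤ}
    (hg : Good N T g R) : LocPlanar (L + 2) (datA N T L).gr := by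
  obtain ⟨B, hB⟩ : ∃ B : ℤ, B = 4 * T.length + 4 := ⟨_, rfl⟩
  refine comp_lev (d := datA N T L) (wfA hN hT hL) (pos := posA T g B R)
    (posA_inj hg hB hN hT) ?_
  intro p p' hp hp' hc
  rcases memA p hp with h | ⟨s, hs, h | h⟩ <;> rcases memA p' hp' with h' | ⟨s', hs', h' | h'⟩
  · exact (nonalt_UU hg hB hN hT h h' hc).elim
  · exact (nonalt_UT hg hB hN hT hs' h h' hc).elim
  · exact ⟨psiK L s', psiK_lev s', Or.inr ⟨psiK_zero h', psiK_farU h⟩⟩
  · exact (nonalt_UT hg hB hN hT hs h' h (alt_symm hc)).elim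
  · exact (nonalt_TT hg hB hN hT hs hs' h h' hc).elim
  · by_cases hss : s = s'
    · subst hss
      exact (nonalt_KT hg hB hN hT hs h' h (alt_symm hc)).elim
    · exact ⟨psiK L s', psiK_lev s', Or.inr ⟨psiK_zero h', psiK_farT hss h⟩⟩
  · exact ⟨psiK L s, psiK_lev s, Or.inl ⟨psiK_zero h, psiK_farU h'⟩⟩
  · by_cases hss : s' = s
    · subst hss
      exact (nonalt_KT hg hB hN hT hs h h' hc).elim
    · exact ⟨psiK L s, psiK_lev s, Or.inl ⟨psiK_zero h, psiK_farT hss h'⟩⟩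
  · by_cases hss : s' = s
    · subst hss
      exact (nonalt_KK hg hB hN hT hs h h' hc).elim
    · exact ⟨psiK L s, psiK_lev s, Or.inl ⟨psiK_zero h, psiK_farK hss h'⟩⟩

end Pool.Agent.U20.LP
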