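import Pool.Agent.U20.LP.FamB
import Pool.Agent.U20.LP.CompFA

/-!
# Completeness for `k = 3`
-/

set_option autoImplicit false

namespace Pool.Agent.U20.LP

open Pool.Agent.H622R2 Pool.Agent.H495R3.Cy Dat

section

variable {V : Type} {G : SimpleGraph V} {φ : V → ℕ} (lip : ∀ a b, G.Adj a b → φ b ≤ φ a + 1)

include lip

theorem lip_zero {a b : V} (ha : φ a = 0) (hb : φ b = 0) {u v : V} (p : G.Walk u v)
    (h : s(a, b) ∈ p.edges) : φ u + 1 ≤ p.length := by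
  induction p with
  | nil => simp at h
  | cons hadj p ih =>
    rw [SimpleGraph.Walk.edges_cons, List.mem_cons] at h
    rw [SimpleGraph.Walk.length_cons]
    rcases h with h | h
    · rw [Sym2.eq_iff] at h
      rcases h with ⟨h, -⟩ | ⟨-, h⟩
      · rw [← h]; omega
      · rw [← h]; omega
    · have := ih h
      have := lip _ _ hadj.symm
      omega

theorem far_lip2 {a b c d : V} (ha : φ a = 0) (hb : φ b = 0) (hc : 2 ≤ φ c) (hd : 2 ≤ φ d) :
    Far G 3 s(a, b) s(c, d) := by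
  have key : ∀ {u v : V} (p : G.Walk u v), s(a, b) ∈ p.edges → s(c, d) ∈ p.edges →
      4 ≤ p.length := by
    intro u v p
    induction p with
    | nil => intro h; simp at h
    | cons hadj p ih =>
      intro h1 h2
      rename_i x y z
      have h1' := h1
      rw [SimpleGraph.Walk.edges_cons, List.mem_cons] at h1 h2
      rw [SimpleGraph.Walk.length_cons]
      rcases h1 with h1 | h1
      · rcases h2 with h2 | h2
        · rw [← h2, Sym2.eq_iff] at h1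
          rcases h1 with ⟨h, -⟩ | ⟨h, -⟩
          · rw [h] at ha; omega
          · rw [h] at ha; omega
        · have h3 := lip_edge lip hc hd p h2
          have h4 : φ y = 0 := by
            rw [Sym2.eq_iff] at h1
            rcases h1 with ⟨-, h⟩ | ⟨h, -⟩
            · rw [← h]; exact hb
            · rw [← h]; exact ha
          omega
      · rcases h2 with h2 | h2
        · have h3 := lip_zero lip ha hb p h1
          have h4 : 2 ≤ φ y := by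
            rw [Sym2.eq_iff] at h2
            rcases h2 with ⟨-, h⟩ | ⟨h, -⟩
            · rw [← h]; exact hd
            · rw [← h]; exact hc
          omega
        · have := ih h1 h2
          omega
  intro u v p _ hl he hf
  have := key p he hf
  omega

end

/-- levels for `k = 3` -/
theorem comp3 {d : Dat} (hW : d.WF) (hlg : ∀ e, e ∉ d.lg) {pos : Ga → ℤ}
    (hpos : ∀ g ∈ d.cv, ∀ g' ∈ d.cv, pos g = pos g' → g = g')
    (H : ∀ p p' : Ga × Ga, p ∈ d.ed → p' ∈ d.ed →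
      (pos p.2 - pos p'.1) * (pos p.2 - pos p'.2) *
        ((pos p.1 - pos p'.1) * (pos p.1 - pos p'.2)) < 0 →
      ∃ σ : Ga → ℕ, (∀ g, σ g ≤ 2) ∧ (∀ e ∈ d.ed, σ e.1 ≤ σ e.2 + 1 ∧ σ e.2 ≤ σ e.1 + 1) ∧
        ((σ p.1 = 0 ∧ σ p.2 = 0 ∧ 2 ≤ σ p'.1 ∧ 2 ≤ σ p'.2) ∨
        (σ p'.1 = 0 ∧ σ p'.2 = 0 ∧ 2 ≤ σ p.1 ∧ 2 ≤ σ p.2))) :
    LocPlanar 3 d.gr := by
  refine comp hW hpos ?_
  intro p n p' n' hp hp' hneg
  obtain ⟨hq, rfl⟩ := hp.resolve_right fun h => hlg _ h.1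
  obtain ⟨hq', rfl⟩ := hp'.resolve_right fun h => hlg _ h.1
  obtain ⟨σ, h1, h2, h3⟩ := H p p' hq hq' hneg
  have lvo : ∀ e : Ga × Ga, lv 1 e 1 = at' e.2 := fun e => by simp [lv]
  rw [lvo, lvo]
  have c1 := hW.ends p (Or.inl hq)
  have c2 := hW.ends p' (Or.inl hq')
  have lip : ∀ u v : {x // x ∈ d.vl}, d.gr.Adj u v →
      (if v.1.1 = 0 then 1 else σ v.1.2.1) ≤ (if u.1.1 = 0 then 1 else σ u.1.2.1) + 1 := by
    have key : ∀ {a b : La}, (a, b) ∈ d.es →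
        (if b.1 = 0 then 1 else σ b.2.1) ≤ (if a.1 = 0 then 1 else σ a.2.1) + 1 ∧
        (if a.1 = 0 then 1 else σ a.2.1) ≤ (if b.1 = 0 then 1 else σ b.2.1) + 1 := by
      intro a b h
      rw [mem_es] at h
      rcases h with ⟨rfl, g, hg, rfl⟩ | ⟨e, he, rfl, rfl⟩ | ⟨l, hl, -⟩
      · have := h1 g
        simp only [ap, at', if_true, one_ne_zero, if_false]
        omega
      · have := h2 e he
        simp only [at', one_ne_zero, if_false]
        omega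
      · exact absurd hl (hlg l)
    intro u v huv
    rw [adj_iff] at huv
    rcases huv.2 with h | h
    · exact (key h).1
    · exact (key h).2
  have val : ∀ g ∈ d.cv, (if (d.vx (at' g)).1.1 = 0 then 1 else σ (d.vx (at' g)).1.2.1) = σ g := by
    intro g hg
    rw [vx_val (at_mem hg)]
    simp [at']
  rcases h3 with ⟨a1, a2, a3, a4⟩ | ⟨a1, a2, a3, a4⟩
  · exact far_lip2 lip ((val _ c1.1).trans a1) ((val _ c1.2.1).trans a2)
      (a3.trans (val _ c2.1).ge) (a4.trans (val _ c2.2.1).ge)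
  · exact (far_lip2 lip ((val _ c2.1).trans a1) ((val _ c2.2.1).trans a2)
      (a3.trans (val _ c1.1).ge) (a4.trans (val _ c1.2.1).ge)).symm

variable {N : ℕ} {T : List (ℕ × ℕ × ℕ)}

/-- the levels around the fan number `s` -/
def sig (s : ℕ) (g : Ga) : ℕ :=
  if g.1 = 0 ∨ g.1 = 5 ∨ g.1 = 6 then 2 else if g.2.1 = s then (if g.1 = 1 then 1 else 0) else 2

theorem sig_v (s x : ℕ) : sig s (vE x) = 2 := by simp [sig, vE]
theorem sig_u (s : ℕ) : sig s uE = 2 := by simp [sig, uE]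
theorem sig_e (s x i : ℕ) : sig s (eE x i) = 2 := by simp [sig, eE]
theorem sig_c (s s' q : ℕ) : sig s (cE s' q) = if s' = s then 1 else 2 := by
  split_ifs with h <;> simp [sig, cE, h]
theorem sig_b (s s' q : ℕ) : sig s (bE s' q) = if s' = s then 0 else 2 := by
  split_ifs with h <;> simp [sig, bE, h]
theorem sig_d (s s' q : ℕ) : sig s (dE s' q) = if s' = s then 0 else 2 := by
  split_ifs with h <;> simp [sig, dE, h]
theorem sig_z (s s' : ℕ) : sig s (zE s') = if s' = s then 0 else 2 := by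
  split_ifs with h <;> simp [sig, zE, h]

theorem sig_le (s : ℕ) (g : Ga) : sig s g ≤ 2 := by
  unfold sig; split_ifs <;> omega

theorem sig_ed (s : ℕ) : ∀ e ∈ (datB N T).ed, sig s e.1 ≤ sig s e.2 + 1 ∧
    sig s e.2 ≤ sig s e.1 + 1 := by
  intro e he
  rcases (memB_ed e).1 he with ⟨x, hx, rfl | rfl | rfl⟩ | ⟨x, hx, rfl | rfl⟩ | ⟨s', hs,
      ⟨q, hq, rfl⟩ | ⟨q, hq, rfl⟩ | ⟨q, hq, rfl⟩ | ⟨q, hq, rfl⟩ | ⟨q, hq, rfl⟩ | ⟨q, hq, rfl⟩⟩ <;>
    simp only [sig_v, sig_u, sig_e, sig_c, sig_b, sig_d, sig_z] <;> (try split_ifs) <;> omega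

theorem sig_T5 {s : ℕ} {p : Ga × Ga} (h : T5 s p) : sig s p.1 = 0 ∧ sig s p.2 = 0 := by
  rcases h with ⟨q, hq, rfl⟩ | ⟨q, hq, rfl⟩ | ⟨q, hq, rfl⟩ | ⟨q, hq, rfl⟩ <;>
    simp only [sig_b, sig_d, sig_z, if_true, and_self]

theorem sig_T5' {s s' : ℕ} (hss : s' ≠ s) {p : Ga × Ga} (h : T5 s' p) :
    2 ≤ sig s p.1 ∧ 2 ≤ sig s p.2 := by
  rcases h with ⟨q, hq, rfl⟩ | ⟨q, hq, rfl⟩ | ⟨q, hq, rfl⟩ | ⟨q, hq, rfl⟩ <;>
    simp only [sig_b, sig_d, sig_z, if_neg hss] <;> omega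

theorem sig_T1 {s : ℕ} {p : Ga × Ga} (h : T1 N p) : 2 ≤ sig s p.1 ∧ 2 ≤ sig s p.2 := by
  rcases h with ⟨x, hx, rfl | rfl | rfl⟩ <;> simp only [sig_v, sig_u, sig_e] <;> omega

theorem sig_T2 {s : ℕ} {p : Ga × Ga} (h : T2 N p) : 2 ≤ sig s p.1 ∧ 2 ≤ sig s p.2 := by
  rcases h with ⟨x, hx, rfl | rfl⟩ <;> simp only [sig_v, sig_e] <;> omega

theorem sig_T3 {s s' : ℕ} (hss : s' ≠ s) {p : Ga × Ga} (h : T3 T s' p) :
    2 ≤ sig s p.1 ∧ 2 ≤ sig s p.2 := by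
  rcases h with ⟨q, hq, rfl⟩
  simp only [sig_v, sig_c, if_neg hss]
  omega

/-! ### The positions -/

/-- the orientation of a triple -/
def orB (T : List (ℕ × ℕ × ℕ)) (g : ℕ → ℤ) (s : ℕ) : Prop :=
  g (T.getD s (0, 0, 0)).1 < g (T.getD s (0, 0, 0)).2.2

open Classical in
/-- the positions -/
noncomputable def posB (T : List (ℕ × ℕ × ℕ)) (g : ℕ → ℤ) (B R : ℤ) (n : Ga) : ℤ :=
  if n.1 = 5 then -(B * R) else
  if n.1 = 0 then B * g n.2.1 + 1 else
  if n.1 = 6 then B * g n.2.1 + (if n.2.2 = 0 then 0 else B - 2) else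
  if n.1 = 1 then B * g (tq (T.getD n.2.1 (0, 0, 0)) n.2.2) + (4 * n.2.1 + 2) else
  if n.1 = 2 then B * g (tq (T.getD n.2.1 (0, 0, 0)) n.2.2) + (4 * n.2.1 + 3) else
  if n.1 = 7 then (if orB T g n.2.1 then B * g (tq (T.getD n.2.1 (0, 0, 0)) n.2.2) +
      (if n.2.2 = 3 then 4 * n.2.1 + 5 else 4 * n.2.1 + 4) else
      B * g (tq (T.getD n.2.1 (0, 0, 0)) (if n.2.2 = 3 then 0 else n.2.2 + 1)) +
        (4 * n.2.1 + 4)) else
  (if orB T g n.2.1 then B * g (tq (T.getD n.2.1 (0, 0, 0)) 3) + (4 * n.2.1 + 4) else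
      B * g (tq (T.getD n.2.1 (0, 0, 0)) 0) + (4 * n.2.1 + 5))

section

variable (g : ℕ → ℤ) (B R : ℤ)

theorem pb_u : posB T g B R uE = -(B * R) := by simp [posB, uE]
theorem pb_v (x : ℕ) : posB T g B R (vE x) = B * g x + 1 := by simp [posB, vE]
theorem pb_e0 (x : ℕ) : posB T g B R (eE x 0) = B * g x + 0 := by simp [posB, eE]
theorem pb_e1 (x : ℕ) : posB T g B R (eE x 1) = B * g x + (B - 2) := by simp [posB, eE]
theorem pb_c (s q : ℕ) : posB T g B R (cE s q) = B * g (tq (T.getD s (0, 0, 0)) q) +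
    (4 * s + 2) := by simp [posB, cE]
theorem pb_b (s q : ℕ) : posB T g B R (bE s q) = B * g (tq (T.getD s (0, 0, 0)) q) +
    (4 * s + 3) := by simp [posB, bE]
theorem pb_dp {s q : ℕ} (h : orB T g s) (hq : q < 3) : posB T g B R (dE s q) =
    B * g (tq (T.getD s (0, 0, 0)) q) + (4 * s + 4) := by
  have h3 : ¬ q = 3 := by omega
  simp [posB, dE, h, h3]
theorem pb_dp3 {s : ℕ} (h : orB T g s) : posB T g B R (dE s 3) =
    B * g (tq (T.getD s (0, 0, 0)) 3) + (4 * s + 5) := by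
  simp [posB, dE, h]
theorem pb_zp {s : ℕ} (h : orB T g s) : posB T g B R (zE s) =
    B * g (tq (T.getD s (0, 0, 0)) 3) + (4 * s + 4) := by
  simp [posB, zE, h]
theorem pb_dm {s q : ℕ} (h : ¬ orB T g s) (hq : q < 3) : posB T g B R (dE s q) =
    B * g (tq (T.getD s (0, 0, 0)) (q + 1)) + (4 * s + 4) := by
  have h3 : ¬ q = 3 := by omega
  simp [posB, dE, h, h3]
theorem pb_dm3 {s : ℕ} (h : ¬ orB T g s) : posB T g B R (dE s 3) =
    B * g (tq (T.getD s (0, 0, 0)) 0) + (4 * s + 4) := by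
  simp [posB, dE, h]
theorem pb_zm {s : ℕ} (h : ¬ orB T g s) : posB T g B R (zE s) =
    B * g (tq (T.getD s (0, 0, 0)) 0) + (4 * s + 5) := by
  simp [posB, zE, h]

end

/-- the conditions on the ordering of the elements -/
structure GoodL (N : ℕ) (T : List (ℕ × ℕ × ℕ)) (g : ℕ → ℤ) (R : ℤ) : Prop where
  inj : ∀ x y, x < N → y < N → g x = g y → x = y
  bd : ∀ x < N, -R < g x
  min : ∀ x < N, 0 < x → g 0 < g x
  btw : ∀ t ∈ T, (g t.1 < g t.2.1 ∧ g t.2.1 < g t.2.2) ∨ (g t.2.2 < g t.2.1 ∧ g t.2.1 < g t.1)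

theorem goodL_of_good (hT : OKT N T) {g : ℕ → ℤ} {R : ℤ} (hg : Good N T g R) :
    ∃ g' R', GoodL N T g' R' := by
  obtain ⟨K, hK⟩ : ∃ K : ℤ, ∀ x < N, -K < g x ∧ g x < K := by
    have : ∀ n : ℕ, ∃ K : ℤ, ∀ x < n, -K < g x ∧ g x < K := by
      intro n
      induction n with
      | zero => exact ⟨0, by simp⟩
      | succ n ih =>
        obtain ⟨K, hK⟩ := ih
        refine ⟨max K (max (1 - g n) (1 + g n)), ?_⟩
        intro x hx
        rcases Nat.lt_succ_iff_lt_or_eq.1 hx with h | rfl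
        · have := hK x h
          omega
        · omega
    exact this N
  refine ⟨fun x => if g 0 ≤ g x then g x else g x + 2 * K, K, ?_, ?_, ?_, ?_⟩
  · intro x y hx hy h
    have h1 := hK x hx
    have h2 := hK y hy
    apply hg.inj x y hx hy
    split_ifs at h <;> omega
  · intro x hx
    have h1 := hK x hx
    split_ifs <;> omega
  · intro x hx h0
    have h1 := hK x hx
    have h2 := hK 0 (by omega)
    have h3 : g 0 ≠ g x := fun h => by
      have := hg.inj 0 x (by omega) hx h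
      omega
    split_ifs <;> omega
  · intro t ht
    obtain ⟨t1, t2, t3, t4, t5, t6, t7, t8, t9⟩ := hT t ht
    have b := hg.btw t ht
    have h0 := hK 0 (by omega)
    have h1 := hK _ t1
    have h2 := hK _ t2
    have h3 := hK _ t3
    have ne : ∀ {x y : ℕ}, x < N → y < N → x ≠ y → g x ≠ g y := fun hx hy hxy h =>
      hxy (hg.inj _ _ hx hy h)
    have n1 := ne (x := 0) (y := t.1) (by omega) t1 (by omega)
    have n2 := ne (x := 0) (y := t.2.1) (by omega) t2 (by omega)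
    have n3 := ne (x := 0) (y := t.2.2) (by omega) t3 (by omega)
    have n4 := ne t1 t2 t7
    have n5 := ne t2 t3 t8
    have n6 := ne t1 t3 t9
    have b1 : ((g 0 < g t.2.1 ∧ g t.2.1 < g t.1) ∨ (g t.1 < g t.2.1 ∧ g t.2.1 < g 0)) ↔
      ((g 0 < g t.2.2 ∧ g t.2.2 < g t.1) ∨ (g t.1 < g t.2.2 ∧ g t.2.2 < g 0)) := b.1
    have b2 : ((g 0 < g t.1 ∧ g t.1 < g t.2.2) ∨ (g t.2.2 < g t.1 ∧ g t.1 < g 0)) ↔
      ((g 0 < g t.2.1 ∧ g t.2.1 < g t.2.2) ∨ (g t.2.2 < g t.2.1 ∧ g t.2.1 < g 0)) := b.2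
    have h8 := ord8 n1 n2 n3 n4 n6 n5 b1 b2
    rcases h8 with ⟨k1, k2, k3⟩ | ⟨k1, k2, k3⟩ | ⟨k1, k2, k3⟩ | ⟨k1, k2, k3⟩ | ⟨k1, k2, k3⟩ |
      ⟨k1, k2, k3⟩ | ⟨k1, k2, k3⟩ | ⟨k1, k2, k3⟩ <;> split_ifs <;> omega

open Classical in
/-- the vertex of the fan with offset `4 * s + 4` in the cluster `q` -/
noncomputable def X4 (T : List (ℕ × ℕ × ℕ)) (g : ℕ → ℤ) (s q : ℕ) : Ga :=
  if orB T g s then (if q < 3 then dE s q else zE s) else (if q = 0 then dE s 3 else dE s (q - 1))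

open Classical in
/-- the vertex of the fan with offset `4 * s + 5` -/
noncomputable def X5 (T : List (ℕ × ℕ × ℕ)) (g : ℕ → ℤ) (s : ℕ) : Ga :=
  if orB T g s then dE s 3 else zE s

section

variable {g : ℕ → ℤ} {B R : ℤ} (hg : GoodL N T g R) (hB : B = 4 * T.length + 4)

/-- the vertices of a fan other than the `b`s -/
theorem pb_fan {s : ℕ} {y : Ga} (hy : (∃ q < 4, y = dE s q) ∨ y = zE s) :
    ∃ q < 4, (posB T g B R y = B * g (tq (T.getD s (0, 0, 0)) q) + (4 * s + 4) ∧ y = X4 T g s q) ∨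
      (posB T g B R y = B * g (tq (T.getD s (0, 0, 0)) q) + (4 * s + 5) ∧ y = X5 T g s) := by
  by_cases ho : orB T g s
  · rcases hy with ⟨q, hq, rfl⟩ | rfl
    · by_cases h3 : q = 3
      · subst h3
        exact ⟨3, hq, Or.inr ⟨pb_dp3 g B R ho, by simp [X5, ho]⟩⟩
      · exact ⟨q, hq, Or.inl ⟨pb_dp g B R ho (by omega),
          by simp only [X4, ho, if_true]; rw [if_pos (by omega)]⟩⟩
    · exact ⟨3, by omega, Or.inl ⟨pb_zp g B R ho, by simp [X4, ho]⟩⟩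
  · rcases hy with ⟨q, hq, rfl⟩ | rfl
    · by_cases h3 : q = 3
      · subst h3
        exact ⟨0, by omega, Or.inl ⟨pb_dm3 g B R ho, by simp [X4, ho]⟩⟩
      · exact ⟨q + 1, by omega, Or.inl ⟨pb_dm g B R ho (by omega), by simp [X4, ho]⟩⟩
    · exact ⟨0, by omega, Or.inr ⟨pb_zm g B R ho, by simp [X5, ho]⟩⟩

/-- the descriptions of the vertices -/
theorem pb_cases (hN : 0 < N) (hT : OKT N T) (hB : B = 4 * T.length + 4) {y : Ga}
    (hy : y ∈ (datB N T).cv) :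
    (y = uE ∧ posB T g B R y = -(B * R)) ∨ ∃ x < N, ∃ o : ℤ, 0 ≤ o ∧ o < B ∧
      posB T g B R y = B * g x + o ∧
      ((y = eE x 0 ∧ o = 0) ∨ (y = vE x ∧ o = 1) ∨ (y = eE x 1 ∧ o = B - 2) ∨
      ∃ s < T.length, ∃ q < 4, x = tq (T.getD s (0, 0, 0)) q ∧ ((y = cE s q ∧ o = 4 * s + 2) ∨
        (y = bE s q ∧ o = 4 * s + 3) ∨ (y = X4 T g s q ∧ o = 4 * s + 4) ∨
        (y = X5 T g s ∧ o = 4 * s + 5))) := by
  rw [memB_cv] at hy
  have tl : ∀ {s : ℕ} (q : ℕ), s < T.length → tq (T.getD s (0, 0, 0)) q < N := fun q hs =>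
    tq_lt hN hT hs q
  have fan : ∀ s < T.length, ((∃ q < 4, y = dE s q) ∨ y = zE s) → ∃ x < N, ∃ o : ℤ, 0 ≤ o ∧ o < B ∧
      posB T g B R y = B * g x + o ∧
      ((y = eE x 0 ∧ o = 0) ∨ (y = vE x ∧ o = 1) ∨ (y = eE x 1 ∧ o = B - 2) ∨
      ∃ s < T.length, ∃ q < 4, x = tq (T.getD s (0, 0, 0)) q ∧ ((y = cE s q ∧ o = 4 * s + 2) ∨
        (y = bE s q ∧ o = 4 * s + 3) ∨ (y = X4 T g s q ∧ o = 4 * s + 4) ∨
        (y = X5 T g s ∧ o = 4 * s + 5))) := by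
    intro s hs hy
    obtain ⟨q, hq, h | h⟩ := pb_fan (T := T) (g := g) (B := B) (R := R) hy
    · exact ⟨_, tl q hs, _, by omega, by omega, h.1,
        Or.inr (Or.inr (Or.inr ⟨s, hs, q, hq, rfl, Or.inr (Or.inr (Or.inl ⟨h.2, rfl⟩))⟩))⟩
    · exact ⟨_, tl q hs, _, by omega, by omega, h.1,
        Or.inr (Or.inr (Or.inr ⟨s, hs, q, hq, rfl, Or.inr (Or.inr (Or.inr ⟨h.2, rfl⟩))⟩))⟩
  rcases hy with ⟨x, hx, rfl⟩ | ⟨x, hx, rfl⟩ | ⟨x, hx, rfl⟩ | ⟨s, hs, q, hq, rfl⟩ |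
    ⟨s, hs, q, hq, rfl⟩ | ⟨s, hs, q, hq, rfl⟩ | ⟨s, hs, rfl⟩ | rfl
  · exact Or.inr ⟨x, hx, _, by omega, by omega, pb_e0 .., Or.inl ⟨rfl, rfl⟩⟩
  · exact Or.inr ⟨x, hx, _, by omega, by omega, pb_v .., Or.inr (Or.inl ⟨rfl, rfl⟩)⟩
  · exact Or.inr ⟨x, hx, _, by omega, by omega, pb_e1 .., Or.inr (Or.inr (Or.inl ⟨rfl, rfl⟩))⟩
  · exact Or.inr ⟨_, tl q hs, _, by omega, by omega, pb_c .., Or.inr (Or.inr (Or.inr
      ⟨s, hs, q, hq, rfl, Or.inl ⟨rfl, rfl⟩⟩))⟩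
  · exact Or.inr ⟨_, tl q hs, _, by omega, by omega, pb_b .., Or.inr (Or.inr (Or.inr
      ⟨s, hs, q, hq, rfl, Or.inr (Or.inl ⟨rfl, rfl⟩)⟩))⟩
  · exact Or.inr (fan s hs (Or.inl ⟨q, hq, rfl⟩))
  · exact Or.inr (fan s hs (Or.inr rfl))
  · exact Or.inl ⟨rfl, pb_u ..⟩

include hg hB

theorem sepB {x y : ℕ} (hx : x < N) (hy : y < N) (hxy : x ≠ y) :
    B * g x + B ≤ B * g y ∨ B * g y + B ≤ B * g x := by
  have hB0 : 0 < B := by omega
  have : g x ≠ g y := fun h => hxy (hg.inj x y hx hy h)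
  rcases lt_or_gt_of_ne this with h | h
  · exact Or.inl (sep_g hB0 h)
  · exact Or.inr (sep_g hB0 h)

theorem uB {x : ℕ} (hx : x < N) : -(B * R) + B ≤ B * g x := by
  have := hg.bd x hx
  have hB0 : 0 < B := by omega
  nlinarith

theorem posB_inj (hN : 0 < N) (hT : OKT N T) : ∀ a ∈ (datB N T).cv, ∀ b ∈ (datB N T).cv,
    posB T g B R a = posB T g B R b → a = b := by
  intro a ha b hb h
  rcases pb_cases (g := g) (R := R) hN hT hB ha with ⟨rfl, e1⟩ | ⟨x, hx, o, o1, o2, e1, k1⟩ <;>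
    rcases pb_cases (g := g) (R := R) hN hT hB hb with ⟨rfl, e2⟩ | ⟨x', hx', o', o1', o2', e2, k2⟩
  · rfl
  · have := uB hg hB hx'
    omega
  · have := uB hg hB hx
    omega
  · have hxx : x = x' := by
      by_contra hne
      rcases sepB hg hB hx hx' hne with h' | h' <;> omega
    subst hxx
    have hoo : o = o' := by omega
    subst hoo
    rcases k1 with ⟨rfl, k1⟩ | ⟨rfl, k1⟩ | ⟨rfl, k1⟩ | ⟨s, hs, q, hq, hxq, k1⟩ <;>
      rcases k2 with ⟨rfl, k2⟩ | ⟨rfl, k2⟩ | ⟨rfl, k2⟩ | ⟨s', hs', q', hq', hxq', k2⟩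
    · rfl
    · omega
    · omega
    · omega
    · omega
    · rfl
    · omega
    · omega
    · omega
    · omega
    · rfl
    · omega
    · omega
    · omega
    · omega
    · have key : s = s' → q = q' := by
        rintro rfl
        exact tq_inj hT hs hq hq' (hxq.symm.trans hxq')
      rcases k1 with ⟨rfl, k1⟩ | ⟨rfl, k1⟩ | ⟨rfl, k1⟩ | ⟨rfl, k1⟩ <;>
        rcases k2 with ⟨rfl, k2⟩ | ⟨rfl, k2⟩ | ⟨rfl, k2⟩ | ⟨rfl, k2⟩ <;>
        first
        | omega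
        | (have e : s = s' := by omega
           have e' := key e
           subst e e'
           rfl)

end

end Pool.Agent.U20.LP
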