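import Pool.Agent.U20.LP.CompFB

/-!
# Completeness for `k = 3`: chords that do not alternate
-/

set_option autoImplicit false

namespace Pool.Agent.U20.LP

open Pool.Agent.H622R2 Pool.Agent.H495R3.Cy Dat

variable {N : ℕ} {T : List (ℕ × ℕ × ℕ)}

/-- the chords alternate -/
def Alt (P : Ga → ℤ) (p p' : Ga × Ga) : Prop :=
  (P p.2 - P p'.1) * (P p.2 - P p'.2) * ((P p.1 - P p'.1) * (P p.1 - P p'.2)) < 0

theorem Alt.symm {P : Ga → ℤ} {p p' : Ga × Ga} (h : Alt P p p') : Alt P p' p := alt_symm h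

section

variable {g : ℕ → ℤ} {B R : ℤ} (hg : GoodL N T g R) (hB : B = 4 * T.length + 4)

/-- a chord between neighbouring positions -/
theorem nonalt_T4 {s : ℕ} {p p' : Ga × Ga} (h : T4 s p) (hc : Alt (posB T g B R) p p') : False := by
  have := alt_cases hc
  obtain ⟨q, hq, rfl⟩ := h
  simp only [pb_c, pb_b] at this
  omega

theorem nonalt_11 {p p' : Ga × Ga} (h : T1 N p) (h' : T1 N p') (hc : Alt (posB T g B R) p p') :
    False := by
  have := alt_cases hc
  rcases h with ⟨x, hx, rfl | rfl | rfl⟩ <;> rcases h' with ⟨x', hx', rfl | rfl | rfl⟩ <;>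
    simp only [pb_u] at this <;> omega

/-- the ends of the chords of the main star -/
theorem ends_T1 {p : Ga × Ga} (h : T1 N p) : posB T g B R p.1 = -(B * R) ∧ ∃ x < N, ∃ o : ℤ,
    (o = 0 ∨ o = 1 ∨ o = B - 2) ∧ posB T g B R p.2 = B * g x + o := by
  rcases h with ⟨x, hx, rfl | rfl | rfl⟩
  · exact ⟨pb_u .., x, hx, 0, by omega, pb_e0 ..⟩
  · exact ⟨pb_u .., x, hx, 1, by omega, pb_v ..⟩
  · exact ⟨pb_u .., x, hx, B - 2, by omega, pb_e1 ..⟩

/-- the chords of type 2 and 3 are in one cluster, from the offset 0 or 1 -/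
theorem ends_T2 {p : Ga × Ga} (h : T2 N p) : ∃ x < N, ∃ a b : ℤ,
    ((a = 0 ∧ b = 1) ∨ (a = 1 ∧ b = B - 2)) ∧ posB T g B R p.1 = B * g x + a ∧
    posB T g B R p.2 = B * g x + b := by
  rcases h with ⟨x, hx, rfl | rfl⟩
  · exact ⟨x, hx, 0, 1, Or.inl ⟨rfl, rfl⟩, pb_e0 .., pb_v ..⟩
  · exact ⟨x, hx, 1, B - 2, Or.inr ⟨rfl, rfl⟩, pb_v .., pb_e1 ..⟩

theorem ends_T3 {s : ℕ} {p : Ga × Ga} (h : T3 T s p) : ∃ q < 4,
    posB T g B R p.1 = B * g (tq (T.getD s (0, 0, 0)) q) + 1 ∧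
    posB T g B R p.2 = B * g (tq (T.getD s (0, 0, 0)) q) + (4 * s + 2) := by
  rcases h with ⟨q, hq, rfl⟩
  exact ⟨q, hq, pb_v .., pb_c ..⟩

theorem ends_T5 {s : ℕ} {p : Ga × Ga} (h : T5 s p) : ∀ y, (y = p.1 ∨ y = p.2) → ∃ q < 4, ∃ o : ℤ,
    4 * s + 3 ≤ o ∧ o ≤ 4 * s + 5 ∧ posB T g B R y = B * g (tq (T.getD s (0, 0, 0)) q) + o := by
  have kb : ∀ q, q < 4 → ∃ q' < 4, ∃ o : ℤ, 4 * s + 3 ≤ o ∧ o ≤ 4 * s + 5 ∧
      posB T g B R (bE s q) = B * g (tq (T.getD s (0, 0, 0)) q') + o := fun q hq =>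
    ⟨q, hq, _, by omega, by omega, pb_b ..⟩
  have kd : ∀ y, ((∃ q < 4, y = dE s q) ∨ y = zE s) → ∃ q < 4, ∃ o : ℤ,
      4 * s + 3 ≤ o ∧ o ≤ 4 * s + 5 ∧
      posB T g B R y = B * g (tq (T.getD s (0, 0, 0)) q) + o := by
    intro y hy
    obtain ⟨q, hq, h | h⟩ := pb_fan (T := T) (g := g) (B := B) (R := R) hy
    · exact ⟨q, hq, _, by omega, by omega, h.1⟩
    · exact ⟨q, hq, _, by omega, by omega, h.1⟩
  rcases h with ⟨q, hq, rfl⟩ | ⟨q, hq, rfl⟩ | ⟨q, hq, rfl⟩ | ⟨q, hq, rfl⟩ <;>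
    rintro y (rfl | rfl)
  · exact kd _ (Or.inr rfl)
  · exact kb q hq
  · exact kd _ (Or.inr rfl)
  · exact kd _ (Or.inl ⟨q, hq, rfl⟩)
  · exact kb q (by omega)
  · exact kd _ (Or.inl ⟨q, by omega, rfl⟩)
  · exact kd _ (Or.inl ⟨q, by omega, rfl⟩)
  · exact kb _ (by omega)

include hg hB

theorem nonalt_12 {p p' : Ga × Ga} (h : T1 N p) (h' : T2 N p') (hc : Alt (posB T g B R) p p') :
    False := by
  have := alt_cases hc
  obtain ⟨e1, x, hx, o, ho, e2⟩ := ends_T1 (T := T) (g := g) (B := B) (R := R) h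
  obtain ⟨y, hy, a, b, hab, e3, e4⟩ := ends_T2 (T := T) (g := g) (B := B) (R := R) h'
  rw [e1, e2, e3, e4] at this
  have u1 := uB hg hB hx
  have u2 := uB hg hB hy
  by_cases hxy : x = y
  · subst hxy; omega
  · have := sepB hg hB hx hy hxy
    omega

theorem nonalt_13 (hN : 0 < N) (hT : OKT N T) {s : ℕ} (hs : s < T.length) {p p' : Ga × Ga}
    (h : T1 N p) (h' : T3 T s p') (hc : Alt (posB T g B R) p p') : False := by
  have := alt_cases hc
  obtain ⟨e1, x, hx, o, ho, e2⟩ := ends_T1 (T := T) (g := g) (B := B) (R := R) h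
  obtain ⟨q, hq, e3, e4⟩ := ends_T3 (g := g) (B := B) (R := R) h'
  rw [e1, e2, e3, e4] at this
  have hy := tq_lt hN hT hs q
  have u1 := uB hg hB hx
  have u2 := uB hg hB hy
  by_cases hxy : x = tq (T.getD s (0, 0, 0)) q
  · rw [hxy] at this; omega
  · have := sepB hg hB hx hy hxy
    omega

theorem nonalt_22 {p p' : Ga × Ga} (h : T2 N p) (h' : T2 N p') (hc : Alt (posB T g B R) p p') :
    False := by
  have := alt_cases hc
  obtain ⟨x, hx, a, b, hab, e1, e2⟩ := ends_T2 (T := T) (g := g) (B := B) (R := R) h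
  obtain ⟨y, hy, a', b', hab', e3, e4⟩ := ends_T2 (T := T) (g := g) (B := B) (R := R) h'
  rw [e1, e2, e3, e4] at this
  by_cases hxy : x = y
  · subst hxy; omega
  · have := sepB hg hB hx hy hxy
    omega

theorem nonalt_23 (hN : 0 < N) (hT : OKT N T) {s : ℕ} (hs : s < T.length) {p p' : Ga × Ga}
    (h : T2 N p) (h' : T3 T s p') (hc : Alt (posB T g B R) p p') : False := by
  have := alt_cases hc
  obtain ⟨x, hx, a, b, hab, e1, e2⟩ := ends_T2 (T := T) (g := g) (B := B) (R := R) h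
  obtain ⟨q, hq, e3, e4⟩ := ends_T3 (g := g) (B := B) (R := R) h'
  rw [e1, e2, e3, e4] at this
  have hy := tq_lt hN hT hs q
  by_cases hxy : x = tq (T.getD s (0, 0, 0)) q
  · rw [hxy] at this; omega
  · have := sepB hg hB hx hy hxy
    omega

theorem nonalt_33 (hN : 0 < N) (hT : OKT N T) {s s' : ℕ} (hs : s < T.length) (hs' : s' < T.length)
    {p p' : Ga × Ga} (h : T3 T s p) (h' : T3 T s' p') (hc : Alt (posB T g B R) p p') : False := by
  have := alt_cases hc
  obtain ⟨q, hq, e1, e2⟩ := ends_T3 (g := g) (B := B) (R := R) h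
  obtain ⟨q', hq', e3, e4⟩ := ends_T3 (g := g) (B := B) (R := R) h'
  rw [e1, e2, e3, e4] at this
  have hx := tq_lt hN hT hs q
  have hy := tq_lt hN hT hs' q'
  by_cases hxy : tq (T.getD s (0, 0, 0)) q = tq (T.getD s' (0, 0, 0)) q'
  · rw [hxy] at this; omega
  · have := sepB hg hB hx hy hxy
    omega

theorem nonalt_35 (hN : 0 < N) (hT : OKT N T) {s : ℕ} (hs : s < T.length) {p p' : Ga × Ga}
    (h : T3 T s p) (h' : T5 s p') (hc : Alt (posB T g B R) p p') : False := by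
  have := alt_cases hc.symm
  obtain ⟨q, hq, e1, e2⟩ := ends_T3 (g := g) (B := B) (R := R) h
  have inner : ∀ y, (y = p'.1 ∨ y = p'.2) → ¬ (posB T g B R p.1 < posB T g B R y ∧
      posB T g B R y < posB T g B R p.2) := by
    intro y hy
    obtain ⟨q', hq', o, o1, o2, e3⟩ := ends_T5 (T := T) (g := g) (B := B) (R := R) h' y hy
    rw [e1, e2, e3]
    by_cases hqq : q' = q
    · subst hqq; omega
    · have := sepB hg hB (tq_lt hN hT hs q') (tq_lt hN hT hs q)
        (fun h => hqq (tq_inj hT hs hq' hq h))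
      omega
  have i1 := inner p'.1 (Or.inl rfl)
  have i2 := inner p'.2 (Or.inr rfl)
  omega

/-- the clusters of a triple -/
theorem ord_T (hN : 0 < N) (hT : OKT N T) {s : ℕ} (hs : s < T.length) {X : ℕ → ℤ}
    (hX : ∀ q, X q = B * g (tq (T.getD s (0, 0, 0)) q)) :
    (orB T g s ∧ X 0 + B ≤ X 1 ∧ X 1 + B ≤ X 2 ∧ X 2 + B ≤ X 3) ∨
    (¬ orB T g s ∧ X 0 + B ≤ X 3 ∧ X 3 + B ≤ X 2 ∧ X 2 + B ≤ X 1) := by
  have hB0 : 0 < B := by omega
  have hm : T.getD s (0, 0, 0) ∈ T := by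
    rw [List.getD_eq_getElem?_getD, List.getElem?_eq_getElem hs]
    exact List.getElem_mem hs
  obtain ⟨t1, t2, t3, t4, t5, t6, -⟩ := hT _ hm
  have e0 : tq (T.getD s (0, 0, 0)) 0 = 0 := rfl
  have e1 : tq (T.getD s (0, 0, 0)) 1 = (T.getD s (0, 0, 0)).1 := rfl
  have e2 : tq (T.getD s (0, 0, 0)) 2 = (T.getD s (0, 0, 0)).2.1 := rfl
  have e3 : tq (T.getD s (0, 0, 0)) 3 = (T.getD s (0, 0, 0)).2.2 := rfl
  rw [hX, hX, hX, hX, e0, e1, e2, e3]
  unfold orB
  have m1 := hg.min _ t1 t4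
  have m3 := hg.min _ t3 t6
  rcases hg.btw _ hm with ⟨h1, h2⟩ | ⟨h1, h2⟩
  · exact Or.inl ⟨by omega, sep_g hB0 m1, sep_g hB0 h1, sep_g hB0 h2⟩
  · exact Or.inr ⟨by omega, sep_g hB0 m3, sep_g hB0 h1, sep_g hB0 h2⟩

theorem nonalt_55 (hN : 0 < N) (hT : OKT N T) {s : ℕ} (hs : s < T.length) {p p' : Ga × Ga}
    (h : T5 s p) (h' : T5 s p') (hc : Alt (posB T g B R) p p') : False := by
  obtain ⟨X, hX⟩ : ∃ X : ℕ → ℤ, ∀ q, X q = B * g (tq (T.getD s (0, 0, 0)) q) := ⟨_, fun _ => rfl⟩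
  have ho := ord_T hg hB hN hT hs hX
  have hB4 : (4 : ℤ) * s + 8 ≤ B := by omega
  have f3 : ∀ q, q < 3 → q = 0 ∨ q = 1 ∨ q = 2 := by omega
  have f4 : ∀ q, q < 4 → q = 0 ∨ q = 1 ∨ q = 2 ∨ q = 3 := by omega
  -- the vertices of the fan
  have vtx : ∀ {p : Ga × Ga}, T5 s p → ∀ y, (y = p.1 ∨ y = p.2) →
      (∃ q < 4, y = bE s q) ∨ (∃ q < 4, y = dE s q) ∨ y = zE s := by
    intro p h y hy
    rcases h with ⟨q, hq, rfl⟩ | ⟨q, hq, rfl⟩ | ⟨q, hq, rfl⟩ | ⟨q, hq, rfl⟩ <;>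
      rcases hy with rfl | rfl
    · exact Or.inr (Or.inr rfl)
    · exact Or.inl ⟨q, hq, rfl⟩
    · exact Or.inr (Or.inr rfl)
    · exact Or.inr (Or.inl ⟨q, hq, rfl⟩)
    · exact Or.inl ⟨q, by omega, rfl⟩
    · exact Or.inr (Or.inl ⟨q, by omega, rfl⟩)
    · exact Or.inr (Or.inl ⟨q, by omega, rfl⟩)
    · exact Or.inl ⟨_, by omega, rfl⟩
  -- a rim is crossed by no chord of the fan
  have rim : ∀ {p p' : Ga × Ga}, T5 s p →
      ((∃ q < 3, p' = (bE s q, dE s q)) ∨ (∃ q < 3, p' = (dE s q, bE s (q + 1)))) →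
      Alt (posB T g B R) p p' → False := by
    intro p p' h hr hc
    have key : (∀ y, (y = p.1 ∨ y = p.2) → ¬ ((posB T g B R p'.1 < posB T g B R y ∧
        posB T g B R y < posB T g B R p'.2) ∨ (posB T g B R p'.2 < posB T g B R y ∧
        posB T g B R y < posB T g B R p'.1))) ∨ (∀ y, (y = p.1 ∨ y = p.2) →
        posB T g B R p'.1 ≤ posB T g B R y ∧ posB T g B R y ≤ posB T g B R p'.2) := by
      rcases ho with ⟨o, o1, o2, o3⟩ | ⟨o, o1, o2, o3⟩
      · left
        intro y hy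
        rcases hr with ⟨q, hq, rfl⟩ | ⟨q, hq, rfl⟩ <;>
          simp only [pb_b, pb_dp g B R o hq, ← hX] <;>
          rcases vtx h y hy with ⟨j, hj, rfl⟩ | ⟨j, hj, rfl⟩ | rfl
        · simp only [pb_b, ← hX]
          omega
        · by_cases h3 : j = 3
          · subst h3
            simp only [pb_dp3 g B R o, ← hX]
            omega
          · simp only [pb_dp g B R o (show j < 3 by omega), ← hX]
            omega
        · simp only [pb_zp g B R o, ← hX]
          omega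
        · simp only [pb_b, ← hX]
          rcases f3 q hq with rfl | rfl | rfl <;> rcases f4 j hj with rfl | rfl | rfl | rfl <;>
            simp only [Nat.reduceAdd] <;> omega
        · by_cases h3 : j = 3
          · subst h3
            simp only [pb_dp3 g B R o, ← hX]
            rcases f3 q hq with rfl | rfl | rfl <;> simp only [Nat.reduceAdd] <;> omega
          · simp only [pb_dp g B R o (show j < 3 by omega), ← hX]
            rcases f3 q hq with rfl | rfl | rfl <;> rcases f4 j hj with rfl | rfl | rfl | rfl <;>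
              simp only [Nat.reduceAdd] <;> omega
        · simp only [pb_zp g B R o, ← hX]
          rcases f3 q hq with rfl | rfl | rfl <;> simp only [Nat.reduceAdd] <;> omega
      · by_cases hq0 : p' = (bE s 0, dE s 0)
        · right
          subst hq0
          intro y hy
          simp only [pb_b, pb_dm g B R o (show 0 < 3 by omega), ← hX]
          rcases vtx h y hy with ⟨j, hj, rfl⟩ | ⟨j, hj, rfl⟩ | rfl
          · simp only [pb_b, ← hX]
            rcases f4 j hj with rfl | rfl | rfl | rfl <;> simp only [Nat.reduceAdd] <;> omega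
          · by_cases h3 : j = 3
            · subst h3
              simp only [pb_dm3 g B R o, ← hX, Nat.reduceAdd]
              omega
            · simp only [pb_dm g B R o (show j < 3 by omega), ← hX]
              rcases f3 j (by omega) with rfl | rfl | rfl <;> simp only [Nat.reduceAdd] <;> omega
          · simp only [pb_zm g B R o, ← hX, Nat.reduceAdd]
            omega
        · left
          intro y hy
          rcases hr with ⟨q, hq, rfl⟩ | ⟨q, hq, rfl⟩ <;>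
            simp only [pb_b, pb_dm g B R o hq, ← hX] <;>
            rcases vtx h y hy with ⟨j, hj, rfl⟩ | ⟨j, hj, rfl⟩ | rfl
          · simp only [pb_b, ← hX]
            rcases f3 q hq with rfl | rfl | rfl
            · exact absurd rfl hq0
            · rcases f4 j hj with rfl | rfl | rfl | rfl <;> simp only [Nat.reduceAdd] <;> omega
            · rcases f4 j hj with rfl | rfl | rfl | rfl <;> simp only [Nat.reduceAdd] <;> omega
          · by_cases h3 : j = 3
            · subst h3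
              simp only [pb_dm3 g B R o, ← hX]
              rcases f3 q hq with rfl | rfl | rfl
              · exact absurd rfl hq0
              · simp only [Nat.reduceAdd]; omega
              · simp only [Nat.reduceAdd]; omega
            · simp only [pb_dm g B R o (show j < 3 by omega), ← hX]
              rcases f3 q hq with rfl | rfl | rfl
              · exact absurd rfl hq0
              · rcases f3 j (by omega) with rfl | rfl | rfl <;> simp only [Nat.reduceAdd] <;> omega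
              · rcases f3 j (by omega) with rfl | rfl | rfl <;> simp only [Nat.reduceAdd] <;> omega
          · simp only [pb_zm g B R o, ← hX]
            rcases f3 q hq with rfl | rfl | rfl
            · exact absurd rfl hq0
            · simp only [Nat.reduceAdd]; omega
            · simp only [Nat.reduceAdd]; omega
          · simp only [pb_b, ← hX]
            omega
          · by_cases h3 : j = 3
            · subst h3
              simp only [pb_dm3 g B R o, ← hX]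
              omega
            · simp only [pb_dm g B R o (show j < 3 by omega), ← hX]
              omega
          · simp only [pb_zm g B R o, ← hX]
            omega
    have ha := alt_cases hc
    rcases key with key | key
    · have k1 := key p.1 (Or.inl rfl)
      have k2 := key p.2 (Or.inr rfl)
      omega
    · have k1 := key p.1 (Or.inl rfl)
      have k2 := key p.2 (Or.inr rfl)
      omega
  have hub : ∀ {p : Ga × Ga}, T5 s p → p.1 = zE s ∨
      ((∃ q < 3, p = (bE s q, dE s q)) ∨ (∃ q < 3, p = (dE s q, bE s (q + 1)))) := by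
    intro p h
    rcases h with ⟨q, hq, rfl⟩ | ⟨q, hq, rfl⟩ | ⟨q, hq, rfl⟩ | ⟨q, hq, rfl⟩
    · exact Or.inl rfl
    · exact Or.inl rfl
    · exact Or.inr (Or.inl ⟨q, hq, rfl⟩)
    · exact Or.inr (Or.inr ⟨q, hq, rfl⟩)
  rcases hub h' with h1 | h1
  · rcases hub h with h2 | h2
    · have := alt_cases hc
      rw [h1, h2] at this
      omega
    · exact rim h' h2 hc.symm
  · exact rim h h1 hc

end

theorem compB (hN : 0 < N) (hT : OKT N T) {g : ℕ → ℤ} {R : ℤ} (hg : Good N T g R) :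
    LocPlanar 3 (datB N T).gr := by
  obtain ⟨g', R', hg'⟩ := goodL_of_good hT hg
  obtain ⟨B, hB⟩ : ∃ B : ℤ, B = 4 * T.length + 4 := ⟨_, rfl⟩
  refine comp3 (d := datB N T) (wfB hN hT) memB_lg (pos := posB T g' B R')
    (posB_inj hg' hB hN hT) ?_
  intro p p' hp hp' hc
  have hc : Alt (posB T g' B R') p p' := hc
  have L : ∀ {s : ℕ} {p p' : Ga × Ga}, T5 s p → (2 ≤ sig s p'.1 ∧ 2 ≤ sig s p'.2) →
      ∃ σ : Ga → ℕ, (∀ g, σ g ≤ 2) ∧ (∀ e ∈ (datB N T).ed, σ e.1 ≤ σ e.2 + 1 ∧ σ e.2 ≤ σ e.1 + 1) ∧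
        ((σ p.1 = 0 ∧ σ p.2 = 0 ∧ 2 ≤ σ p'.1 ∧ 2 ≤ σ p'.2) ∨
        (σ p'.1 = 0 ∧ σ p'.2 = 0 ∧ 2 ≤ σ p.1 ∧ 2 ≤ σ p.2)) := fun h h' =>
    ⟨sig _, sig_le _, sig_ed _, Or.inl ⟨(sig_T5 h).1, (sig_T5 h).2, h'.1, h'.2⟩⟩
  have L' : ∀ {s : ℕ} {p p' : Ga × Ga}, T5 s p' → (2 ≤ sig s p.1 ∧ 2 ≤ sig s p.2) →
      ∃ σ : Ga → ℕ, (∀ g, σ g ≤ 2) ∧ (∀ e ∈ (datB N T).ed, σ e.1 ≤ σ e.2 + 1 ∧ σ e.2 ≤ σ e.1 + 1) ∧
        ((σ p.1 = 0 ∧ σ p.2 = 0 ∧ 2 ≤ σ p'.1 ∧ 2 ≤ σ p'.2) ∨
        (σ p'.1 = 0 ∧ σ p'.2 = 0 ∧ 2 ≤ σ p.1 ∧ 2 ≤ σ p.2)) := fun h h' =>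
    ⟨sig _, sig_le _, sig_ed _, Or.inr ⟨(sig_T5 h).1, (sig_T5 h).2, h'.1, h'.2⟩⟩
  rcases (memB_ed p).1 hp with h | h | ⟨s, hs, h | h | h⟩ <;>
    rcases (memB_ed p').1 hp' with h' | h' | ⟨s', hs', h' | h' | h'⟩
  · exact (nonalt_11 h h' hc).elim
  · exact (nonalt_12 hg' hB h h' hc).elim
  · exact (nonalt_13 hg' hB hN hT hs' h h' hc).elim
  · exact (nonalt_T4 h' hc.symm).elim
  · exact L' h' (sig_T1 h)
  · exact (nonalt_12 hg' hB h' h hc.symm).elim
  · exact (nonalt_22 hg' hB h h' hc).elim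
  · exact (nonalt_23 hg' hB hN hT hs' h h' hc).elim
  · exact (nonalt_T4 h' hc.symm).elim
  · exact L' h' (sig_T2 h)
  · exact (nonalt_13 hg' hB hN hT hs h' h hc.symm).elim
  · exact (nonalt_23 hg' hB hN hT hs h' h hc.symm).elim
  · exact (nonalt_33 hg' hB hN hT hs hs' h h' hc).elim
  · exact (nonalt_T4 h' hc.symm).elim
  · by_cases hss : s = s'
    · subst hss
      exact (nonalt_35 hg' hB hN hT hs h h' hc).elim
    · exact L' h' (sig_T3 hss h)
  · exact (nonalt_T4 h hc).elim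
  · exact (nonalt_T4 h hc).elim
  · exact (nonalt_T4 h hc).elim
  · exact (nonalt_T4 h hc).elim
  · exact (nonalt_T4 h hc).elim
  · exact L h (sig_T1 h')
  · exact L h (sig_T2 h')
  · by_cases hss : s' = s
    · subst hss
      exact (nonalt_35 hg' hB hN hT hs h' h hc.symm).elim
    · exact L h (sig_T3 hss h')
  · exact (nonalt_T4 h' hc.symm).elim
  · by_cases hss : s' = s
    · subst hss
      exact (nonalt_55 hg' hB hN hT hs h h' hc).elim
    · exact L h (sig_T5' hss h')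

end Pool.Agent.U20.LP
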