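import Pool.Agent.U20.LP.SoundB1

/-!
# Combinatorics of cyclic orientations, and the gap lemma for `k = 3`
-/

set_option autoImplicit false

namespace Pool.Agent.U20.LP

open Set Complex Pool.Agent.TH510.Sefe

section

variable {V : Type} {W : V → Prop} {o : V → V → V → ℤ} (hc : Cyc W o)

include hc

/-- three consecutive points -/
theorem Cyc.alt3 {a v b y : V} (wa : W a) (wv : W v) (wb : W b) (wy : W y) (av : a ≠ v)
    (ab : a ≠ b) (ay : a ≠ y) (vb : v ≠ b) (vy : v ≠ y) (bY : b ≠ y)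
    (h1 : o y b a = o y b v) (h2 : o y a v = o y a b) : o a b v = - o a b y := by
  have k := hc.coc y a v b wy wa wv wb ay.symm vy.symm bY.symm av ab vb
  have s1 := hc.swap y a b wy wa wb ay.symm ab bY.symm
  have s2 := hc.swap y v b wy wv wb vy.symm vb bY.symm
  have s3 := hc.swap a v b wa wv wb av vb ab
  have r1 := hc.rot y a b wy wa wb ay.symm ab bY.symm
  omega

/-- alternation is symmetric -/
theorem Cyc.alt_symm {a b c d : V} (wa : W a) (wb : W b) (wc : W c) (wd : W d) (ab : a ≠ b)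
    (ac : a ≠ c) (ad : a ≠ d) (bc : b ≠ c) (bd : b ≠ d) (cd : c ≠ d) (h : o a b c = - o a b d) :
    o c d a = - o c d b := by
  have k := hc.coc a b c d wa wb wc wd ab ac ad bc bd cd
  have p1 := hc.pm a b d wa wb wd ab bd ad
  have p2 := hc.pm a c d wa wc wd ac cd ad
  have p3 := hc.pm b c d wb wc wd bc cd bd
  have r1 := hc.rot a c d wa wc wd ac cd ad
  have r2 := hc.rot b c d wb wc wd bc cd bd
  omega

theorem Cyc.tr {a q b p : V} (wa : W a) (wq : W q) (wb : W b) (wp : W p) (aq : a ≠ q)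
    (ab : a ≠ b) (ap : a ≠ p) (qb : q ≠ b) (qp : q ≠ p) (bp : b ≠ p) {t : ℤ}
    (h1 : o a q b = t) (h2 : o a b p = t) : o a q p = t := by
  have k := hc.coc a q b p wa wq wb wp aq ab ap qb qp bp
  have p1 := hc.pm a q b wa wq wb aq qb ab
  have p2 := hc.pm a q p wa wq wp aq qp ap
  have p3 := hc.pm q b p wq wb wp qb bp qp
  omega

/-- the points of one side of a chord are on the same side of a chord with both ends on the other
side -/
theorem Cyc.side {a b p p' q q' : V} (wa : W a) (wb : W b) (wp : W p) (wp' : W p') (wq : W q)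
    (wq' : W q') (ab : a ≠ b) (ap : a ≠ p) (ap' : a ≠ p') (aq : a ≠ q) (aq' : a ≠ q') (bp : b ≠ p)
    (bp' : b ≠ p') (bq : b ≠ q) (bq' : b ≠ q') (pq : p ≠ q) (pq' : p ≠ q')
    (p'q : p' ≠ q) (p'q' : p' ≠ q') (qq' : q ≠ q')
    (h1 : o a b p' = o a b p) (h2 : o a b q = - o a b p) (h3 : o a b q' = - o a b p) :
    o q q' p = o q q' p' := by
  have s1 := hc.swap a q b wa wq wb aq bq.symm ab
  have s2 := hc.swap a q' b wa wq' wb aq' bq'.symm ab
  have t1 := hc.tr wa wq wb wp aq ab ap bq.symm pq.symm bp (t := o a b p) (by omega) rfl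
  have t2 := hc.tr wa wq' wb wp aq' ab ap bq'.symm pq'.symm bp (t := o a b p) (by omega) rfl
  have t3 := hc.tr wa wq wb wp' aq ab ap' bq.symm p'q.symm bp' (t := o a b p) (by omega) h1
  have t4 := hc.tr wa wq' wb wp' aq' ab ap' bq'.symm p'q'.symm bp' (t := o a b p) (by omega) h1
  have k1 := hc.coc a q q' p wa wq wq' wp aq aq' ap qq' pq.symm pq'.symm
  have k2 := hc.coc a q q' p' wa wq wq' wp' aq aq' ap' qq' p'q.symm p'q'.symm
  omega

end

section

variable {V : Type} {G : SimpleGraph V} {k : ℕ} {D : Drawing G} (hD : LocPlanarDrawing k D) {A : V}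

include hD

/-- The gap lemma: the other leaves of a star do not separate the ends of an edge at a leaf. -/
theorem gap (hk : 3 ≤ k) {h y₁ y₂ w w' : V} (ay₁ : G.Adj A y₁) (ay₂ : G.Adj A y₂) (aw : G.Adj A w)
    (aw' : G.Adj A w') (hy₁ : G.Adj h y₁) (hy₂ : G.Adj h y₂) (hw : G.Adj h w) (ww : G.Adj w w')
    (n12 : y₁ ≠ y₂) (n1 : y₁ ≠ w) (n2 : y₂ ≠ w) (n1' : y₁ ≠ w') (n2' : y₂ ≠ w') (hw' : w' ≠ h)
    (hA : A ≠ h) : ori D A y₁ y₂ w = ori D A y₁ y₂ w' := by
  -- an edge at the centre does not cross a spoke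
  have sp : ∀ {y v : V} (_ : G.Adj A y) (_ : G.Adj h y) (_ : G.Adj A v) (_ : v ≠ y) (_ : v ≠ h),
      D.crossings s(h, y) s(A, v) = ∅ := by
    intro y v h1 h2 h3 h4 h5
    have e1 : [h, y] <:+: [h, y, A, v] := ⟨[], [A, v], rfl⟩
    have e2 : [A, v] <:+: [h, y, A, v] := ⟨[h, y], [], rfl⟩
    exact nc_of_list hD (l := [h, y, A, v])
      (by simp [h1.ne', h2.ne, h3.ne, h4.symm, h5.symm, hA.symm])
      (by simp [h1.symm, h2, h3]) (by simpa using hk) e1 e2 (by
        intro h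
        rw [Sym2.eq_iff] at h
        rcases h with ⟨h, -⟩ | ⟨h, -⟩
        · exact hA h.symm
        · exact h5 h.symm)
  -- an edge at the centre does not cross the edge
  have tie : ∀ {y : V} (_ : G.Adj h y) (_ : y ≠ w) (_ : y ≠ w'),
      D.crossings s(h, y) s(w, w') = ∅ := by
    intro y h1 h2 h3
    have e1 : [y, h] <:+: [y, h, w, w'] := ⟨[], [w, w'], rfl⟩
    have e2 : [w, w'] <:+: [y, h, w, w'] := ⟨[y, h], [], rfl⟩
    have := nc_of_list hD (l := [y, h, w, w'])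
      (by simp [h1.ne', h2, h3, hw.ne, hw'.symm, ww.ne])
      (by simp [h1.symm, hw, ww]) (by simpa using hk) e1 e2 (by
        intro h
        rw [Sym2.eq_iff] at h
        rcases h with ⟨h, -⟩ | ⟨h, -⟩
        · exact h2 h
        · exact h3 h)
    rwa [Sym2.eq_swap (a := y)] at this
  have swp : ∀ {y v : V}, D.crossings s(h, y) s(A, v) = ∅ → D.crossings s(y, h) s(A, v) = ∅ := by
    intro y v h1
    rwa [Sym2.eq_swap (a := y)]
  have swt : ∀ {y : V}, D.crossings s(h, y) s(w, w') = ∅ → D.crossings s(y, h) s(w, w') = ∅ := by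
    intro y h1
    rwa [Sym2.eq_swap (a := y)]
  have inf : ∀ z v, [z, v] <:+: [w, w'] → z = w ∧ v = w' := by
    intro z v h
    have := h.sublist.eq_of_length rfl
    simpa using this
  apply wheel_chain D ay₁ ay₂ aw aw' (l := [y₁, h, y₂]) (m := [w, w'])
  · rw [List.isChain_cons_cons, List.isChain_pair]
    refine ⟨⟨hy₁.symm, swp (sp ay₁ hy₁ aw n1.symm hw.ne'), swp (sp ay₁ hy₁ aw' n1'.symm hw'), ?_⟩,
      ⟨hy₂, sp ay₂ hy₂ aw n2.symm hw.ne', sp ay₂ hy₂ aw' n2'.symm hw', ?_⟩⟩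
    · intro z v hzv
      rw [(inf z v hzv).1, (inf z v hzv).2]
      exact swt (tie hy₁ n1 n1')
    · intro z v hzv
      rw [(inf z v hzv).1, (inf z v hzv).2]
      exact tie hy₂ n2 n2'
  · rw [List.isChain_pair]
    exact ⟨ww, nc_tie_spoke hD hk aw aw' ww ay₁ n1 n1', nc_tie_spoke hD hk aw aw' ww ay₂ n2 n2'⟩
  · rfl
  · rfl
  · rfl
  · rfl
  · simp [ay₁.ne, ay₂.ne, hA]
  · simp [aw.ne, aw'.ne]
  · intro x hx
    simp only [List.mem_cons, List.not_mem_nil, or_false, not_or] at hx ⊢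
    rcases hx with rfl | rfl | rfl
    · exact ⟨n1, n1'⟩
    · exact ⟨hw.ne, hw'.symm⟩
    · exact ⟨n2, n2'⟩

end

end Pool.Agent.U20.LP
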