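import Pool.Agent.U20.LP.Comp

/-!
# The graphs for `k ≥ 4`
-/

set_option autoImplicit false

namespace Pool.Agent.U20.LP

open Pool.Agent.H622R2

/-- the element -/
def vE (x : ℕ) : Ga := (0, x, 0)
/-- the first partner -/
def cE (s q : ℕ) : Ga := (1, s, q)
/-- the second partner -/
def bE (s q : ℕ) : Ga := (2, s, q)
/-- the first hub of a triple -/
def zE (s : ℕ) : Ga := (3, s, 0)
/-- the second hub of a triple -/
def wE (s : ℕ) : Ga := (4, s, 0)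
/-- the main hub -/
def uE : Ga := (5, 0, 0)

/-- the four elements of a triple -/
def tq (t : ℕ × ℕ × ℕ) (q : ℕ) : ℕ :=
  if q = 0 then 0 else if q = 1 then t.1 else if q = 2 then t.2.1 else t.2.2

/-- the graph of a list of triples -/
def datA (N : ℕ) (T : List (ℕ × ℕ × ℕ)) (L : ℕ) : Dat where
  cv := ddup ((List.range N).map vE ++ ((List.range T.length).flatMap (fun s =>
    (List.range 4).map (cE s) ++ ((List.range 4).map (bE s) ++ [zE s, wE s])) ++ [uE]))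
  att := (List.range N).map vE ++ (List.range T.length).flatMap (fun s =>
    (List.range 4).map (cE s) ++ (List.range 4).map (bE s))
  ed := T.zipIdx.flatMap (fun p => (List.range 4).map (fun q => (vE (tq p.1 q), cE p.2 q)) ++
    ((List.range 4).map (fun q => (cE p.2 q, bE p.2 q)) ++ [(zE p.2, wE p.2)]))
  lg := ddup ((List.range N).map (fun x => (uE, vE x)) ++ (List.range T.length).flatMap (fun s =>
    [(zE s, bE s 0), (zE s, bE s 1), (zE s, bE s 2), (wE s, bE s 0), (wE s, bE s 2),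
      (wE s, bE s 3)]))
  L := L

/-- the promise on the triples -/
def OKT (N : ℕ) (T : List (ℕ × ℕ × ℕ)) : Prop :=
  ∀ t ∈ T, t.1 < N ∧ t.2.1 < N ∧ t.2.2 < N ∧ 0 < t.1 ∧ 0 < t.2.1 ∧ 0 < t.2.2 ∧ t.1 ≠ t.2.1 ∧
    t.2.1 ≠ t.2.2 ∧ t.1 ≠ t.2.2

variable {N : ℕ} {T : List (ℕ × ℕ × ℕ)} {L : ℕ}

/-- a tie of the triple number `s` -/
def Tie (T : List (ℕ × ℕ × ℕ)) (s : ℕ) (p : Ga × Ga) : Prop :=
  ∃ q < 4, p = (vE (tq (T.getD s (0, 0, 0)) q), cE s q) ∨ p = (cE s q, bE s q)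

/-- a chord of the double star of the triple number `s` -/
def KK (s : ℕ) (p : Ga × Ga) : Prop :=
  p = (zE s, wE s) ∨ (∃ q < 3, p = (zE s, bE s q)) ∨ ∃ q < 4, q ≠ 1 ∧ p = (wE s, bE s q)

/-- a chord of the main star -/
def UU (N : ℕ) (p : Ga × Ga) : Prop := ∃ x < N, p = (uE, vE x)

theorem memA_cv (g : Ga) : g ∈ (datA N T L).cv ↔ (∃ x < N, g = vE x) ∨
    (∃ s < T.length, ∃ q < 4, g = cE s q) ∨ (∃ s < T.length, ∃ q < 4, g = bE s q) ∨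
    (∃ s < T.length, g = zE s) ∨ (∃ s < T.length, g = wE s) ∨ g = uE := by
  unfold datA
  simp only [mem_ddup, List.mem_append, List.mem_map, List.mem_flatMap, List.mem_range,
    List.mem_cons, List.not_mem_nil, or_false]
  constructor
  · rintro (⟨x, hx, rfl⟩ | ⟨s, hs, ⟨q, hq, rfl⟩ | ⟨q, hq, rfl⟩ | rfl | rfl⟩ | rfl)
    · exact Or.inl ⟨x, hx, rfl⟩
    · exact Or.inr (Or.inl ⟨s, hs, q, hq, rfl⟩)
    · exact Or.inr (Or.inr (Or.inl ⟨s, hs, q, hq, rfl⟩))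
    · exact Or.inr (Or.inr (Or.inr (Or.inl ⟨s, hs, rfl⟩)))
    · exact Or.inr (Or.inr (Or.inr (Or.inr (Or.inl ⟨s, hs, rfl⟩))))
    · exact Or.inr (Or.inr (Or.inr (Or.inr (Or.inr rfl))))
  · rintro (⟨x, hx, rfl⟩ | ⟨s, hs, q, hq, rfl⟩ | ⟨s, hs, q, hq, rfl⟩ | ⟨s, hs, rfl⟩ | ⟨s, hs, rfl⟩ |
      rfl)
    · exact Or.inl ⟨x, hx, rfl⟩
    · exact Or.inr (Or.inl ⟨s, hs, Or.inl ⟨q, hq, rfl⟩⟩)
    · exact Or.inr (Or.inl ⟨s, hs, Or.inr (Or.inl ⟨q, hq, rfl⟩)⟩)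
    · exact Or.inr (Or.inl ⟨s, hs, Or.inr (Or.inr (Or.inl rfl))⟩)
    · exact Or.inr (Or.inl ⟨s, hs, Or.inr (Or.inr (Or.inr rfl))⟩)
    · exact Or.inr (Or.inr rfl)

theorem memA_att (g : Ga) : g ∈ (datA N T L).att ↔ (∃ x < N, g = vE x) ∨
    (∃ s < T.length, ∃ q < 4, g = cE s q) ∨ (∃ s < T.length, ∃ q < 4, g = bE s q) := by
  unfold datA
  simp only [List.mem_append, List.mem_map, List.mem_flatMap, List.mem_range]
  constructor
  · rintro (⟨x, hx, rfl⟩ | ⟨s, hs, ⟨q, hq, rfl⟩ | ⟨q, hq, rfl⟩⟩)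
    · exact Or.inl ⟨x, hx, rfl⟩
    · exact Or.inr (Or.inl ⟨s, hs, q, hq, rfl⟩)
    · exact Or.inr (Or.inr ⟨s, hs, q, hq, rfl⟩)
  · rintro (⟨x, hx, rfl⟩ | ⟨s, hs, q, hq, rfl⟩ | ⟨s, hs, q, hq, rfl⟩)
    · exact Or.inl ⟨x, hx, rfl⟩
    · exact Or.inr ⟨s, hs, Or.inl ⟨q, hq, rfl⟩⟩
    · exact Or.inr ⟨s, hs, Or.inr ⟨q, hq, rfl⟩⟩

theorem memA_ed (e : Ga × Ga) : e ∈ (datA N T L).ed ↔ ∃ s < T.length, Tie T s e ∨
    e = (zE s, wE s) := by
  unfold datA Tie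
  simp only [List.mem_append, List.mem_map, List.mem_flatMap, List.mem_range, List.mem_cons,
    List.not_mem_nil, or_false]
  constructor
  · rintro ⟨⟨t, s⟩, ht, h⟩
    rw [List.mem_zipIdx_iff_getElem?] at ht
    simp only at ht h
    have hs : s < T.length := (List.getElem?_eq_some_iff.1 ht).1
    have hg : T.getD s (0, 0, 0) = t := by
      rw [List.getD_eq_getElem?_getD, ht]; rfl
    refine ⟨s, hs, ?_⟩
    rw [hg]
    rcases h with ⟨q, hq, rfl⟩ | ⟨q, hq, rfl⟩ | rfl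
    · exact Or.inl ⟨q, hq, Or.inl rfl⟩
    · exact Or.inl ⟨q, hq, Or.inr rfl⟩
    · exact Or.inr rfl
  · rintro ⟨s, hs, h⟩
    refine ⟨(T.getD s (0, 0, 0), s), ?_, ?_⟩
    · rw [List.mem_zipIdx_iff_getElem?]
      simp [List.getElem?_eq_getElem hs, List.getD_eq_getElem?_getD]
    · rcases h with ⟨q, hq, rfl | rfl⟩ | rfl
      · exact Or.inl ⟨q, hq, rfl⟩
      · exact Or.inr (Or.inl ⟨q, hq, rfl⟩)
      · exact Or.inr (Or.inr rfl)

theorem memA_lg (e : Ga × Ga) : e ∈ (datA N T L).lg ↔ UU N e ∨ ∃ s < T.length,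
    (∃ q < 3, e = (zE s, bE s q)) ∨ ∃ q < 4, q ≠ 1 ∧ e = (wE s, bE s q) := by
  unfold datA UU
  simp only [mem_ddup, List.mem_append, List.mem_map, List.mem_flatMap, List.mem_range,
    List.mem_cons, List.not_mem_nil, or_false]
  constructor
  · rintro (⟨x, hx, rfl⟩ | ⟨s, hs, rfl | rfl | rfl | rfl | rfl | rfl⟩)
    · exact Or.inl ⟨x, hx, rfl⟩
    · exact Or.inr ⟨s, hs, Or.inl ⟨0, by omega, rfl⟩⟩
    · exact Or.inr ⟨s, hs, Or.inl ⟨1, by omega, rfl⟩⟩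
    · exact Or.inr ⟨s, hs, Or.inl ⟨2, by omega, rfl⟩⟩
    · exact Or.inr ⟨s, hs, Or.inr ⟨0, by omega, by omega, rfl⟩⟩
    · exact Or.inr ⟨s, hs, Or.inr ⟨2, by omega, by omega, rfl⟩⟩
    · exact Or.inr ⟨s, hs, Or.inr ⟨3, by omega, by omega, rfl⟩⟩
  · rintro (⟨x, hx, rfl⟩ | ⟨s, hs, ⟨q, hq, rfl⟩ | ⟨q, hq, hq1, rfl⟩⟩)
    · exact Or.inl ⟨x, hx, rfl⟩
    · refine Or.inr ⟨s, hs, ?_⟩
      have : q = 0 ∨ q = 1 ∨ q = 2 := by omega
      rcases this with rfl | rfl | rfl <;> simp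
    · refine Or.inr ⟨s, hs, ?_⟩
      have : q = 0 ∨ q = 2 ∨ q = 3 := by omega
      rcases this with rfl | rfl | rfl <;> simp

theorem memA (e : Ga × Ga) (h : e ∈ (datA N T L).ed ∨ e ∈ (datA N T L).lg) :
    UU N e ∨ ∃ s < T.length, Tie T s e ∨ KK s e := by
  rw [memA_ed, memA_lg] at h
  unfold KK
  rcases h with ⟨s, hs, h | h⟩ | h | ⟨s, hs, h | h⟩
  · exact Or.inr ⟨s, hs, Or.inl h⟩
  · exact Or.inr ⟨s, hs, Or.inr (Or.inl h)⟩
  · exact Or.inl h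
  · exact Or.inr ⟨s, hs, Or.inr (Or.inr (Or.inl h))⟩
  · exact Or.inr ⟨s, hs, Or.inr (Or.inr (Or.inr h))⟩

theorem tq_lt (hN : 0 < N) (hT : OKT N T) {s : ℕ} (hs : s < T.length) (q : ℕ) :
    tq (T.getD s (0, 0, 0)) q < N := by
  have h1 : T.getD s (0, 0, 0) ∈ T := by
    rw [List.getD_eq_getElem?_getD, List.getElem?_eq_getElem hs]
    exact List.getElem_mem hs
  have := hT _ h1
  unfold tq
  split_ifs <;> omega

theorem tq_inj (hT : OKT N T) {s : ℕ} (hs : s < T.length) {q q' : ℕ} (hq : q < 4) (hq' : q' < 4)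
    (h : tq (T.getD s (0, 0, 0)) q = tq (T.getD s (0, 0, 0)) q') : q = q' := by
  have h1 : T.getD s (0, 0, 0) ∈ T := by
    rw [List.getD_eq_getElem?_getD, List.getElem?_eq_getElem hs]
    exact List.getElem_mem hs
  have := hT _ h1
  unfold tq at h
  split_ifs at h <;> omega

theorem wfA (hN : 0 < N) (hT : OKT N T) (hL : 1 ≤ L) : (datA N T L).WF := by
  refine ⟨hL, ddup_nodup _, ddup_nodup _, ?_, ?_, ?_, ?_⟩
  · intro g hg
    rw [memA_att] at hg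
    rw [memA_cv]
    rcases hg with h | h | h
    · exact Or.inl h
    · exact Or.inr (Or.inl h)
    · exact Or.inr (Or.inr (Or.inl h))
  · intro e he
    rw [memA_cv, memA_cv]
    rcases memA e he with ⟨x, hx, rfl⟩ | ⟨s, hs, ⟨q, hq, rfl | rfl⟩ | rfl | ⟨q, hq, rfl⟩ |
      ⟨q, hq, hq1, rfl⟩⟩
    · exact ⟨by simp [uE, vE, cE, bE, zE, wE], Or.inl ⟨x, hx, rfl⟩, by simp [uE, vE]⟩
    · exact ⟨Or.inl ⟨_, tq_lt hN hT hs q, rfl⟩, Or.inr (Or.inl ⟨s, hs, q, hq, rfl⟩),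
        by simp [cE, vE]⟩
    · exact ⟨Or.inr (Or.inl ⟨s, hs, q, hq, rfl⟩), Or.inr (Or.inr (Or.inl ⟨s, hs, q, hq, rfl⟩)),
        by simp [cE, bE]⟩
    · exact ⟨Or.inr (Or.inr (Or.inr (Or.inl ⟨s, hs, rfl⟩))),
        Or.inr (Or.inr (Or.inr (Or.inr (Or.inl ⟨s, hs, rfl⟩)))), by simp [zE, wE]⟩
    · exact ⟨Or.inr (Or.inr (Or.inr (Or.inl ⟨s, hs, rfl⟩))),
        Or.inr (Or.inr (Or.inl ⟨s, hs, q, by omega, rfl⟩)), by simp [zE, bE]⟩
    · exact ⟨Or.inr (Or.inr (Or.inr (Or.inr (Or.inl ⟨s, hs, rfl⟩)))),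
        Or.inr (Or.inr (Or.inl ⟨s, hs, q, hq, rfl⟩)), by simp [wE, bE]⟩
  · intro e he he'
    rw [memA_ed] at he
    rw [memA_lg] at he'
    rcases he with ⟨s, hs, ⟨q, hq, rfl | rfl⟩ | rfl⟩ <;>
      rcases he' with ⟨x, hx, h⟩ | ⟨s', hs', ⟨q', hq', h⟩ | ⟨q', hq', hq1', h⟩⟩ <;>
      simp [uE, vE, cE, bE, zE, wE] at h
  · intro e he he'
    rcases memA e he with ⟨x, hx, rfl⟩ | ⟨s, hs, ⟨q, hq, rfl | rfl⟩ | rfl | ⟨q, hq, rfl⟩ |
      ⟨q, hq, hq1, rfl⟩⟩ <;>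
      rcases memA _ he' with ⟨x', hx', h⟩ | ⟨s', hs', ⟨q', hq', h | h⟩ | h | ⟨q', hq', h⟩ |
        ⟨q', hq', hq1', h⟩⟩ <;> simp [uE, vE, cE, bE, zE, wE] at h

/-- the levels around the double star number `s` -/
def psiK (L s : ℕ) (g : Ga) : ℕ :=
  if g.1 = 0 then L + 2 else if g.1 = 1 then (if g.2.1 = s then L + 1 else L + 2) else
    if g.1 = 2 then (if g.2.1 = s then L else L + 2) else
      if g.1 = 5 then L + 3 else (if g.2.1 = s then 0 else L + 3)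

theorem psiK_v (s x : ℕ) : psiK L s (vE x) = L + 2 := by simp [psiK, vE]
theorem psiK_c (s s' q : ℕ) : psiK L s (cE s' q) = if s' = s then L + 1 else L + 2 := by
  split_ifs with h <;> simp [psiK, cE, h]
theorem psiK_b (s s' q : ℕ) : psiK L s (bE s' q) = if s' = s then L else L + 2 := by
  split_ifs with h <;> simp [psiK, bE, h]
theorem psiK_z (s s' : ℕ) : psiK L s (zE s') = if s' = s then 0 else L + 3 := by
  split_ifs with h <;> simp [psiK, zE, h]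
theorem psiK_w (s s' : ℕ) : psiK L s (wE s') = if s' = s then 0 else L + 3 := by
  split_ifs with h <;> simp [psiK, wE, h]
theorem psiK_u (s : ℕ) : psiK L s uE = L + 3 := by simp [psiK, uE]

theorem psiK_lev (s : ℕ) : (datA N T L).Lev (psiK L s) := by
  have hL : (datA N T L).L = L := rfl
  refine ⟨?_, ?_, ?_, ?_⟩
  · intro g _
    rw [hL]
    unfold psiK
    split_ifs <;> omega
  · intro g hg
    rw [hL]
    rw [memA_att] at hg
    rcases hg with ⟨x, hx, rfl⟩ | ⟨s', hs, q, hq, rfl⟩ | ⟨s', hs, q, hq, rfl⟩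
    · rw [psiK_v]; omega
    · rw [psiK_c]; split_ifs <;> omega
    · rw [psiK_b]; split_ifs <;> omega
  · intro e he
    rw [memA_ed] at he
    rcases he with ⟨s', hs, ⟨q, hq, rfl | rfl⟩ | rfl⟩
    · rw [psiK_v, psiK_c]; split_ifs <;> omega
    · rw [psiK_c, psiK_b]; split_ifs <;> omega
    · rw [psiK_z, psiK_w]; split_ifs <;> omega
  · intro e he
    rw [hL]
    rw [memA_lg] at he
    rcases he with ⟨x, hx, rfl⟩ | ⟨s', hs, ⟨q, hq, rfl⟩ | ⟨q, hq, hq1, rfl⟩⟩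
    · rw [psiK_u, psiK_v]; omega
    · rw [psiK_z, psiK_b]; split_ifs <;> omega
    · rw [psiK_w, psiK_b]; split_ifs <;> omega

end Pool.Agent.U20.LP
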