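import Pool.Agent.U20.LP.Cyc3

/-!
# Stars and fans for `k = 3`: the combinatorial part
-/

set_option autoImplicit false

namespace Pool.Agent.U20.LP

variable {V : Type} {W : V → Prop} {o : V → V → V → ℤ} (hc : Cyc W o) (Lf : V → Prop)
  (E : V → V → Prop)
  (hgap : ∀ y₁ y₂ w w', Lf y₁ → Lf y₂ → Lf w → W w' → E w w' → y₁ ≠ y₂ → y₁ ≠ w → y₂ ≠ w →
    y₁ ≠ w' → y₂ ≠ w' → o y₁ y₂ w = o y₁ y₂ w')
  (P : ℕ → V) (hW : ∀ i, i < 12 → W (P i)) (hne : ∀ i j, i < 12 → j < 12 → i ≠ j → P i ≠ P j)

include hc hgap hW hne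

/-- the fan: `b_q = P q`, `d_q = P (4 + q)`, `c_q = P (8 + q)` -/
theorem fan_cyc (hL : ∀ i, i < 8 → Lf (P i)) (r1 : ∀ q, q < 3 → E (P q) (P (4 + q)))
    (r2 : ∀ q, q < 3 → E (P (4 + q)) (P (q + 1))) (r3 : ∀ q, q < 4 → E (P q) (P (8 + q))) :
    o (P 8) (P 9) (P 10) = o (P 8) (P 10) (P 11) := by
  have G : ∀ i j a b, i < 8 → j < 8 → a < 8 → b < 12 → E (P a) (P b) → i ≠ j → i ≠ a → j ≠ a →
      i ≠ b → j ≠ b → o (P i) (P j) (P a) = o (P i) (P j) (P b) := by
    intro i j a b hi hj ha hb hE n1 n2 n3 n4 n5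
    exact hgap _ _ _ _ (hL i hi) (hL j hj) (hL a ha) (hW b hb) hE
      (hne _ _ (by omega) (by omega) n1) (hne _ _ (by omega) (by omega) n2)
      (hne _ _ (by omega) (by omega) n3) (hne _ _ (by omega) (by omega) n4)
      (hne _ _ (by omega) (by omega) n5)
  have al : ∀ a v b y, a < 12 → v < 12 → b < 12 → y < 12 → a ≠ v → a ≠ b → a ≠ y → v ≠ b →
      v ≠ y → b ≠ y → o (P y) (P b) (P a) = o (P y) (P b) (P v) →
      o (P y) (P a) (P v) = o (P y) (P a) (P b) → o (P v) (P y) (P a) = - o (P v) (P y) (P b) := by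
    intro a v b y ha hv hb hy n1 n2 n3 n4 n5 n6 h1 h2
    have h3 := hc.alt3 (hW a ha) (hW v hv) (hW b hb) (hW y hy) (hne _ _ ha hv n1)
      (hne _ _ ha hb n2) (hne _ _ ha hy n3) (hne _ _ hv hb n4) (hne _ _ hv hy n5)
      (hne _ _ hb hy n6) h1 h2
    exact hc.alt_symm (hW a ha) (hW b hb) (hW v hv) (hW y hy) (hne _ _ ha hb n2)
      (hne _ _ ha hv n1) (hne _ _ ha hy n3) (hne _ _ hb hv n4.symm) (hne _ _ hb hy n6)
      (hne _ _ hv hy n5) h3
  -- the chord of `d₁` and `d₃`
  have i1 := G 5 7 0 4 (by omega) (by omega) (by omega) (by omega) (r1 0 (by omega)) (by omega)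
    (by omega) (by omega) (by omega) (by omega)
  have i2 := G 5 7 4 1 (by omega) (by omega) (by omega) (by omega) (r2 0 (by omega)) (by omega)
    (by omega) (by omega) (by omega) (by omega)
  have i3 := G 5 7 2 6 (by omega) (by omega) (by omega) (by omega) (r1 2 (by omega)) (by omega)
    (by omega) (by omega) (by omega) (by omega)
  have i4 := G 5 7 6 3 (by omega) (by omega) (by omega) (by omega) (r2 2 (by omega)) (by omega)
    (by omega) (by omega) (by omega) (by omega)
  have i5 := G 5 7 0 8 (by omega) (by omega) (by omega) (by omega) (r3 0 (by omega)) (by omega)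
    (by omega) (by omega) (by omega) (by omega)
  have i6 := G 5 7 1 9 (by omega) (by omega) (by omega) (by omega) (r3 1 (by omega)) (by omega)
    (by omega) (by omega) (by omega) (by omega)
  have i7 := G 5 7 2 10 (by omega) (by omega) (by omega) (by omega) (r3 2 (by omega)) (by omega)
    (by omega) (by omega) (by omega) (by omega)
  have i8 := G 5 7 3 11 (by omega) (by omega) (by omega) (by omega) (r3 3 (by omega)) (by omega)
    (by omega) (by omega) (by omega) (by omega)
  have i9 := al 1 5 2 7 (by omega) (by omega) (by omega) (by omega) (by omega) (by omega)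
    (by omega) (by omega) (by omega) (by omega)
    (G 7 2 1 5 (by omega) (by omega) (by omega) (by omega) (r1 1 (by omega)) (by omega)
      (by omega) (by omega) (by omega) (by omega))
    (G 7 1 5 2 (by omega) (by omega) (by omega) (by omega) (r2 1 (by omega)) (by omega)
      (by omega) (by omega) (by omega) (by omega))
  -- the chord of `d₀` and `d₂`
  have j1 := G 4 6 1 5 (by omega) (by omega) (by omega) (by omega) (r1 1 (by omega)) (by omega)
    (by omega) (by omega) (by omega) (by omega)
  have j2 := G 4 6 5 2 (by omega) (by omega) (by omega) (by omega) (r2 1 (by omega)) (by omega)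
    (by omega) (by omega) (by omega) (by omega)
  have j5 := G 4 6 0 8 (by omega) (by omega) (by omega) (by omega) (r3 0 (by omega)) (by omega)
    (by omega) (by omega) (by omega) (by omega)
  have j6 := G 4 6 1 9 (by omega) (by omega) (by omega) (by omega) (r3 1 (by omega)) (by omega)
    (by omega) (by omega) (by omega) (by omega)
  have j7 := G 4 6 2 10 (by omega) (by omega) (by omega) (by omega) (r3 2 (by omega)) (by omega)
    (by omega) (by omega) (by omega) (by omega)
  have j8 := G 4 6 3 11 (by omega) (by omega) (by omega) (by omega) (r3 3 (by omega)) (by omega)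
    (by omega) (by omega) (by omega) (by omega)
  have j9 := al 0 4 1 6 (by omega) (by omega) (by omega) (by omega) (by omega) (by omega)
    (by omega) (by omega) (by omega) (by omega)
    (G 6 1 0 4 (by omega) (by omega) (by omega) (by omega) (r1 0 (by omega)) (by omega)
      (by omega) (by omega) (by omega) (by omega))
    (G 6 0 4 1 (by omega) (by omega) (by omega) (by omega) (r2 0 (by omega)) (by omega)
      (by omega) (by omega) (by omega) (by omega))
  have j10 := al 2 6 3 4 (by omega) (by omega) (by omega) (by omega) (by omega) (by omega)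
    (by omega) (by omega) (by omega) (by omega)
    (G 4 3 2 6 (by omega) (by omega) (by omega) (by omega) (r1 2 (by omega)) (by omega)
      (by omega) (by omega) (by omega) (by omega))
    (G 4 2 6 3 (by omega) (by omega) (by omega) (by omega) (r2 2 (by omega)) (by omega)
      (by omega) (by omega) (by omega) (by omega))
  have sw : ∀ a b c, a < 12 → b < 12 → c < 12 → a ≠ b → b ≠ c → a ≠ c →
      o (P a) (P c) (P b) = - o (P a) (P b) (P c) := fun a b c ha hb hc' h1 h2 h3 =>
    hc.swap _ _ _ (hW a ha) (hW b hb) (hW c hc') (hne _ _ ha hb h1) (hne _ _ hb hc' h2)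
      (hne _ _ ha hc' h3)
  have ro : ∀ a b c, a < 12 → b < 12 → c < 12 → a ≠ b → b ≠ c → a ≠ c →
      o (P b) (P c) (P a) = o (P a) (P b) (P c) := fun a b c ha hb hc' h1 h2 h3 =>
    hc.rot _ _ _ (hW a ha) (hW b hb) (hW c hc') (hne _ _ ha hb h1) (hne _ _ hb hc' h2)
      (hne _ _ ha hc' h3)
  have k1 := ro 2 6 4 (by omega) (by omega) (by omega) (by omega) (by omega) (by omega)
  have k2 := sw 2 4 6 (by omega) (by omega) (by omega) (by omega) (by omega) (by omega)
  have k3 := ro 2 4 6 (by omega) (by omega) (by omega) (by omega) (by omega) (by omega)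
  have k4 := ro 3 6 4 (by omega) (by omega) (by omega) (by omega) (by omega) (by omega)
  have k5 := sw 3 4 6 (by omega) (by omega) (by omega) (by omega) (by omega) (by omega)
  have k6 := ro 3 4 6 (by omega) (by omega) (by omega) (by omega) (by omega) (by omega)
  have sd : ∀ a b p p' q q', a < 12 → b < 12 → p < 12 → p' < 12 → q < 12 → q' < 12 →
      a ≠ b → a ≠ p → a ≠ p' → a ≠ q → a ≠ q' → b ≠ p → b ≠ p' → b ≠ q → b ≠ q' → p ≠ q →
      p ≠ q' → p' ≠ q → p' ≠ q' → q ≠ q' → o (P a) (P b) (P p') = o (P a) (P b) (P p) →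
      o (P a) (P b) (P q) = - o (P a) (P b) (P p) → o (P a) (P b) (P q') = - o (P a) (P b) (P p) →
      o (P q) (P q') (P p) = o (P q) (P q') (P p') := by
    intro a b p p' q q' ha hb hp hp' hq hq' n1 n2 n3 n4 n5 n6 n7 n8 n9 n10 n11 n12 n13 n14 h1 h2 h3
    exact hc.side (hW a ha) (hW b hb) (hW p hp) (hW p' hp') (hW q hq) (hW q' hq')
      (hne _ _ ha hb n1) (hne _ _ ha hp n2) (hne _ _ ha hp' n3) (hne _ _ ha hq n4)
      (hne _ _ ha hq' n5) (hne _ _ hb hp n6) (hne _ _ hb hp' n7) (hne _ _ hb hq n8)
      (hne _ _ hb hq' n9) (hne _ _ hp hq n10) (hne _ _ hp hq' n11) (hne _ _ hp' hq n12)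
      (hne _ _ hp' hq' n13) (hne _ _ hq hq' n14) h1 h2 h3
  have l1 := sd 5 7 8 9 10 11 (by omega) (by omega) (by omega) (by omega) (by omega) (by omega)
    (by omega) (by omega) (by omega) (by omega) (by omega) (by omega) (by omega) (by omega)
    (by omega) (by omega) (by omega) (by omega) (by omega) (by omega) (by omega) (by omega)
    (by omega)
  have l2 := sd 4 6 9 10 8 11 (by omega) (by omega) (by omega) (by omega) (by omega) (by omega)
    (by omega) (by omega) (by omega) (by omega) (by omega) (by omega) (by omega) (by omega)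
    (by omega) (by omega) (by omega) (by omega) (by omega) (by omega) (by omega) (by omega)
    (by omega)
  have kk := hc.coc (P 8) (P 9) (P 10) (P 11) (hW _ (by omega)) (hW _ (by omega))
    (hW _ (by omega)) (hW _ (by omega)) (hne _ _ (by omega) (by omega) (by omega))
    (hne _ _ (by omega) (by omega) (by omega)) (hne _ _ (by omega) (by omega) (by omega))
    (hne _ _ (by omega) (by omega) (by omega)) (hne _ _ (by omega) (by omega) (by omega))
    (hne _ _ (by omega) (by omega) (by omega))
  have m1 := ro 8 10 11 (by omega) (by omega) (by omega) (by omega) (by omega) (by omega)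
  have m2 := ro 9 10 11 (by omega) (by omega) (by omega) (by omega) (by omega) (by omega)
  have m3 := sw 8 9 11 (by omega) (by omega) (by omega) (by omega) (by omega) (by omega)
  have m4 := sw 8 10 11 (by omega) (by omega) (by omega) (by omega) (by omega) (by omega)
  omega

/-- the star: `e_i = P i`, `v_i = P (3 + i)`, `e'_i = P (6 + i)`, `c_i = P (9 + i)` -/
theorem star_cyc (hL : ∀ i, i < 9 → Lf (P i)) (r1 : ∀ i, i < 3 → E (P i) (P (3 + i)))
    (r2 : ∀ i, i < 3 → E (P (3 + i)) (P (6 + i))) (r3 : ∀ i, i < 3 → E (P (3 + i)) (P (9 + i))) :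
    o (P 3) (P 4) (P 5) = o (P 9) (P 10) (P 11) := by
  have G : ∀ i j a b, i < 9 → j < 9 → a < 9 → b < 12 → E (P a) (P b) → i ≠ j → i ≠ a → j ≠ a →
      i ≠ b → j ≠ b → o (P i) (P j) (P a) = o (P i) (P j) (P b) := by
    intro i j a b hi hj ha hb hE n1 n2 n3 n4 n5
    exact hgap _ _ _ _ (hL i hi) (hL j hj) (hL a ha) (hW b hb) hE
      (hne _ _ (by omega) (by omega) n1) (hne _ _ (by omega) (by omega) n2)
      (hne _ _ (by omega) (by omega) n3) (hne _ _ (by omega) (by omega) n4)
      (hne _ _ (by omega) (by omega) n5)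
  -- the chord of the element `i` separates it from the others
  have sep : ∀ i j, i < 3 → j < 3 → i ≠ j →
      o (P i) (P (6 + i)) (P (3 + i)) = - o (P i) (P (6 + i)) (P (3 + j)) := by
    intro i j hi hj hij
    have h1 := G (3 + j) (6 + i) i (3 + i) (by omega) (by omega) (by omega) (by omega) (r1 i hi)
      (by omega) (by omega) (by omega) (by omega) (by omega)
    have h2 := G (3 + j) i (3 + i) (6 + i) (by omega) (by omega) (by omega) (by omega) (r2 i hi)
      (by omega) (by omega) (by omega) (by omega) (by omega)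
    exact hc.alt3 (hW _ (by omega)) (hW _ (by omega)) (hW _ (by omega)) (hW _ (by omega))
      (hne _ _ (by omega) (by omega) (by omega)) (hne _ _ (by omega) (by omega) (by omega))
      (hne _ _ (by omega) (by omega) (by omega)) (hne _ _ (by omega) (by omega) (by omega))
      (hne _ _ (by omega) (by omega) (by omega)) (hne _ _ (by omega) (by omega) (by omega)) h1 h2
  have tie : ∀ i j, i < 3 → j < 3 →
      o (P i) (P (6 + i)) (P (3 + j)) = o (P i) (P (6 + i)) (P (9 + j)) := by
    intro i j hi hj
    exact G i (6 + i) (3 + j) (9 + j) (by omega) (by omega) (by omega) (by omega) (r3 j hj)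
      (by omega) (by omega) (by omega) (by omega) (by omega)
  have sd : ∀ a b p p' q q', a < 12 → b < 12 → p < 12 → p' < 12 → q < 12 → q' < 12 →
      a ≠ b → a ≠ p → a ≠ p' → a ≠ q → a ≠ q' → b ≠ p → b ≠ p' → b ≠ q → b ≠ q' → p ≠ q →
      p ≠ q' → p' ≠ q → p' ≠ q' → q ≠ q' → o (P a) (P b) (P p') = o (P a) (P b) (P p) →
      o (P a) (P b) (P q) = - o (P a) (P b) (P p) → o (P a) (P b) (P q') = - o (P a) (P b) (P p) →
      o (P q) (P q') (P p) = o (P q) (P q') (P p') := by
    intro a b p p' q q' ha hb hp hp' hq hq' n1 n2 n3 n4 n5 n6 n7 n8 n9 n10 n11 n12 n13 n14 h1 h2 h3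
    exact hc.side (hW a ha) (hW b hb) (hW p hp) (hW p' hp') (hW q hq) (hW q' hq')
      (hne _ _ ha hb n1) (hne _ _ ha hp n2) (hne _ _ ha hp' n3) (hne _ _ ha hq n4)
      (hne _ _ ha hq' n5) (hne _ _ hb hp n6) (hne _ _ hb hp' n7) (hne _ _ hb hq n8)
      (hne _ _ hb hq' n9) (hne _ _ hp hq n10) (hne _ _ hp hq' n11) (hne _ _ hp' hq n12)
      (hne _ _ hp' hq' n13) (hne _ _ hq hq' n14) h1 h2 h3
  have a1 := sep 1 2 (by omega) (by omega) (by omega)
  have a2 := sep 1 0 (by omega) (by omega) (by omega)
  have a3 := sep 0 1 (by omega) (by omega) (by omega)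
  have a4 := sep 0 2 (by omega) (by omega) (by omega)
  have t1 := tie 1 1 (by omega) (by omega)
  have t2 := tie 1 2 (by omega) (by omega)
  have t3 := tie 0 0 (by omega) (by omega)
  have t4 := tie 0 1 (by omega) (by omega)
  have t5 := tie 0 2 (by omega) (by omega)
  have s1 := G 3 4 5 11 (by omega) (by omega) (by omega) (by omega) (r3 2 (by omega)) (by omega)
    (by omega) (by omega) (by omega) (by omega)
  have s2 := sd 1 7 4 10 11 3 (by omega) (by omega) (by omega) (by omega) (by omega) (by omega)
    (by omega) (by omega) (by omega) (by omega) (by omega) (by omega) (by omega) (by omega)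
    (by omega) (by omega) (by omega) (by omega) (by omega) (by omega)
    (by norm_num at *; omega) (by norm_num at *; omega) (by norm_num at *; omega)
  have s3 := sd 0 6 3 9 10 11 (by omega) (by omega) (by omega) (by omega) (by omega) (by omega)
    (by omega) (by omega) (by omega) (by omega) (by omega) (by omega) (by omega) (by omega)
    (by omega) (by omega) (by omega) (by omega) (by omega) (by omega)
    (by norm_num at *; omega) (by norm_num at *; omega) (by norm_num at *; omega)
  have ro : ∀ a b c, a < 12 → b < 12 → c < 12 → a ≠ b → b ≠ c → a ≠ c →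
      o (P b) (P c) (P a) = o (P a) (P b) (P c) := fun a b c ha hb hc' h1 h2 h3 =>
    hc.rot _ _ _ (hW a ha) (hW b hb) (hW c hc') (hne _ _ ha hb h1) (hne _ _ hb hc' h2)
      (hne _ _ ha hc' h3)
  have r1 := ro 11 3 4 (by omega) (by omega) (by omega) (by omega) (by omega) (by omega)
  have r2 := ro 11 3 10 (by omega) (by omega) (by omega) (by omega) (by omega) (by omega)
  have r3 := ro 3 10 11 (by omega) (by omega) (by omega) (by omega) (by omega) (by omega)
  have r4 := ro 9 10 11 (by omega) (by omega) (by omega) (by omega) (by omega) (by omega)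
  omega

end Pool.Agent.U20.LP
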