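import Pool.Agent.U20.LP.SoundFA
import Pool.Agent.U20.LP.Fan3

/-!
# The graphs for `k = 3`
-/

set_option autoImplicit false

namespace Pool.Agent.U20.LP

open Pool.Agent.H622R2 Pool.Agent.TH510.Sefe Dat

/-- the neighbours of an element -/
def eE (x i : ℕ) : Ga := (6, x, i)
/-- the dummies of a fan -/
def dE (s j : ℕ) : Ga := (7, s, j)

/-- the graph of a list of triples -/
def datB (N : ℕ) (T : List (ℕ × ℕ × ℕ)) : Dat where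
  cv := ddup ((List.range N).flatMap (fun x => [eE x 0, vE x, eE x 1]) ++
    ((List.range T.length).flatMap (fun s =>
    (List.range 4).flatMap (fun q => [cE s q, bE s q, dE s q]) ++ [zE s]) ++ [uE]))
  att := (List.range N).flatMap (fun x => [eE x 0, vE x, eE x 1]) ++
    (List.range T.length).flatMap (fun s =>
    (List.range 4).flatMap (fun q => [cE s q, bE s q, dE s q]))
  ed := (List.range N).flatMap (fun x => [(uE, eE x 0), (uE, vE x), (uE, eE x 1),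
      (eE x 0, vE x), (vE x, eE x 1)]) ++
    T.zipIdx.flatMap (fun p => (List.range 4).flatMap (fun q => [(vE (tq p.1 q), cE p.2 q),
      (cE p.2 q, bE p.2 q), (zE p.2, bE p.2 q), (zE p.2, dE p.2 q)]) ++
      (List.range 3).flatMap (fun q => [(bE p.2 q, dE p.2 q), (dE p.2 q, bE p.2 (q + 1))]))
  lg := []
  L := 1

variable {N : ℕ} {T : List (ℕ × ℕ × ℕ)}

/-- a chord of the star of the elements -/
def T1 (N : ℕ) (p : Ga × Ga) : Prop :=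
  ∃ x < N, p = (uE, eE x 0) ∨ p = (uE, vE x) ∨ p = (uE, eE x 1)

/-- a chord at an element -/
def T2 (N : ℕ) (p : Ga × Ga) : Prop := ∃ x < N, p = (eE x 0, vE x) ∨ p = (vE x, eE x 1)

/-- a tie at an element -/
def T3 (T : List (ℕ × ℕ × ℕ)) (s : ℕ) (p : Ga × Ga) : Prop :=
  ∃ q < 4, p = (vE (tq (T.getD s (0, 0, 0)) q), cE s q)

/-- a tie at a fan -/
def T4 (s : ℕ) (p : Ga × Ga) : Prop := ∃ q < 4, p = (cE s q, bE s q)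

/-- a chord of a fan -/
def T5 (s : ℕ) (p : Ga × Ga) : Prop :=
  (∃ q < 4, p = (zE s, bE s q)) ∨ (∃ q < 4, p = (zE s, dE s q)) ∨
    (∃ q < 3, p = (bE s q, dE s q)) ∨ (∃ q < 3, p = (dE s q, bE s (q + 1)))

theorem memB_cv (g : Ga) : g ∈ (datB N T).cv ↔ (∃ x < N, g = eE x 0) ∨ (∃ x < N, g = vE x) ∨
    (∃ x < N, g = eE x 1) ∨ (∃ s < T.length, ∃ q < 4, g = cE s q) ∨
    (∃ s < T.length, ∃ q < 4, g = bE s q) ∨ (∃ s < T.length, ∃ q < 4, g = dE s q) ∨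
    (∃ s < T.length, g = zE s) ∨ g = uE := by
  unfold datB
  simp only [mem_ddup, List.mem_append, List.mem_flatMap, List.mem_range,
    List.mem_cons, List.not_mem_nil, or_false]
  constructor
  · rintro (⟨x, hx, rfl | rfl | rfl⟩ | ⟨s, hs, ⟨q, hq, rfl | rfl | rfl⟩ | rfl⟩ | rfl)
    · exact Or.inl ⟨x, hx, rfl⟩
    · exact Or.inr (Or.inl ⟨x, hx, rfl⟩)
    · exact Or.inr (Or.inr (Or.inl ⟨x, hx, rfl⟩))
    · exact Or.inr (Or.inr (Or.inr (Or.inl ⟨s, hs, q, hq, rfl⟩)))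
    · exact Or.inr (Or.inr (Or.inr (Or.inr (Or.inl ⟨s, hs, q, hq, rfl⟩))))
    · exact Or.inr (Or.inr (Or.inr (Or.inr (Or.inr (Or.inl ⟨s, hs, q, hq, rfl⟩)))))
    · exact Or.inr (Or.inr (Or.inr (Or.inr (Or.inr (Or.inr (Or.inl ⟨s, hs, rfl⟩))))))
    · exact Or.inr (Or.inr (Or.inr (Or.inr (Or.inr (Or.inr (Or.inr rfl))))))
  · rintro (⟨x, hx, rfl⟩ | ⟨x, hx, rfl⟩ | ⟨x, hx, rfl⟩ | ⟨s, hs, q, hq, rfl⟩ | ⟨s, hs, q, hq, rfl⟩ |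
      ⟨s, hs, q, hq, rfl⟩ | ⟨s, hs, rfl⟩ | rfl)
    · exact Or.inl ⟨x, hx, Or.inl rfl⟩
    · exact Or.inl ⟨x, hx, Or.inr (Or.inl rfl)⟩
    · exact Or.inl ⟨x, hx, Or.inr (Or.inr rfl)⟩
    · exact Or.inr (Or.inl ⟨s, hs, Or.inl ⟨q, hq, Or.inl rfl⟩⟩)
    · exact Or.inr (Or.inl ⟨s, hs, Or.inl ⟨q, hq, Or.inr (Or.inl rfl)⟩⟩)
    · exact Or.inr (Or.inl ⟨s, hs, Or.inl ⟨q, hq, Or.inr (Or.inr rfl)⟩⟩)
    · exact Or.inr (Or.inl ⟨s, hs, Or.inr rfl⟩)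
    · exact Or.inr (Or.inr rfl)

theorem memB_att (g : Ga) : g ∈ (datB N T).att ↔ (∃ x < N, g = eE x 0) ∨ (∃ x < N, g = vE x) ∨
    (∃ x < N, g = eE x 1) ∨ (∃ s < T.length, ∃ q < 4, g = cE s q) ∨
    (∃ s < T.length, ∃ q < 4, g = bE s q) ∨ (∃ s < T.length, ∃ q < 4, g = dE s q) := by
  unfold datB
  simp only [List.mem_append, List.mem_flatMap, List.mem_range,
    List.mem_cons, List.not_mem_nil, or_false]
  constructor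
  · rintro (⟨x, hx, rfl | rfl | rfl⟩ | ⟨s, hs, ⟨q, hq, rfl | rfl | rfl⟩⟩)
    · exact Or.inl ⟨x, hx, rfl⟩
    · exact Or.inr (Or.inl ⟨x, hx, rfl⟩)
    · exact Or.inr (Or.inr (Or.inl ⟨x, hx, rfl⟩))
    · exact Or.inr (Or.inr (Or.inr (Or.inl ⟨s, hs, q, hq, rfl⟩)))
    · exact Or.inr (Or.inr (Or.inr (Or.inr (Or.inl ⟨s, hs, q, hq, rfl⟩))))
    · exact Or.inr (Or.inr (Or.inr (Or.inr (Or.inr ⟨s, hs, q, hq, rfl⟩))))
  · rintro (⟨x, hx, rfl⟩ | ⟨x, hx, rfl⟩ | ⟨x, hx, rfl⟩ | ⟨s, hs, q, hq, rfl⟩ | ⟨s, hs, q, hq, rfl⟩ |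
      ⟨s, hs, q, hq, rfl⟩)
    · exact Or.inl ⟨x, hx, Or.inl rfl⟩
    · exact Or.inl ⟨x, hx, Or.inr (Or.inl rfl)⟩
    · exact Or.inl ⟨x, hx, Or.inr (Or.inr rfl)⟩
    · exact Or.inr ⟨s, hs, ⟨q, hq, Or.inl rfl⟩⟩
    · exact Or.inr ⟨s, hs, ⟨q, hq, Or.inr (Or.inl rfl)⟩⟩
    · exact Or.inr ⟨s, hs, ⟨q, hq, Or.inr (Or.inr rfl)⟩⟩

theorem memB_ed (e : Ga × Ga) : e ∈ (datB N T).ed ↔ T1 N e ∨ T2 N e ∨
    ∃ s < T.length, T3 T s e ∨ T4 s e ∨ T5 s e := by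
  unfold datB T1 T2 T3 T4 T5
  simp only [List.mem_append, List.mem_flatMap, List.mem_range, List.mem_cons,
    List.not_mem_nil, or_false]
  constructor
  · rintro (⟨x, hx, rfl | rfl | rfl | rfl | rfl⟩ | ⟨⟨t, s⟩, ht, h⟩)
    · exact Or.inl ⟨x, hx, Or.inl rfl⟩
    · exact Or.inl ⟨x, hx, Or.inr (Or.inl rfl)⟩
    · exact Or.inl ⟨x, hx, Or.inr (Or.inr rfl)⟩
    · exact Or.inr (Or.inl ⟨x, hx, Or.inl rfl⟩)
    · exact Or.inr (Or.inl ⟨x, hx, Or.inr rfl⟩)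
    · rw [List.mem_zipIdx_iff_getElem?] at ht
      simp only at ht h
      have hs : s < T.length := (List.getElem?_eq_some_iff.1 ht).1
      have hg : T.getD s (0, 0, 0) = t := by
        rw [List.getD_eq_getElem?_getD, ht]; rfl
      refine Or.inr (Or.inr ⟨s, hs, ?_⟩)
      rw [hg]
      rcases h with ⟨q, hq, rfl | rfl | rfl | rfl⟩ | ⟨q, hq, rfl | rfl⟩
      · exact Or.inl ⟨q, hq, rfl⟩
      · exact Or.inr (Or.inl ⟨q, hq, rfl⟩)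
      · exact Or.inr (Or.inr (Or.inl ⟨q, hq, rfl⟩))
      · exact Or.inr (Or.inr (Or.inr (Or.inl ⟨q, hq, rfl⟩)))
      · exact Or.inr (Or.inr (Or.inr (Or.inr (Or.inl ⟨q, hq, rfl⟩))))
      · exact Or.inr (Or.inr (Or.inr (Or.inr (Or.inr ⟨q, hq, rfl⟩))))
  · rintro (⟨x, hx, rfl | rfl | rfl⟩ | ⟨x, hx, rfl | rfl⟩ | ⟨s, hs, h⟩)
    · exact Or.inl ⟨x, hx, Or.inl rfl⟩
    · exact Or.inl ⟨x, hx, Or.inr (Or.inl rfl)⟩
    · exact Or.inl ⟨x, hx, Or.inr (Or.inr (Or.inl rfl))⟩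
    · exact Or.inl ⟨x, hx, Or.inr (Or.inr (Or.inr (Or.inl rfl)))⟩
    · exact Or.inl ⟨x, hx, Or.inr (Or.inr (Or.inr (Or.inr rfl)))⟩
    · refine Or.inr ⟨(T.getD s (0, 0, 0), s), ?_, ?_⟩
      · rw [List.mem_zipIdx_iff_getElem?]
        simp [List.getElem?_eq_getElem hs, List.getD_eq_getElem?_getD]
      · rcases h with ⟨q, hq, rfl⟩ | ⟨q, hq, rfl⟩ | ⟨q, hq, rfl⟩ | ⟨q, hq, rfl⟩ | ⟨q, hq, rfl⟩ |
          ⟨q, hq, rfl⟩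
        · exact Or.inl ⟨q, hq, Or.inl rfl⟩
        · exact Or.inl ⟨q, hq, Or.inr (Or.inl rfl)⟩
        · exact Or.inl ⟨q, hq, Or.inr (Or.inr (Or.inl rfl))⟩
        · exact Or.inl ⟨q, hq, Or.inr (Or.inr (Or.inr rfl))⟩
        · exact Or.inr ⟨q, hq, Or.inl rfl⟩
        · exact Or.inr ⟨q, hq, Or.inr rfl⟩

theorem memB_lg (e : Ga × Ga) : e ∉ (datB N T).lg := by
  unfold datB; simp

theorem wfB (hN : 0 < N) (hT : OKT N T) : (datB N T).WF := by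
  refine ⟨le_refl _, ddup_nodup _, List.nodup_nil, ?_, ?_, ?_, ?_⟩
  · intro g hg
    rw [memB_att] at hg
    rw [memB_cv]
    rcases hg with h | h | h | h | h | h
    · exact Or.inl h
    · exact Or.inr (Or.inl h)
    · exact Or.inr (Or.inr (Or.inl h))
    · exact Or.inr (Or.inr (Or.inr (Or.inl h)))
    · exact Or.inr (Or.inr (Or.inr (Or.inr (Or.inl h))))
    · exact Or.inr (Or.inr (Or.inr (Or.inr (Or.inr (Or.inl h)))))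
  · intro e he
    have he := he.resolve_right (memB_lg e)
    rw [memB_cv, memB_cv]
    rcases (memB_ed e).1 he with ⟨x, hx, rfl | rfl | rfl⟩ | ⟨x, hx, rfl | rfl⟩ | ⟨s, hs,
      ⟨q, hq, rfl⟩ | ⟨q, hq, rfl⟩ | ⟨q, hq, rfl⟩ | ⟨q, hq, rfl⟩ | ⟨q, hq, rfl⟩ | ⟨q, hq, rfl⟩⟩
    · exact ⟨by simp, Or.inl ⟨x, hx, rfl⟩, by simp [uE, eE]⟩
    · exact ⟨by simp, Or.inr (Or.inl ⟨x, hx, rfl⟩), by simp [uE, vE]⟩
    · exact ⟨by simp, Or.inr (Or.inr (Or.inl ⟨x, hx, rfl⟩)), by simp [uE, eE]⟩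
    · exact ⟨Or.inl ⟨x, hx, rfl⟩, Or.inr (Or.inl ⟨x, hx, rfl⟩), by simp [eE, vE]⟩
    · exact ⟨Or.inr (Or.inl ⟨x, hx, rfl⟩), Or.inr (Or.inr (Or.inl ⟨x, hx, rfl⟩)),
        by simp [eE, vE]⟩
    · exact ⟨Or.inr (Or.inl ⟨_, tq_lt hN hT hs q, rfl⟩),
        Or.inr (Or.inr (Or.inr (Or.inl ⟨s, hs, q, hq, rfl⟩))), by simp [cE, vE]⟩
    · exact ⟨Or.inr (Or.inr (Or.inr (Or.inl ⟨s, hs, q, hq, rfl⟩))),
        Or.inr (Or.inr (Or.inr (Or.inr (Or.inl ⟨s, hs, q, hq, rfl⟩)))), by simp [cE, bE]⟩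
    · exact ⟨Or.inr (Or.inr (Or.inr (Or.inr (Or.inr (Or.inr (Or.inl ⟨s, hs, rfl⟩)))))),
        Or.inr (Or.inr (Or.inr (Or.inr (Or.inl ⟨s, hs, q, hq, rfl⟩)))), by simp [zE, bE]⟩
    · exact ⟨Or.inr (Or.inr (Or.inr (Or.inr (Or.inr (Or.inr (Or.inl ⟨s, hs, rfl⟩)))))),
        Or.inr (Or.inr (Or.inr (Or.inr (Or.inr (Or.inl ⟨s, hs, q, hq, rfl⟩))))), by simp [zE, dE]⟩
    · exact ⟨Or.inr (Or.inr (Or.inr (Or.inr (Or.inl ⟨s, hs, q, by omega, rfl⟩)))),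
        Or.inr (Or.inr (Or.inr (Or.inr (Or.inr (Or.inl ⟨s, hs, q, by omega, rfl⟩))))),
        by simp [bE, dE]⟩
    · exact ⟨Or.inr (Or.inr (Or.inr (Or.inr (Or.inr (Or.inl ⟨s, hs, q, by omega, rfl⟩))))),
        Or.inr (Or.inr (Or.inr (Or.inr (Or.inl ⟨s, hs, q + 1, by omega, rfl⟩)))),
        by simp [bE, dE]⟩
  · intro e _
    exact memB_lg e
  · intro e he he'
    have he := he.resolve_right (memB_lg e)
    have he' := he'.resolve_right (memB_lg _)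
    rcases (memB_ed e).1 he with ⟨x, hx, rfl | rfl | rfl⟩ | ⟨x, hx, rfl | rfl⟩ | ⟨s, hs,
      ⟨q, hq, rfl⟩ | ⟨q, hq, rfl⟩ | ⟨q, hq, rfl⟩ | ⟨q, hq, rfl⟩ | ⟨q, hq, rfl⟩ | ⟨q, hq, rfl⟩⟩ <;>
    rcases (memB_ed _).1 he' with ⟨x', hx', h | h | h⟩ | ⟨x', hx', h | h⟩ | ⟨s', hs',
      ⟨q', hq', h⟩ | ⟨q', hq', h⟩ | ⟨q', hq', h⟩ | ⟨q', hq', h⟩ | ⟨q', hq', h⟩ | ⟨q', hq', h⟩⟩ <;>
    simp only [uE, vE, cE, bE, zE, eE, dE, Prod.mk.injEq] at h <;> omega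

end Pool.Agent.U20.LP
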