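import Pool.Agent.U20.LP.Wheel

/-!
# Edges far from each other, and drawings of subgraphs
-/

set_option autoImplicit false

namespace Pool.Agent.U20.LP

open Set Complex Pool.Agent.TH510.Sefe

variable {V : Type} {G : SimpleGraph V}

/-- no path with at most `k` edges contains both edges -/
def Far (G : SimpleGraph V) (k : ℕ) (e f : Sym2 V) : Prop :=
  ∀ (u v : V) (p : G.Walk u v), p.IsPath → p.length ≤ k → e ∈ p.edges → f ∈ p.edges → False

theorem Far.symm {k : ℕ} {e f : Sym2 V} (h : Far G k e f) : Far G k f e :=
  fun u v p hp hl he hf => h u v p hp hl hf he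

section

variable {φ : V → ℕ} (lip : ∀ a b, G.Adj a b → φ b ≤ φ a + 1)

include lip

theorem lip_edge {k : ℕ} {x y : V} (hx : k ≤ φ x) (hy : k ≤ φ y) {u v : V} (p : G.Walk u v)
    (h : s(x, y) ∈ p.edges) : k + 1 ≤ φ u + p.length := by
  induction p with
  | nil => simp at h
  | cons hadj p ih =>
    rw [SimpleGraph.Walk.edges_cons, List.mem_cons] at h
    rw [SimpleGraph.Walk.length_cons]
    rcases h with h | h
    · rw [Sym2.eq_iff] at h
      rcases h with ⟨h, -⟩ | ⟨-, h⟩
      · rw [← h]; omega
      · rw [← h]; omega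
    · have := ih h
      have := lip _ _ hadj
      omega

theorem lip_supp {h : V} (h0 : φ h = 0) {u v : V} (p : G.Walk u v) (hs : h ∈ p.support) :
    φ u ≤ p.length := by
  induction p with
  | nil =>
    rw [SimpleGraph.Walk.support_nil, List.mem_singleton] at hs
    rw [← hs, h0]; omega
  | cons hadj p ih =>
    rw [SimpleGraph.Walk.support_cons, List.mem_cons] at hs
    rw [SimpleGraph.Walk.length_cons]
    rcases hs with hs | hs
    · rw [← hs, h0]; omega
    · have := ih hs
      have := lip _ _ hadj.symm
      omega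

theorem lip_both {k : ℕ} {h x y : V} (h0 : φ h = 0) (hx : k ≤ φ x) (hy : k ≤ φ y) {u v : V}
    (p : G.Walk u v) (hs : h ∈ p.support) (he : s(x, y) ∈ p.edges) : k + 1 ≤ p.length := by
  induction p with
  | nil => simp at he
  | cons hadj p ih =>
    rename_i u w v'
    rw [SimpleGraph.Walk.support_cons, List.mem_cons] at hs
    by_cases hu : h = u
    · have := lip_edge lip hx hy (SimpleGraph.Walk.cons hadj p) he
      have h1 : φ u = 0 := by rw [← hu]; exact h0
      omega
    · have hs' := hs.resolve_left hu
      rw [SimpleGraph.Walk.edges_cons, List.mem_cons] at he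
      rw [SimpleGraph.Walk.length_cons]
      rcases he with he | he
      · have hw : k ≤ φ w := by
          rw [Sym2.eq_iff] at he
          rcases he with ⟨-, h⟩ | ⟨h, -⟩
          · rw [← h]; exact hy
          · rw [← h]; exact hx
        have := lip_supp lip h0 p hs'
        omega
      · have := ih hs' he
        omega

theorem far_of_lip {k : ℕ} {h h' x y : V} (h0 : φ h = 0) (hx : k ≤ φ x) (hy : k ≤ φ y) :
    Far G k s(h, h') s(x, y) := by
  intro u v p hp hl he hf
  have hs : h ∈ p.support := SimpleGraph.Walk.fst_mem_support_of_mem_edges p he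
  have := lip_both lip h0 hx hy p hs hf
  omega

end

/-- drawings restrict along injective homomorphisms -/
theorem LocPlanar.of_inj {W : Type} {H : SimpleGraph W} {k : ℕ} (f : H →g G)
    (hf : Function.Injective f) (h : LocPlanar k G) : LocPlanar k H := by
  obtain ⟨D, hD⟩ := h
  have emap : ∀ e ∈ H.edgeSet, e.map f ∈ G.edgeSet := by
    intro e
    refine Sym2.ind (fun a b h => ?_) e
    rw [SimpleGraph.mem_edgeSet] at h
    rw [Sym2.map_mk, SimpleGraph.mem_edgeSet]
    exact f.map_adj h
  have key : ∀ e ∈ H.edgeSet, ∀ z ∈ D.arc (e.map f), z ∉ range (fun w => D.pt (f w)) →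
      z ∉ range D.pt := by
    rintro e he z hz hn ⟨w, rfl⟩
    have := D.avoid _ (emap e he) w hz
    rw [Sym2.mem_map] at this
    obtain ⟨w', -, rfl⟩ := this
    exact hn ⟨w', rfl⟩
  let D' : Drawing H :=
    { pt := fun w => D.pt (f w)
      arc := fun e => D.arc (e.map f)
      pt_inj := D.pt_inj.comp hf
      isArc := fun u v huv => D.isArc _ _ (f.map_adj huv)
      avoid := fun e he w hw => by
        have := D.avoid _ (emap e he) (f w) hw
        rw [Sym2.mem_map] at this
        obtain ⟨w', h1, h2⟩ := this
        rw [← hf h2]; exact h1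
      finite := fun e he e' he' hne => D.finite _ (emap e he) _ (emap e' he')
        (fun h => hne (Sym2.map.injective hf h))
      proper := fun e he e' he' hne z hz hn => D.proper _ (emap e he) _ (emap e' he')
        (fun h => hne (Sym2.map.injective hf h)) z hz (key e he z hz.1 hn) }
  refine ⟨D', ?_⟩
  intro u v p hp hl e he e' he' hne
  have hE : e ∈ H.edgeSet := p.edges_subset_edgeSet he
  have h1 : e.map f ∈ (p.map f).edges := by
    rw [SimpleGraph.Walk.edges_map]; exact List.mem_map_of_mem he
  have h2 : e'.map f ∈ (p.map f).edges := by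
    rw [SimpleGraph.Walk.edges_map]; exact List.mem_map_of_mem he'
  have := hD _ _ (p.map f) (hp.map hf)
    (by rw [SimpleGraph.Walk.length_map]; exact hl) _ h1 _ h2
    (fun h => hne (Sym2.map.injective hf h))
  rw [Set.eq_empty_iff_forall_notMem] at this ⊢
  intro z hz
  exact this z ⟨hz.1, key e hE z hz.1.1 hz.2⟩

theorem LocPlanar.iso {W : Type} {H : SimpleGraph W} {k : ℕ} (e : G ≃g H) :
    LocPlanar k G ↔ LocPlanar k H :=
  ⟨fun h => h.of_inj e.symm.toHom e.symm.injective, fun h => h.of_inj e.toHom e.injective⟩

end Pool.Agent.U20.LP
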