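import Pool.Agent.U20.LP.SoundA

/-!
# Soundness for `k ≥ 4`: the transfer through a star, and the double star
-/

set_option autoImplicit false

namespace Pool.Agent.U20.LP

open Set Complex Pool.Agent.TH510.Sefe

variable {V : Type} {G : SimpleGraph V}

theorem chain_of_infix {R : V → V → Prop} : ∀ l : List V,
    (∀ x y, [x, y] <:+: l → R x y) → l.IsChain R
  | [], _ => List.isChain_nil
  | [a], _ => List.isChain_singleton a
  | a :: b :: l, h => by
    rw [List.isChain_cons_cons]
    exact ⟨h a b (List.prefix_append [a, b] l).isInfix, chain_of_infix (b :: l) fun x y hxy =>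
      h x y (hxy.trans (List.suffix_cons a _).isInfix)⟩

section

variable {k : ℕ} {D : Drawing G} (hD : LocPlanarDrawing k D) {A : V}

include hD

/-- legs of adjacent hubs do not cross -/
theorem nc_legs {z w b b' : V} {t t' : List V} (L : Leg G k A z b t)
    (L' : Leg G k A w b' t') (hb : G.Adj A b) (hb' : G.Adj A b') (hzw : G.Adj z w)
    (hdis : ∀ v ∈ z :: t, v ∉ w :: t') {x y x' y' : V} (h1 : [x, y] <:+: z :: t)
    (h2 : [x', y'] <:+: w :: t') : D.crossings s(x, y) s(x', y') = ∅ := by
  have hne : s(x, y) ≠ s(x', y') := by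
    intro h
    rw [Sym2.eq_iff] at h
    have hx : x ∈ z :: t := h1.subset (by simp)
    have hx' : x' ∈ w :: t' := h2.subset (by simp)
    have hy' : y' ∈ w :: t' := h2.subset (by simp)
    rcases h with ⟨h, -⟩ | ⟨h, -⟩
    · exact hdis x hx (h ▸ hx')
    · exact hdis x hx (h ▸ hy')
  have hpt : (z :: t).length = k - 1 + 0 := by
    have h3 : 1 ≤ t.length := List.length_pos_iff.2 (List.ne_nil_of_mem L.ne)
    have := L.len
    rw [List.length_cons]
    omega
  have hpt' : (w :: t').length = k - 1 + 0 := by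
    have h3 : 1 ≤ t'.length := List.length_pos_iff.2 (List.ne_nil_of_mem L'.ne)
    have := L'.len
    rw [List.length_cons]
    omega
  have hk3 : 3 ≤ k := by
    have h3 : 1 ≤ t.length := List.length_pos_iff.2 (List.ne_nil_of_mem L.ne)
    have := L.len
    omega
  obtain ⟨s, r, e1⟩ := h1
  obtain ⟨s', r', e2⟩ := h2
  have l1 : s.length + 2 + r.length = k - 1 := by
    rw [← e1] at hpt
    simp only [List.length_append, List.length_cons, List.length_nil] at hpt
    omega
  have l2 : s'.length + 2 + r'.length = k - 1 := by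
    rw [← e2] at hpt'
    simp only [List.length_append, List.length_cons, List.length_nil] at hpt'
    omega
  by_cases hs : s.length + s'.length ≤ k - 3
  · have p1 : s ++ [x, y] <+: z :: t := ⟨r, e1⟩
    have p2 : s' ++ [x', y'] <+: w :: t' := ⟨r', e2⟩
    have hd1 : (s ++ [x, y]).head? = some z := by
      obtain ⟨q, hq⟩ := p1
      rcases s with _ | ⟨a, s⟩
      · simp only [List.nil_append, List.cons_append, List.cons.injEq] at hq ⊢
        simp [hq.1]
      · simp only [List.cons_append, List.cons.injEq] at hq ⊢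
        simp [hq.1]
    have hd2 : (s' ++ [x', y']).head? = some w := by
      obtain ⟨q, hq⟩ := p2
      rcases s' with _ | ⟨a, s'⟩
      · simp only [List.nil_append, List.cons_append, List.cons.injEq] at hq ⊢
        simp [hq.1]
      · simp only [List.cons_append, List.cons.injEq] at hq ⊢
        simp [hq.1]
    have := nc_of_list hD (l := (s ++ [x, y]).reverse ++ (s' ++ [x', y'])) (a := y) (b := x)
      (c := x') (d := y') (by
        rw [List.nodup_append, List.nodup_reverse]
        refine ⟨L.nodup.sublist p1.sublist, L'.nodup.sublist p2.sublist, ?_⟩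
        intro a ha b hb hab
        rw [List.mem_reverse] at ha
        exact hdis a (p1.subset ha) (p2.subset (hab ▸ hb)))
      (by
        rw [List.isChain_append, List.isChain_reverse]
        refine ⟨(chain_part L.chain p1.isInfix).imp fun a b h => h.symm, chain_part L'.chain p2.isInfix, ?_⟩
        intro a ha b hb
        rw [List.getLast?_reverse, hd1] at ha
        rw [hd2] at hb
        simp only [Option.mem_def, Option.some.injEq] at ha hb
        rw [← ha, ← hb]
        exact hzw)
      (by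
        simp only [List.length_append, List.length_reverse, List.length_cons, List.length_nil]
        omega)
      (by
        refine ⟨[], s.reverse ++ (s' ++ [x', y']), ?_⟩
        simp)
      (by
        refine ⟨(s ++ [x, y]).reverse ++ s', [], ?_⟩
        simp) (by rwa [Sym2.eq_swap (a := y)])
    rwa [Sym2.eq_swap (a := y)] at this
  · have p1 : [x, y] ++ r <:+ z :: t := ⟨s, by rw [← e1]; simp⟩
    have p2 : [x', y'] ++ r' <:+ w :: t' := ⟨s', by rw [← e2]; simp⟩
    have hd1 : ([x, y] ++ r).getLast? = some b := by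
      have := L.lastc
      rw [← e1, List.append_assoc, List.getLast?_append] at this
      rw [← this]
      simp [List.getLast?_cons]
    have hd2 : ([x', y'] ++ r').getLast? = some b' := by
      have := L'.lastc
      rw [← e2, List.append_assoc, List.getLast?_append] at this
      rw [← this]
      simp [List.getLast?_cons]
    have := nc_of_list hD (l := ([x, y] ++ r) ++ ([A] ++ ([x', y'] ++ r').reverse)) (a := x) (b := y)
      (c := y') (d := x') (by
        rw [List.nodup_append (l₁ := [x, y] ++ r), List.nodup_append (l₁ := [A]),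
          List.nodup_reverse]
        refine ⟨L.nodup.sublist p1.sublist, ⟨by simp, L'.nodup.sublist p2.sublist, ?_⟩, ?_⟩
        · intro a ha b hb hab
          rw [List.mem_reverse] at hb
          rw [List.mem_singleton] at ha
          exact L'.apex (p2.subset (by rw [← ha, hab]; exact hb))
        · intro a ha b hb hab
          rw [List.mem_append, List.mem_reverse, List.mem_singleton] at hb
          rcases hb with hb | hb
          · exact L.apex (p1.subset (by rw [← hb, ← hab]; exact ha))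
          · exact hdis a (p1.subset ha) (p2.subset (hab ▸ hb)))
      (by
        rw [List.isChain_append, List.singleton_append, List.isChain_cons, List.isChain_reverse]
        refine ⟨chain_part L.chain p1.isInfix, ⟨?_, (chain_part L'.chain p2.isInfix).imp fun a b h => h.symm⟩,
          ?_⟩
        · intro a ha
          rw [List.head?_reverse, hd2] at ha
          simp only [Option.mem_def, Option.some.injEq] at ha
          rw [← ha]
          exact hb'
        · intro a ha b hb
          rw [hd1] at ha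
          simp only [Option.mem_def, Option.some.injEq, List.head?_cons] at ha hb
          rw [← ha, ← hb]
          exact ‹G.Adj A _›.symm)
      (by
        simp only [List.length_append, List.length_reverse, List.length_cons, List.length_nil]
        omega)
      (by
        refine ⟨[], r ++ ([A] ++ ([x', y'] ++ r').reverse), ?_⟩
        simp)
      (by
        refine ⟨([x, y] ++ r) ++ ([A] ++ r'.reverse), [], ?_⟩
        simp) (by rwa [Sym2.eq_swap (a := y')])
    rwa [Sym2.eq_swap (a := y')] at this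

/-- Passing from three leaves of a star to their partners does not change the orientation. -/
theorem transfer (hk : 4 ≤ k) {h b₁ b₂ b₃ c₁ c₂ c₃ : V} {t₁ t₂ t₃ : List V}
    (L₁ : Leg G k A h b₁ t₁) (L₂ : Leg G k A h b₂ t₂) (L₃ : Leg G k A h b₃ t₃)
    (d12 : ∀ x ∈ t₁, x ∉ t₂) (d13 : ∀ x ∈ t₁, x ∉ t₃) (d23 : ∀ x ∈ t₂, x ∉ t₃)
    (ab₁ : G.Adj A b₁) (ab₂ : G.Adj A b₂) (ab₃ : G.Adj A b₃)
    (ac₁ : G.Adj A c₁) (ac₂ : G.Adj A c₂) (ac₃ : G.Adj A c₃)
    (e₁ : G.Adj b₁ c₁) (e₂ : G.Adj b₂ c₂) (e₃ : G.Adj b₃ c₃)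
    (n : ∀ c, (c = c₁ ∨ c = c₂ ∨ c = c₃) → c ∉ h :: t₁ ∧ c ∉ h :: t₂ ∧ c ∉ h :: t₃)
    (m12 : c₁ ≠ c₂) (m13 : c₁ ≠ c₃) (m23 : c₂ ≠ c₃) :
    ori D A b₁ b₂ b₃ = ori D A c₁ c₂ c₃ := by
  have nc1 := n c₁ (Or.inl rfl)
  have nc2 := n c₂ (Or.inr (Or.inl rfl))
  have nc3 := n c₃ (Or.inr (Or.inr rfl))
  -- the leaves are different from the other legs
  have bne : ∀ {b b' : V} {t t' : List V} (L : Leg G k A h b t) (L' : Leg G k A h b' t')
      (hd : ∀ x ∈ t, x ∉ t'), b' ∉ h :: t := by
    intro b b' t t' L L' hd hb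
    rw [List.mem_cons] at hb
    rcases hb with hb | hb
    · have := L'.nodup
      rw [List.nodup_cons] at this
      exact this.1 (hb ▸ L'.ne)
    · exact hd b' hb L'.ne
  have b31 := bne L₁ L₃ d13
  have b32 := bne L₂ L₃ d23
  have b21 := bne L₁ L₂ d12
  have b12 := bne L₂ L₁ fun x hx hx' => d12 x hx' hx
  have b13 := bne L₃ L₁ fun x hx hx' => d13 x hx' hx
  have b23 := bne L₃ L₂ fun x hx hx' => d23 x hx' hx
  have m1 : b₁ ∈ h :: t₁ := List.mem_cons_of_mem _ L₁.ne
  have m2 : b₂ ∈ h :: t₂ := List.mem_cons_of_mem _ L₂.ne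
  have m3 : b₃ ∈ h :: t₃ := List.mem_cons_of_mem _ L₃.ne
  -- the rim of two legs against a tie
  have rim : ∀ {p q r r' : V} {t t' t'' : List V} (Lp : Leg G k A h p t) (Lq : Leg G k A h q t')
      (Lr : Leg G k A h r t'') (hp : G.Adj A p) (hq : G.Adj A q) (hr : G.Adj A r)
      (hr' : G.Adj A r') (hrr : G.Adj r r') (h1 : ∀ x ∈ t, x ∉ t'') (h2 : ∀ x ∈ t', x ∉ t'')
      (n1 : r' ∉ h :: t) (n2 : r' ∉ h :: t') (n3 : r' ∉ h :: t''),
      (t.reverse ++ h :: t').IsChain (fun x y => G.Adj x y ∧ D.crossings s(x, y) s(A, r) = ∅ ∧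
        D.crossings s(x, y) s(A, r') = ∅ ∧ D.crossings s(x, y) s(r, r') = ∅) := by
    intro p q r r' t t' t'' Lp Lq Lr hp hq hr hr' hrr h1 h2 n1 n2 n3
    have key : ∀ {p : V} {t : List V} (Lp : Leg G k A h p t) (hp : G.Adj A p)
        (h1 : ∀ x ∈ t, x ∉ t'') (n1 : r' ∉ h :: t), (h :: t).IsChain
        (fun x y => G.Adj x y ∧ D.crossings s(x, y) s(A, r) = ∅ ∧
        D.crossings s(x, y) s(A, r') = ∅ ∧ D.crossings s(x, y) s(r, r') = ∅) := by
      intro p t Lp hp h1 n1
      apply chain_of_infix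
      intro x y hxy
      have hbr : r ∉ h :: t := bne Lp Lr h1
      exact ⟨List.isChain_pair.1 (chain_part Lp.chain hxy), nc_leg_spoke hD (by omega) Lp hp hr hbr hxy,
        nc_leg_spoke hD (by omega) Lp hp hr' n1 hxy,
        nc_leg_tie hD hk Lp Lr hp hr hr' hrr h1 n1 n3 hxy⟩
    apply chain_rim _ (key Lp hp h1 n1) (key Lq hq h2 n2)
    rintro x y ⟨g1, g2, g3, g4⟩
    rw [Sym2.eq_swap (a := x)] at g2 g3 g4
    exact ⟨g1.symm, g2, g3, g4⟩
  have hA : Cyc (fun x => x = b₁ ∨ x = b₂ ∨ x = b₃ ∨ x = c₁ ∨ x = c₂ ∨ x = c₃) (ori D A) := by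
    have hw : ∀ x, (x = b₁ ∨ x = b₂ ∨ x = b₃ ∨ x = c₁ ∨ x = c₂ ∨ x = c₃) → G.Adj A x := by
      rintro x (rfl | rfl | rfl | rfl | rfl | rfl) <;> assumption
    exact ori_cyc D A _ hw fun x y hx hy hxy => nc_spokes hD (by omega) (hw x hx) (hw y hy) hxy
  have apx : ∀ {b : V} {t : List V}, Leg G k A h b t → ∀ x ∈ t, x ≠ A := by
    intro b t L x hx e
    exact L.apex (List.mem_cons_of_mem _ (e ▸ hx))
  have Ah : A ≠ h := fun e => L₁.apex (e ▸ List.mem_cons_self ..)
  have hb1 : b₁ ≠ b₂ := fun e => b12 (e ▸ m2)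
  have hb2 : b₁ ≠ b₃ := fun e => b13 (e ▸ m3)
  have hb3 : b₂ ≠ b₃ := fun e => b23 (e ▸ m3)
  have tie : ∀ {b c w : V} (hb : G.Adj A b) (hc : G.Adj A c) (hbc : G.Adj b c) (hw : G.Adj A w)
      (hwb : w ≠ b) (hwc : w ≠ c), D.crossings s(b, c) s(A, w) = ∅ :=
    fun hb hc hbc hw hwb hwc => nc_tie_spoke hD (by omega) hb hc hbc hw hwb hwc
  have cb : ∀ {b c : V} {t : List V}, b ∈ h :: t → c ∉ h :: t → c ≠ b := by
    intro b c t h1 h2 e
    exact h2 (e ▸ h1)
  -- first step
  have s1 : ori D A b₁ b₂ b₃ = ori D A b₁ b₂ c₃ := by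
    have hr := rim L₁ L₂ L₃ ab₁ ab₂ ab₃ ac₃ e₃ d13 d23 nc3.1 nc3.2.1 nc3.2.2
    apply wheel_chain D ab₁ ab₂ ab₃ ac₃ (l := t₁.reverse ++ h :: t₂) (m := [b₃, c₃])
    · refine hr.imp ?_
      rintro x y ⟨g1, g2, g3, g4⟩
      refine ⟨g1, g2, g3, ?_⟩
      intro z w hzw
      have : z = b₃ ∧ w = c₃ := by
        have := hzw.sublist.eq_of_length rfl
        simpa using this
      rw [this.1, this.2]
      exact g4
    · rw [List.isChain_pair]
      exact ⟨e₃, tie ab₃ ac₃ e₃ ab₁ hb2 (cb m1 nc3.1).symm, tie ab₃ ac₃ e₃ ab₂ hb3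
        (cb m2 nc3.2.1).symm⟩
    · rw [List.head?_append, List.head?_reverse, L₁.last]; rfl
    · rw [List.getLast?_append, L₂.lastc]; rfl
    · rfl
    · rfl
    · rw [List.mem_append, List.mem_reverse, List.mem_cons]
      rintro (h | h | h)
      · exact apx L₁ _ h rfl
      · exact Ah h
      · exact apx L₂ _ h rfl
    · simp [ab₃.ne, ac₃.ne]
    · intro x hx
      rw [List.mem_append, List.mem_reverse] at hx
      simp only [List.mem_cons, List.not_mem_nil, or_false, not_or]
      constructor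
      · rintro rfl
        rcases hx with hx | hx
        · exact b31 (List.mem_cons_of_mem _ hx)
        · exact b32 hx
      · rintro rfl
        rcases hx with hx | hx
        · exact nc3.1 (List.mem_cons_of_mem _ hx)
        · exact nc3.2.1 hx
  -- second step
  have s2 : ori D A c₃ b₁ b₂ = ori D A c₃ b₁ c₂ := by
    have hr := rim L₃ L₁ L₂ ab₃ ab₁ ab₂ ac₂ e₂ (fun x hx hx' => d23 x hx' hx) d12 nc2.2.2 nc2.1
      nc2.2.1
    apply wheel_chain D ac₃ ab₁ ab₂ ac₂ (l := c₃ :: (t₃.reverse ++ h :: t₁)) (m := [b₂, c₂])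
    · have hr' : (c₃ :: (t₃.reverse ++ h :: t₁)).IsChain (fun x y => G.Adj x y ∧
          D.crossings s(x, y) s(A, b₂) = ∅ ∧
          D.crossings s(x, y) s(A, c₂) = ∅ ∧ D.crossings s(x, y) s(b₂, c₂) = ∅) := by
        rw [List.isChain_cons]
        refine ⟨?_, hr⟩
        intro y hy
        rw [List.head?_append, List.head?_reverse, L₃.last] at hy
        simp only [Option.mem_def, Option.some_or, Option.some.injEq] at hy
        subst hy
        refine ⟨e₃.symm, ?_, ?_, ?_⟩
        · exact tie ac₃ ab₃ e₃.symm ab₂ (cb m2 nc3.2.1).symm hb3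
        · exact tie ac₃ ab₃ e₃.symm ac₂ m23 (cb m3 nc2.2.2)
        · exact nc_ties hD hk ac₃ ab₃ e₃.symm ab₂ ac₂ e₂ (cb m2 nc3.2.1) m23.symm hb3.symm
            (cb m3 nc2.2.2).symm
      refine hr'.imp ?_
      rintro x y ⟨g1, g2, g3, g4⟩
      refine ⟨g1, g2, g3, ?_⟩
      intro z w hzw
      have : z = b₂ ∧ w = c₂ := by
        have := hzw.sublist.eq_of_length rfl
        simpa using this
      rw [this.1, this.2]
      exact g4
    · rw [List.isChain_pair]
      exact ⟨e₂, tie ab₂ ac₂ e₂ ac₃ (cb m2 nc3.2.1) m23.symm, tie ab₂ ac₂ e₂ ab₁ hb1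
        (cb m1 nc2.1).symm⟩
    · rfl
    · rw [List.getLast?_cons, List.getLast?_append, L₁.lastc]; rfl
    · rfl
    · rfl
    · rw [List.mem_cons, List.mem_append, List.mem_reverse, List.mem_cons]
      rintro (h | h | h | h)
      · exact ac₃.ne h
      · exact apx L₃ _ h rfl
      · exact Ah h
      · exact apx L₁ _ h rfl
    · simp [ab₂.ne, ac₂.ne]
    · intro x hx
      rw [List.mem_cons, List.mem_append, List.mem_reverse] at hx
      simp only [List.mem_cons, List.not_mem_nil, or_false, not_or]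
      constructor
      · rintro rfl
        rcases hx with hx | hx | hx
        · exact cb m2 nc3.2.1 hx.symm
        · exact b23 (List.mem_cons_of_mem _ hx)
        · exact b21 hx
      · rintro rfl
        rcases hx with hx | hx | hx
        · exact m23 hx
        · exact nc2.2.2 (List.mem_cons_of_mem _ hx)
        · exact nc2.1 hx
  -- third step
  have s3 : ori D A c₂ c₃ b₁ = ori D A c₂ c₃ c₁ := by
    have hr := rim L₂ L₃ L₁ ab₂ ab₃ ab₁ ac₁ e₁ (fun x hx hx' => d12 x hx' hx)
      (fun x hx hx' => d13 x hx' hx) nc1.2.1 nc1.2.2 nc1.1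
    apply wheel_chain D ac₂ ac₃ ab₁ ac₁ (l := c₂ :: (t₂.reverse ++ h :: t₃ ++ [c₃]))
      (m := [b₁, c₁])
    · have hr' : (c₂ :: (t₂.reverse ++ h :: t₃ ++ [c₃])).IsChain (fun x y => G.Adj x y ∧
          D.crossings s(x, y) s(A, b₁) = ∅ ∧
          D.crossings s(x, y) s(A, c₁) = ∅ ∧ D.crossings s(x, y) s(b₁, c₁) = ∅) := by
        rw [List.isChain_cons, List.isChain_append]
        refine ⟨?_, hr, by simp, ?_⟩
        · intro y hy
          rw [List.append_assoc, List.head?_append, List.head?_reverse, L₂.last] at hy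
          simp only [Option.mem_def, Option.some_or, Option.some.injEq] at hy
          subst hy
          refine ⟨e₂.symm, ?_, ?_, ?_⟩
          · exact tie ac₂ ab₂ e₂.symm ab₁ (cb m1 nc2.1).symm hb1
          · exact tie ac₂ ab₂ e₂.symm ac₁ m12 (cb m2 nc1.2.1)
          · exact nc_ties hD hk ac₂ ab₂ e₂.symm ab₁ ac₁ e₁ (cb m1 nc2.1) m12.symm hb1.symm
              (cb m2 nc1.2.1).symm
        · intro x hx y hy
          rw [List.getLast?_append, L₃.lastc] at hx
          simp only [Option.mem_def, Option.some_or, Option.some.injEq, List.head?_cons] at hx hy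
          subst hx hy
          refine ⟨e₃, ?_, ?_, ?_⟩
          · exact tie ab₃ ac₃ e₃ ab₁ hb2 (cb m1 nc3.1).symm
          · exact tie ab₃ ac₃ e₃ ac₁ (cb m3 nc1.2.2) m13
          · exact nc_ties hD hk ab₃ ac₃ e₃ ab₁ ac₁ e₁ hb2.symm
              (cb m3 nc1.2.2).symm (cb m1 nc3.1) m13.symm
      refine hr'.imp ?_
      rintro x y ⟨g1, g2, g3, g4⟩
      refine ⟨g1, g2, g3, ?_⟩
      intro z w hzw
      have : z = b₁ ∧ w = c₁ := by
        have := hzw.sublist.eq_of_length rfl
        simpa using this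
      rw [this.1, this.2]
      exact g4
    · rw [List.isChain_pair]
      exact ⟨e₁, tie ab₁ ac₁ e₁ ac₂ (cb m1 nc2.1) m12.symm, tie ab₁ ac₁ e₁ ac₃ (cb m1 nc3.1)
        m13.symm⟩
    · rfl
    · rw [List.getLast?_cons, List.getLast?_append]; rfl
    · rfl
    · rfl
    · rw [List.mem_cons, List.mem_append, List.mem_append, List.mem_reverse, List.mem_cons,
        List.mem_singleton]
      rintro (h | (h | h | h) | h)
      · exact ac₂.ne h
      · exact apx L₂ _ h rfl
      · exact Ah h
      · exact apx L₃ _ h rfl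
      · exact ac₃.ne h
    · simp [ab₁.ne, ac₁.ne]
    · intro x hx
      rw [List.mem_cons, List.mem_append, List.mem_append, List.mem_reverse,
        List.mem_singleton] at hx
      simp only [List.mem_cons, List.not_mem_nil, or_false, not_or]
      constructor
      · rintro rfl
        rcases hx with hx | (hx | hx) | hx
        · exact cb m1 nc2.1 hx.symm
        · exact b12 (List.mem_cons_of_mem _ hx)
        · exact b13 hx
        · exact cb m1 nc3.1 hx.symm
      · rintro rfl
        rcases hx with hx | (hx | hx) | hx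
        · exact m12 hx
        · exact nc1.2.1 (List.mem_cons_of_mem _ hx)
        · exact nc1.2.2 hx
        · exact m13 hx
  rw [s1, hA.rot c₃ b₁ b₂ (by simp) (by simp) (by simp) (cb m1 nc3.1) hb1 (cb m2 nc3.2.1), s2,
    ← hA.rot c₃ b₁ c₂ (by simp) (by simp) (by simp) (cb m1 nc3.1) (cb m1 nc2.1).symm m23.symm,
    ← hA.rot b₁ c₂ c₃ (by simp) (by simp) (by simp) (cb m1 nc2.1).symm m23 (cb m1 nc3.1).symm, s3,
    hA.rot c₁ c₂ c₃ (by simp) (by simp) (by simp) m12 m23 m13]

/-- The double star on four leaves. -/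
theorem double_star (hk : 4 ≤ k) {z w r i l j : V} {zr zi zl wr wl wj : List V}
    (Lzr : Leg G k A z r zr) (Lzi : Leg G k A z i zi) (Lzl : Leg G k A z l zl)
    (Lwr : Leg G k A w r wr) (Lwl : Leg G k A w l wl) (Lwj : Leg G k A w j wj)
    (hzw : G.Adj z w)
    (q1 : ∀ v ∈ z :: zi, v ∉ w :: wl) (q2 : ∀ v ∈ z :: zi, v ∉ w :: wj)
    (q3 : ∀ v ∈ z :: zr, v ∉ w :: wl) (q4 : ∀ v ∈ z :: zr, v ∉ w :: wj)
    (q5 : ∀ v ∈ z :: zi, v ∉ w :: wr) (q6 : ∀ v ∈ z :: zl, v ∉ w :: wr)
    (q7 : ∀ v ∈ z :: zl, v ∉ w :: wj)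
    (ar : G.Adj A r) (ai : G.Adj A i) (al : G.Adj A l) (aj : G.Adj A j)
    (rl : r ≠ l) (ij : i ≠ j) (ir : i ≠ r) (il : i ≠ l) (jr : j ≠ r) (jl : j ≠ l) :
    ori D A r i l = ori D A r l j := by
  have hA : Cyc (fun x => x = r ∨ x = i ∨ x = l ∨ x = j) (ori D A) := by
    have hw : ∀ x, (x = r ∨ x = i ∨ x = l ∨ x = j) → G.Adj A x := by
      rintro x (rfl | rfl | rfl | rfl) <;> assumption
    exact ori_cyc D A _ hw fun x y hx hy hxy => nc_spokes hD (by omega) (hw x hx) (hw y hy) hxy
  have whl : ∀ {a b c d : V} {ta tb tc td : List V} (La : Leg G k A z a ta)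
      (Lb : Leg G k A z b tb) (Lc : Leg G k A w c tc) (Ld : Leg G k A w d td)
      (aa : G.Adj A a) (ab : G.Adj A b) (ac : G.Adj A c) (ad : G.Adj A d)
      (ac' : ∀ v ∈ z :: ta, v ∉ w :: tc) (ad' : ∀ v ∈ z :: ta, v ∉ w :: td)
      (bc' : ∀ v ∈ z :: tb, v ∉ w :: tc) (bd' : ∀ v ∈ z :: tb, v ∉ w :: td),
      ori D A a b c = ori D A a b d := by
    intro a b c d ta tb tc td La Lb Lc Ld aa ab ac ad ac' ad' bc' bd'
    have ma : a ∈ z :: ta := List.mem_cons_of_mem _ La.ne
    have mb : b ∈ z :: tb := List.mem_cons_of_mem _ Lb.ne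
    have mc : c ∈ w :: tc := List.mem_cons_of_mem _ Lc.ne
    have md : d ∈ w :: td := List.mem_cons_of_mem _ Ld.ne
    -- the pieces of the first rim against the second rim
    have key : ∀ {p : V} {t : List V} (Lp : Leg G k A z p t) (ap : G.Adj A p)
        (pc : ∀ v ∈ z :: t, v ∉ w :: tc) (pd : ∀ v ∈ z :: t, v ∉ w :: td),
        (z :: t).IsChain (fun x y => G.Adj x y ∧ D.crossings s(x, y) s(A, c) = ∅ ∧
          D.crossings s(x, y) s(A, d) = ∅ ∧ ∀ u v, [u, v] <:+: tc.reverse ++ w :: td →
          D.crossings s(x, y) s(u, v) = ∅) := by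
      intro p t Lp ap pc pd
      apply chain_of_infix
      intro x y hxy
      refine ⟨List.isChain_pair.1 (chain_part Lp.chain hxy),
        nc_leg_spoke hD (by omega) Lp ap ac (fun h => pc c h mc) hxy,
        nc_leg_spoke hD (by omega) Lp ap ad (fun h => pd d h md) hxy, ?_⟩
      have : (tc.reverse ++ w :: td).IsChain (fun u v => D.crossings s(x, y) s(u, v) = ∅) := by
        apply chain_rim
        · intro u v h
          rwa [Sym2.eq_swap (a := u)] at h
        · apply chain_of_infix
          intro u v huv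
          exact nc_legs hD Lp Lc ap ac hzw pc hxy huv
        · apply chain_of_infix
          intro u v huv
          exact nc_legs hD Lp Ld ap ad hzw pd hxy huv
      intro u v huv
      exact (List.isChain_pair (R := fun u v => D.crossings s(x, y) s(u, v) = ∅)).1
        (chain_part this huv)
    have key2 : ∀ {p : V} {t : List V} (Lp : Leg G k A w p t) (ap : G.Adj A p)
        (pc : ∀ v ∈ z :: ta, v ∉ w :: t) (pd : ∀ v ∈ z :: tb, v ∉ w :: t),
        (w :: t).IsChain (fun x y => G.Adj x y ∧ D.crossings s(x, y) s(A, a) = ∅ ∧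
          D.crossings s(x, y) s(A, b) = ∅) := by
      intro p t Lp ap pc pd
      apply chain_of_infix
      intro x y hxy
      exact ⟨List.isChain_pair.1 (chain_part Lp.chain hxy),
        nc_leg_spoke hD (by omega) Lp ap aa (fun h => pc a ma h) hxy,
        nc_leg_spoke hD (by omega) Lp ap ab (fun h => pd b mb h) hxy⟩
    apply wheel_chain D aa ab ac ad (l := ta.reverse ++ z :: tb) (m := tc.reverse ++ w :: td)
    · apply chain_rim
      · rintro x y ⟨g1, g2, g3, g4⟩
        rw [Sym2.eq_swap (a := x)] at g2 g3 g4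
        exact ⟨g1.symm, g2, g3, g4⟩
      · exact key La aa ac' ad'
      · exact key Lb ab bc' bd'
    · apply chain_rim
      · rintro x y ⟨g1, g2, g3⟩
        rw [Sym2.eq_swap (a := x)] at g2 g3
        exact ⟨g1.symm, g2, g3⟩
      · exact key2 Lc ac ac' bc'
      · exact key2 Ld ad ad' bd'
    · rw [List.head?_append, List.head?_reverse, La.last]; rfl
    · rw [List.getLast?_append, Lb.lastc]; rfl
    · rw [List.head?_append, List.head?_reverse, Lc.last]; rfl
    · rw [List.getLast?_append, Ld.lastc]; rfl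
    · rw [List.mem_append, List.mem_reverse]
      rintro (h | h)
      · exact La.apex (List.mem_cons_of_mem _ h)
      · exact Lb.apex h
    · rw [List.mem_append, List.mem_reverse]
      rintro (h | h)
      · exact Lc.apex (List.mem_cons_of_mem _ h)
      · exact Ld.apex h
    · intro x hx hx'
      rw [List.mem_append, List.mem_reverse] at hx hx'
      have hx1 : x ∈ z :: ta ∨ x ∈ z :: tb := hx.imp (List.mem_cons_of_mem _) id
      have hx2 : x ∈ w :: tc ∨ x ∈ w :: td := hx'.imp (List.mem_cons_of_mem _) id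
      rcases hx1 with h | h <;> rcases hx2 with h' | h'
      · exact ac' x h h'
      · exact ad' x h h'
      · exact bc' x h h'
      · exact bd' x h h'
  have w1 := whl Lzi Lzr Lwl Lwj ai ar al aj q1 q2 q3 q4
  have w2 := whl Lzi Lzl Lwr Lwj ai al ar aj q5 q2 q6 q7
  have c := hA.coc i r l j (by simp) (by simp) (by simp) (by simp) ir il ij rl jr.symm jl.symm
  have r1 := hA.rot r i l (by simp) (by simp) (by simp) ir.symm il rl
  omega

end

end Pool.Agent.U20.LP
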