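import Pool.Agent.U20.LP.Far
import Pool.Agent.U20.LP.SoundB1
import Pool.Agent.H622R2.Base

/-!
# Graphs with an apex, chords and subdivided chords
-/

set_option autoImplicit false

namespace Pool.Agent.U20.LP

open Set Complex Pool.Agent.TH510.Sefe Pool.Agent.H622R2

/-- names of the vertices on the circle -/
abbrev Ga := ℕ × ℕ × ℕ

/-- names of all vertices -/
abbrev La := ℕ × Ga × Ga × ℕ

/-- the apex -/
def ap : La := (0, (0, 0, 0), (0, 0, 0), 0)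

/-- the vertex on the circle -/
def at' (g : Ga) : La := (1, g, (0, 0, 0), 0)

/-- the vertex with index `i` on the leg `l` of length `L` -/
def lv (L : ℕ) (l : Ga × Ga) (i : ℕ) : La :=
  if i = 0 then at' l.1 else if i = L then at' l.2 else (2, l.1, l.2, i)

/-- the data of a graph -/
structure Dat where
  /-- the names of the vertices on the circle -/
  cv : List Ga
  /-- the neighbours of the apex -/
  att : List Ga
  /-- the simple chords -/
  ed : List (Ga × Ga)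
  /-- the subdivided chords -/
  lg : List (Ga × Ga)
  /-- the length of the subdivided chords -/
  L : ℕ

namespace Dat

/-- the edges -/
def es (d : Dat) : List (La × La) :=
  d.att.map (fun g => (ap, at' g)) ++ (d.ed.map (fun e => (at' e.1, at' e.2)) ++
    d.lg.flatMap (fun l => (List.range d.L).map (fun i => (lv d.L l i, lv d.L l (i + 1)))))

/-- the vertices -/
def vl (d : Dat) : List La :=
  ap :: (d.cv.map at' ++ d.lg.flatMap (fun l => (List.range (d.L - 1)).map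
    (fun i => (2, l.1, l.2, i + 1))))

/-- the adjacency test -/
def adj (d : Dat) (a b : La) : Bool := decide ((a, b) ∈ d.es)

/-- the graph -/
abbrev gr (d : Dat) : SimpleGraph {x // x ∈ d.vl} := labGraph d.vl d.adj

/-- well-formed data -/
structure WF (d : Dat) : Prop where
  L1 : 1 ≤ d.L
  cv_nd : d.cv.Nodup
  lg_nd : d.lg.Nodup
  att_cv : ∀ g ∈ d.att, g ∈ d.cv
  ends : ∀ e, e ∈ d.ed ∨ e ∈ d.lg → e.1 ∈ d.cv ∧ e.2 ∈ d.cv ∧ e.1 ≠ e.2
  disj : ∀ e ∈ d.ed, e ∉ d.lg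
  swap : ∀ e, e ∈ d.ed ∨ e ∈ d.lg → ¬ ((e.2, e.1) ∈ d.ed ∨ (e.2, e.1) ∈ d.lg)

variable {d : Dat}

theorem mem_vl (a : La) : a ∈ d.vl ↔ a = ap ∨ (∃ g ∈ d.cv, a = at' g) ∨
    ∃ l ∈ d.lg, ∃ i, 0 < i ∧ i < d.L ∧ a = (2, l.1, l.2, i) := by
  unfold vl
  simp only [List.mem_cons, List.mem_append, List.mem_map, List.mem_flatMap, List.mem_range]
  constructor
  · rintro (h | ⟨g, h, rfl⟩ | ⟨l, h, i, hi, rfl⟩)
    · exact Or.inl h
    · exact Or.inr (Or.inl ⟨g, h, rfl⟩)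
    · exact Or.inr (Or.inr ⟨l, h, i + 1, by omega, by omega, rfl⟩)
  · rintro (h | ⟨g, h, rfl⟩ | ⟨l, h, i, h0, hi, rfl⟩)
    · exact Or.inl h
    · exact Or.inr (Or.inl ⟨g, h, rfl⟩)
    · refine Or.inr (Or.inr ⟨l, h, i - 1, by omega, ?_⟩)
      rw [show i - 1 + 1 = i by omega]

theorem mem_es (a b : La) : (a, b) ∈ d.es ↔ (a = ap ∧ ∃ g ∈ d.att, b = at' g) ∨
    (∃ e ∈ d.ed, a = at' e.1 ∧ b = at' e.2) ∨
    ∃ l ∈ d.lg, ∃ i, i < d.L ∧ a = lv d.L l i ∧ b = lv d.L l (i + 1) := by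
  unfold es
  simp only [List.mem_append, List.mem_map, List.mem_flatMap, List.mem_range, Prod.mk.injEq]
  constructor
  · rintro (⟨g, h, h1, h2⟩ | ⟨e, h, h1, h2⟩ | ⟨l, h, i, hi, h1, h2⟩)
    · exact Or.inl ⟨h1.symm, g, h, h2.symm⟩
    · exact Or.inr (Or.inl ⟨e, h, h1.symm, h2.symm⟩)
    · exact Or.inr (Or.inr ⟨l, h, i, hi, h1.symm, h2.symm⟩)
  · rintro (⟨h1, g, h, h2⟩ | ⟨e, h, h1, h2⟩ | ⟨l, h, i, hi, h1, h2⟩)
    · exact Or.inl ⟨g, h, h1.symm, h2.symm⟩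
    · exact Or.inr (Or.inl ⟨e, h, h1.symm, h2.symm⟩)
    · exact Or.inr (Or.inr ⟨l, h, i, hi, h1.symm, h2.symm⟩)

@[simp] theorem at_inj (g g' : Ga) : at' g = at' g' ↔ g = g' := by
  simp [at']

@[simp] theorem ap_ne_at (g : Ga) : ap ≠ at' g := by simp [ap, at']

@[simp] theorem ap_ne_lv (L : ℕ) (l : Ga × Ga) (i : ℕ) : ap ≠ lv L l i := by
  unfold lv
  split_ifs <;> simp [ap, at']

theorem lv_zero (L : ℕ) (l : Ga × Ga) : lv L l 0 = at' l.1 := by simp [lv]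

theorem lv_last {L : ℕ} (hL : 1 ≤ L) (l : Ga × Ga) : lv L l L = at' l.2 := by
  unfold lv
  rw [if_neg (by omega), if_pos rfl]

theorem lv_mid {L i : ℕ} (l : Ga × Ga) (h0 : 0 < i) (hi : i < L) : lv L l i = (2, l.1, l.2, i) := by
  unfold lv
  rw [if_neg (by omega), if_neg (by omega)]

theorem lv_inj {L i j : ℕ} {l l' : Ga × Ga} (h0 : 0 < i) (hi : i < L) (hj : j ≤ L)
    (h : lv L l i = lv L l' j) : l = l' ∧ i = j := by
  rw [lv_mid l h0 hi] at h
  unfold lv at h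
  split_ifs at h
  · simp [at'] at h
  · simp [at'] at h
  · simp only [Prod.mk.injEq] at h
    exact ⟨Prod.ext h.2.1 h.2.2.1, h.2.2.2⟩

/-- two vertices on legs are equal only if they are the same end or the legs are the same -/
theorem lv_eq {L i j : ℕ} {l l' : Ga × Ga} (hL : 1 ≤ L) (hi : i ≤ L) (hj : j ≤ L)
    (h : lv L l i = lv L l' j) : (l = l' ∧ i = j) ∨ ((i = 0 ∨ i = L) ∧ (j = 0 ∨ j = L) ∧
      (if i = 0 then l.1 else l.2) = (if j = 0 then l'.1 else l'.2)) := by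
  by_cases h1 : 0 < i ∧ i < L
  · exact Or.inl (lv_inj h1.1 h1.2 hj h)
  · by_cases h2 : 0 < j ∧ j < L
    · have := lv_inj h2.1 h2.2 hi h.symm
      exact Or.inl ⟨this.1.symm, this.2.symm⟩
    · right
      have e1 : i = 0 ∨ i = L := by omega
      have e2 : j = 0 ∨ j = L := by omega
      refine ⟨e1, e2, ?_⟩
      unfold lv at h
      split_ifs at h ⊢ <;> first | omega | simpa using h

theorem lv_mem (hW : d.WF) {l : Ga × Ga} (hl : l ∈ d.lg) {i : ℕ} (hi : i ≤ d.L) :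
    lv d.L l i ∈ d.vl := by
  rw [mem_vl]
  unfold lv
  split_ifs with h1 h2
  · exact Or.inr (Or.inl ⟨_, (hW.ends l (Or.inr hl)).1, rfl⟩)
  · exact Or.inr (Or.inl ⟨_, (hW.ends l (Or.inr hl)).2.1, rfl⟩)
  · exact Or.inr (Or.inr ⟨l, hl, i, by omega, by omega, rfl⟩)

theorem ap_mem : ap ∈ d.vl := by
  rw [mem_vl]; exact Or.inl rfl

theorem at_mem {g : Ga} (hg : g ∈ d.cv) : at' g ∈ d.vl := by
  rw [mem_vl]; exact Or.inr (Or.inl ⟨g, hg, rfl⟩)

theorem vl_nodup (hW : d.WF) : d.vl.Nodup := by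
  unfold vl
  rw [List.nodup_cons, List.nodup_append]
  refine ⟨?_, ?_, ?_, ?_⟩
  · simp only [List.mem_append, List.mem_map, List.mem_flatMap]
    rintro (⟨g, -, h⟩ | ⟨l, -, i, -, h⟩)
    · simp [ap, at'] at h
    · simp [ap] at h
  · exact hW.cv_nd.map fun a b h => (at_inj a b).1 h
  · refine nodup_flatMap_of (fun x : La => (x.2.1, x.2.2.1)) hW.lg_nd (fun l _ => ?_) ?_
    · exact List.nodup_range.map fun a b h => by simpa using h
    · intro l _ b hb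
      rw [List.mem_map] at hb
      obtain ⟨i, -, rfl⟩ := hb
      rfl
  · intro a ha b hb hab
    subst hab
    simp only [List.mem_map, List.mem_flatMap] at ha hb
    obtain ⟨g, -, rfl⟩ := ha
    obtain ⟨l, -, i, -, h⟩ := hb
    simp [at'] at h

/-- the vertex with a given name -/
def vx (d : Dat) (a : La) : {x // x ∈ d.vl} := if h : a ∈ d.vl then ⟨a, h⟩ else ⟨ap, ap_mem⟩

theorem vx_val {a : La} (h : a ∈ d.vl) : (d.vx a).1 = a := by
  unfold vx; rw [dif_pos h]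

theorem vx_inj {a b : La} (ha : a ∈ d.vl) (hb : b ∈ d.vl) (h : d.vx a = d.vx b) : a = b := by
  rw [← vx_val ha, h, vx_val hb]

theorem adj_iff (u v : {x // x ∈ d.vl}) :
    d.gr.Adj u v ↔ u ≠ v ∧ ((u.1, v.1) ∈ d.es ∨ (v.1, u.1) ∈ d.es) := by
  unfold gr labGraph adj
  simp only [decide_eq_true_eq]

theorem adj_vx {a b : La} (ha : a ∈ d.vl) (hb : b ∈ d.vl) (hab : a ≠ b) (h : (a, b) ∈ d.es) :
    d.gr.Adj (d.vx a) (d.vx b) := by
  rw [adj_iff]
  refine ⟨fun e => hab (vx_inj ha hb e), Or.inl ?_⟩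
  rw [vx_val ha, vx_val hb]
  exact h

theorem adj_att (hW : d.WF) {g : Ga} (hg : g ∈ d.att) : d.gr.Adj (d.vx ap) (d.vx (at' g)) := by
  apply adj_vx ap_mem (at_mem (hW.att_cv g hg)) (ap_ne_at g)
  rw [mem_es]
  exact Or.inl ⟨rfl, g, hg, rfl⟩

theorem adj_ed (hW : d.WF) {e : Ga × Ga} (he : e ∈ d.ed) :
    d.gr.Adj (d.vx (at' e.1)) (d.vx (at' e.2)) := by
  obtain ⟨h1, h2, h3⟩ := hW.ends e (Or.inl he)
  apply adj_vx (at_mem h1) (at_mem h2) (fun h => h3 ((at_inj _ _).1 h))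
  rw [mem_es]
  exact Or.inr (Or.inl ⟨e, he, rfl, rfl⟩)

theorem lv_ne (hW : d.WF) {l : Ga × Ga} (hl : l ∈ d.lg) {i j : ℕ} (hi : i ≤ d.L) (hj : j ≤ d.L)
    (hij : i ≠ j) : lv d.L l i ≠ lv d.L l j := by
  intro h
  have hL := hW.L1
  rcases lv_eq hL hi hj h with h | ⟨h1, h2, h3⟩
  · exact hij h.2
  · have := (hW.ends l (Or.inr hl)).2.2
    split_ifs at h3
    · omega
    · exact this h3
    · exact this h3.symm
    · omega

theorem adj_lg (hW : d.WF) {l : Ga × Ga} (hl : l ∈ d.lg) {i : ℕ} (hi : i < d.L) :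
    d.gr.Adj (d.vx (lv d.L l i)) (d.vx (lv d.L l (i + 1))) := by
  apply adj_vx (lv_mem hW hl hi.le) (lv_mem hW hl hi) (lv_ne hW hl hi.le hi (by omega))
  rw [mem_es]
  exact Or.inr (Or.inr ⟨l, hl, i, hi, rfl, rfl⟩)

/-- the vertices of a leg after the hub -/
def tl (d : Dat) (l : Ga × Ga) : List {x // x ∈ d.vl} :=
  (List.range' 1 d.L).map fun i => d.vx (lv d.L l i)

theorem cons_tl (l : Ga × Ga) :
    d.vx (at' l.1) :: d.tl l = (List.range' 0 (d.L + 1)).map fun i => d.vx (lv d.L l i) := by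
  rw [List.range'_succ, List.map_cons, lv_zero]
  rfl

theorem mem_cons_tl (l : Ga × Ga) (x : {x // x ∈ d.vl}) :
    x ∈ d.vx (at' l.1) :: d.tl l ↔ ∃ i ≤ d.L, x = d.vx (lv d.L l i) := by
  rw [cons_tl, List.mem_map]
  simp only [List.mem_range'_1]
  constructor
  · rintro ⟨i, hi, rfl⟩
    exact ⟨i, by omega, rfl⟩
  · rintro ⟨i, hi, rfl⟩
    exact ⟨i, by omega, rfl⟩

theorem mem_tl (l : Ga × Ga) (x : {x // x ∈ d.vl}) :
    x ∈ d.tl l ↔ ∃ i, 1 ≤ i ∧ i ≤ d.L ∧ x = d.vx (lv d.L l i) := by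
  unfold tl
  rw [List.mem_map]
  simp only [List.mem_range'_1]
  constructor
  · rintro ⟨i, hi, rfl⟩
    exact ⟨i, by omega, by omega, rfl⟩
  · rintro ⟨i, hi, h2, rfl⟩
    exact ⟨i, by omega, rfl⟩

theorem leg (hW : d.WF) {l : Ga × Ga} (hl : l ∈ d.lg) :
    Leg d.gr (d.L + 2) (d.vx ap) (d.vx (at' l.1)) (d.vx (at' l.2)) (d.tl l) := by
  have hL := hW.L1
  refine ⟨?_, ?_, ?_, ?_, ?_⟩
  · rw [cons_tl, List.isChain_iff_getElem]
    intro i hi
    simp only [List.length_map, List.length_range'] at hi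
    simp only [List.getElem_map, List.getElem_range', one_mul, zero_add]
    exact adj_lg hW hl (by omega)
  · rw [cons_tl]
    refine List.Nodup.map_on ?_ List.nodup_range'
    intro i hi j hj hij
    simp only [List.mem_range'_1] at hi hj
    by_contra hne
    exact lv_ne hW hl (by omega) (by omega) hne (vx_inj (lv_mem hW hl (by omega))
      (lv_mem hW hl (by omega)) hij)
  · unfold tl
    rw [List.getLast?_map, List.getLast?_range']
    rw [if_neg (by omega)]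
    simp only [Option.map_some, Option.some.injEq]
    rw [show 1 + d.L - 1 = d.L by omega, lv_last hL]
  · unfold tl; simp
  · rw [mem_cons_tl]
    rintro ⟨i, hi, h⟩
    exact ap_ne_lv _ _ _ (vx_inj ap_mem (lv_mem hW hl hi) h)

/-- two legs without a common end are disjoint -/
theorem leg_disj (hW : d.WF) {l l' : Ga × Ga} (hl : l ∈ d.lg) (hl' : l' ∈ d.lg)
    (h11 : l.1 ≠ l'.1) (h12 : l.1 ≠ l'.2) (h21 : l.2 ≠ l'.1) (h22 : l.2 ≠ l'.2) :
    ∀ x ∈ d.vx (at' l.1) :: d.tl l, x ∉ d.vx (at' l'.1) :: d.tl l' := by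
  intro x hx hx'
  rw [mem_cons_tl] at hx hx'
  obtain ⟨i, hi, rfl⟩ := hx
  obtain ⟨j, hj, h⟩ := hx'
  have := vx_inj (lv_mem hW hl hi) (lv_mem hW hl' hj) h
  rcases lv_eq hW.L1 hi hj this with h | ⟨-, -, h⟩
  · exact h11 (by rw [h.1])
  · split_ifs at h
    · exact h11 h
    · exact h12 h
    · exact h21 h
    · exact h22 h

/-- two legs of the same hub -/
theorem leg_disj' (hW : d.WF) {l l' : Ga × Ga} (hl : l ∈ d.lg) (hl' : l' ∈ d.lg)
    (h11 : l.1 = l'.1) (h22 : l.2 ≠ l'.2) : ∀ x ∈ d.tl l, x ∉ d.tl l' := by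
  intro x hx hx'
  rw [mem_tl] at hx hx'
  obtain ⟨i, h1, hi, rfl⟩ := hx
  obtain ⟨j, h2, hj, h⟩ := hx'
  have := vx_inj (lv_mem hW hl hi) (lv_mem hW hl' hj) h
  rcases lv_eq hW.L1 hi hj this with h | ⟨h3, h4, h⟩
  · exact h22 (by rw [h.1])
  · rw [if_neg (by omega), if_neg (by omega)] at h
    exact h22 h

theorem at_notMem_leg (hW : d.WF) {l : Ga × Ga} (hl : l ∈ d.lg) {g : Ga} (hg : g ∈ d.cv)
    (h1 : g ≠ l.1) (h2 : g ≠ l.2) : d.vx (at' g) ∉ d.vx (at' l.1) :: d.tl l := by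
  rw [mem_cons_tl]
  rintro ⟨i, hi, h⟩
  have := vx_inj (at_mem hg) (lv_mem hW hl hi) h
  unfold lv at this
  split_ifs at this
  · exact h1 ((at_inj _ _).1 this)
  · exact h2 ((at_inj _ _).1 this)
  · simp [at'] at this

end Dat

end Pool.Agent.U20.LP
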