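import Pool.Agent.U20.LP.Wheel
import Pool.Agent.H495R3.CySat2

/-!
# Orientations of triples and linear orders
-/

set_option autoImplicit false

namespace Pool.Agent.U20.LP

open Set Complex Pool.Agent.H858R3.Lift Pool.Agent.H858R3.Cross Pool.Agent.TH510.Sefe
open Pool.Agent.H495R3.Cy Pool.Agent.NPC

/-- A cyclic orientation of the triples in a set. -/
structure Cyc {V : Type} (W : V → Prop) (o : V → V → V → ℤ) : Prop where
  pm : ∀ a b c, W a → W b → W c → a ≠ b → b ≠ c → a ≠ c → o a b c = 1 ∨ o a b c = -1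
  swap : ∀ a b c, W a → W b → W c → a ≠ b → b ≠ c → a ≠ c → o a c b = - o a b c
  rot : ∀ a b c, W a → W b → W c → a ≠ b → b ≠ c → a ≠ c → o b c a = o a b c
  coc : ∀ a b c d, W a → W b → W c → W d → a ≠ b → a ≠ c → a ≠ d → b ≠ c → b ≠ d → c ≠ d →
    o a b c - o a b d + o a c d - o b c d = 0

section

variable {V : Type} {G : SimpleGraph V}

theorem ori_cyc (D : Drawing G) (A : V) (W : V → Prop) (hW : ∀ x, W x → G.Adj A x)
    (hc : ∀ x y, W x → W y → x ≠ y → D.crossings s(A, x) s(A, y) = ∅) : Cyc W (ori D A) := by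
  have sp : ∀ a b c, W a → W b → W c → a ≠ b → b ≠ c → a ≠ c → _ := fun a b c ha hb hc' h1 h2 h3 =>
    ori_spec D (hW a ha) (hW b hb) (hW c hc') h1 h2 h3 (hc a b ha hb h1) (hc b c hb hc' h2)
      (hc a c ha hc' h3)
  have hpi : (Real.pi : ℂ) * I ≠ 0 :=
    mul_ne_zero (by exact_mod_cast Real.pi_pos.ne') I_ne_zero
  refine ⟨fun a b c ha hb hc' h1 h2 h3 => (sp a b c ha hb hc' h1 h2 h3).2, ?_, ?_, ?_⟩
  · intro a b c ha hb hc' h1 h2 h3
    have e1 := (sp a b c ha hb hc' h1 h2 h3).1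
    have e2 := (sp a c b ha hc' hb h3 h2.symm h1).1
    rw [S_swap, e1] at e2
    have e3 : ((ori D A a c b : ℤ) : ℂ) = ((- ori D A a b c : ℤ) : ℂ) := by
      apply mul_right_cancel₀ hpi
      push_cast
      linear_combination -e2
    exact_mod_cast e3
  · intro a b c ha hb hc' h1 h2 h3
    have e1 := (sp a b c ha hb hc' h1 h2 h3).1
    have e2 := (sp b c a hb hc' ha h2 h3.symm h1.symm).1
    rw [S_rot, e1] at e2
    have e3 : ((ori D A b c a : ℤ) : ℂ) = ((ori D A a b c : ℤ) : ℂ) := by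
      apply mul_right_cancel₀ hpi
      linear_combination -e2
    exact_mod_cast e3
  · intro a b c d ha hb hc' hd h1 h2 h3 h4 h5 h6
    have e1 := (sp a b c ha hb hc' h1 h4 h2).1
    have e2 := (sp a b d ha hb hd h1 h5 h3).1
    have e3 := (sp a c d ha hc' hd h2 h6 h3).1
    have e4 := (sp b c d hb hc' hd h4 h6 h5).1
    have k := S_cocycle (spoke D A a) (spoke D A b) (spoke D A c) (spoke D A d)
    rw [e1, e2, e3, e4] at k
    have e5 : ((ori D A a b c - ori D A a b d + ori D A a c d - ori D A b c d : ℤ) : ℂ) =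
        ((0 : ℤ) : ℂ) := by
      apply mul_right_cancel₀ hpi
      push_cast
      linear_combination k
    exact_mod_cast e5

theorem ori_eq (D : Drawing G) {A a b c d : V} (h : S (spoke D A a) (spoke D A b) (spoke D A c) =
    S (spoke D A a) (spoke D A b) (spoke D A d)) : ori D A a b c = ori D A a b d := by
  unfold ori
  rw [h]

end

/-- From orientations to a solution of the separation problem. -/
theorem solv_of_cyc {V : Type} {W : V → Prop} {o : V → V → V → ℤ} (hc : Cyc W o)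
    {φ : List Cl} (hd : Distinct3 φ) (hb : Bounded3 φ) (v : ℕ → V)
    (hv : ∀ x y, x < 3 + 8 * φ.length → y < 3 + 8 * φ.length → v x = v y → x = y)
    (hW : ∀ x, x < 3 + 8 * φ.length → W (v x))
    (h : ∀ a b c, Trip φ a b c → o (v 0) (v a) (v b) = o (v 0) (v b) (v c)) :
    Solv (els φ) (quads φ) := by
  classical
  set N := 3 + 8 * φ.length with hN
  have ne : ∀ {x y : ℕ}, x < N → y < N → x ≠ y → v x ≠ v y := fun hx hy hxy h => hxy (hv _ _ hx hy h)
  have pm : ∀ {x y : ℕ}, 0 < x → 0 < y → x < N → y < N → x ≠ y →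
      o (v 0) (v x) (v y) = 1 ∨ o (v 0) (v x) (v y) = -1 := fun h1 h2 h3 h4 h5 =>
    hc.pm _ _ _ (hW 0 (by omega)) (hW _ h3) (hW _ h4) (ne (by omega) h3 (by omega)) (ne h3 h4 h5)
      (ne (by omega) h4 (by omega))
  have sw : ∀ {x y : ℕ}, 0 < x → 0 < y → x < N → y < N → x ≠ y →
      o (v 0) (v y) (v x) = - o (v 0) (v x) (v y) := fun h1 h2 h3 h4 h5 =>
    hc.swap _ _ _ (hW 0 (by omega)) (hW _ h3) (hW _ h4) (ne (by omega) h3 (by omega)) (ne h3 h4 h5)
      (ne (by omega) h4 (by omega))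
  have tr : ∀ {x y z : ℕ}, 0 < x → 0 < y → 0 < z → x < N → y < N → z < N → x ≠ y → y ≠ z → x ≠ z →
      o (v 0) (v x) (v y) = 1 → o (v 0) (v y) (v z) = 1 → o (v 0) (v x) (v z) = 1 := by
    intro x y z h1 h2 h3 h4 h5 h6 h7 h8 h9 e1 e2
    have k := hc.coc (v 0) (v x) (v y) (v z) (hW 0 (by omega)) (hW _ h4) (hW _ h5) (hW _ h6)
      (ne (by omega) h4 (by omega)) (ne (by omega) h5 (by omega)) (ne (by omega) h6 (by omega))
      (ne h4 h5 h7) (ne h4 h6 h9) (ne h5 h6 h8)
    have k2 := hc.pm (v x) (v y) (v z) (hW _ h4) (hW _ h5) (hW _ h6) (ne h4 h5 h7) (ne h5 h6 h8)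
      (ne h4 h6 h9)
    have k3 := pm h1 h3 h4 h6 h9
    omega
  -- the rank function
  let F : ℕ → Finset ℕ := fun x => (Finset.range N).filter
    (fun y => y ≠ 0 ∧ y ≠ x ∧ o (v 0) (v y) (v x) = 1)
  let g : ℕ → ℤ := fun x => if x = 0 then -1 else ((F x).card : ℤ)
  have g0 : g 0 = -1 := by simp [g]
  have gp : ∀ {x : ℕ}, 0 < x → g x = ((F x).card : ℤ) := by
    intro x hx
    simp only [g]
    rw [if_neg (by omega)]
  have gpos : ∀ {x : ℕ}, 0 < x → g 0 < g x := by
    intro x hx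
    rw [g0, gp hx]
    omega
  have mono : ∀ {x y : ℕ}, 0 < x → 0 < y → x < N → y < N → x ≠ y → o (v 0) (v x) (v y) = 1 →
      g x < g y := by
    intro x y h1 h2 h3 h4 h5 h6
    rw [gp h1, gp h2]
    have : F x ⊂ F y := by
      rw [Finset.ssubset_iff_of_subset]
      · refine ⟨x, ?_, ?_⟩
        · simp only [F, Finset.mem_filter, Finset.mem_range]
          exact ⟨h3, by omega, h5, h6⟩
        · simp [F]
      · intro z hz
        simp only [F, Finset.mem_filter, Finset.mem_range] at hz ⊢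
        obtain ⟨z1, z2, z3, z4⟩ := hz
        have hzy : z ≠ y := by
          rintro rfl
          have := sw h1 h2 h3 h4 h5
          omega
        exact ⟨z1, z2, hzy, tr (by omega) h1 h2 z1 h3 h4 z3 h5 hzy z4 h6⟩
    exact_mod_cast Finset.card_lt_card this
  have inj : ∀ {x y : ℕ}, x < N → y < N → g x = g y → x = y := by
    intro x y hx hy hxy
    by_contra hne
    rcases Nat.eq_zero_or_pos x with rfl | h1
    · have := gpos (x := y) (by omega)
      omega
    · rcases Nat.eq_zero_or_pos y with rfl | h2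
      · have := gpos h1
        omega
      · rcases pm h1 h2 hx hy hne with h3 | h3
        · have := mono h1 h2 hx hy hne h3
          omega
        · have h4 := sw h1 h2 hx hy hne
          have := mono h2 h1 hy hx (Ne.symm hne) (by omega)
          omega
  refine ⟨g, ?_, ?_⟩
  · intro x hx y hy hxy
    exact inj ((mem_els x).1 hx) ((mem_els y).1 hy) hxy
  · intro q hq
    obtain ⟨a, b, c, ht, hq⟩ := (mem_quads q).1 hq
    obtain ⟨h1, h2, h3, h4, h5, h6, h7, h8, h9⟩ := trip_ok hd hb ht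
    refine betw_of (gpos h4) (gpos h5) (gpos h6) ?_ q hq
    have e := h a b c ht
    rcases pm h4 h5 h7 h8 h1 with e1 | e1
    · left
      exact ⟨mono h4 h5 h7 h8 h1 e1, mono h5 h6 h8 h9 h2 (by rw [← e]; exact e1)⟩
    · right
      have s1 := sw h4 h5 h7 h8 h1
      have s2 := sw h5 h6 h8 h9 h2
      exact ⟨mono h6 h5 h9 h8 h2.symm (by omega), mono h5 h4 h8 h7 h1.symm (by omega)⟩

end Pool.Agent.U20.LP
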