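import Pool.Agent.U20.LP.Seg

/-!
# Drawings with the vertices on a parabola

The apex is far below the parabola; a chord of the parabola may be subdivided by vertices close to
one of its ends.
-/

set_option autoImplicit false

namespace Pool.Agent.U20.LP

open Set Complex Pool.Agent.TH510.Sefe

/-- the place of a vertex -/
inductive Loc
  | apex : Loc
  | pt (t : ℤ) : Loc
  | on (h x : ℤ) (i : ℕ) : Loc

/-- the place with index `i` on the chord from `h` to `x`, which is divided into `n` pieces -/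
def vloc (h x : ℤ) (n i : ℕ) : Loc := if i = 0 then .pt h else if i = n then .pt x else .on h x i

/-- the point of the chord with parameter `l` (`0` at `x` and `1` at `h`) -/
noncomputable def cpt (h x : ℝ) (l : ℝ) : ℂ := ⟨x + l * (h - x), x ^ 2 + l * (h ^ 2 - x ^ 2)⟩

/-- the parameter of the vertex with index `i` -/
noncomputable def par (ε : ℝ) (n i : ℕ) : ℝ := if i = 0 then 1 else if i = n then 0 else ε / i

/-- the point of a place -/
noncomputable def lpt (R ε : ℝ) : Loc → ℂ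
  | .apex => ⟨0, -R⟩
  | .pt t => ⟨t, (t : ℝ) ^ 2⟩
  | .on h x i => cpt h x (ε / i)

theorem lpt_vloc (R ε : ℝ) (h x : ℤ) (n i : ℕ) : lpt R ε (vloc h x n i) = cpt h x (par ε n i) := by
  unfold vloc par
  split_ifs
  · simp [lpt, cpt]
  · simp [lpt, cpt]
  · rfl

theorem par_anti {ε : ℝ} (h0 : 0 < ε) (h1 : ε < 1) {n i j : ℕ} (hij : i < j) (hj : j ≤ n) :
    par ε n j < par ε n i := by
  unfold par
  rw [if_neg (by omega : ¬ j = 0)]
  by_cases hi : i = 0
  · rw [if_pos hi]
    split_ifs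
    · exact one_pos
    · have : (1 : ℝ) ≤ j := by exact_mod_cast (by omega : 1 ≤ j)
      rw [div_lt_one (by linarith)]
      linarith
  · rw [if_neg hi, if_neg (by omega : ¬ i = n)]
    have hi' : (0 : ℝ) < i := by exact_mod_cast (by omega : 0 < i)
    split_ifs
    · positivity
    · have hij' : (i : ℝ) < j := by exact_mod_cast hij
      exact div_lt_div_of_pos_left h0 hi' hij'

theorem par_le {ε : ℝ} (h0 : 0 < ε) {n i : ℕ} (hi : 0 < i) : par ε n i ≤ ε := by
  unfold par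
  rw [if_neg (by omega)]
  split_ifs
  · exact h0.le
  · exact div_le_self h0.le (by exact_mod_cast (by omega : 1 ≤ i))

theorem par_nonneg {ε : ℝ} (h0 : 0 < ε) (n i : ℕ) : 0 ≤ par ε n i := by
  unfold par
  split_ifs
  · exact zero_le_one
  · exact le_rfl
  · positivity

theorem par_le_one {ε : ℝ} (h0 : 0 < ε) (h1 : ε < 1) (n i : ℕ) : par ε n i ≤ 1 := by
  rcases Nat.eq_zero_or_pos i with rfl | hi
  · simp [par]
  · exact (par_le h0 hi).trans h1.le

/-- the condition on the size of `ε` -/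
theorem no_zero {M : ℕ} {ε : ℝ} (hε : ε * (1 + 4 * (M : ℝ) ^ 2) < 1) {h x c d : ℤ} (hh : |h| ≤ M)
    (hx : |x| ≤ M) (hc : |c| ≤ M) (hd : |d| ≤ M) (hxc : x ≠ c) (hxd : x ≠ d) {l : ℝ} (hl : 0 ≤ l)
    (hle : l ≤ ε) : (1 - l) * (((x : ℝ) - c) * (x - d)) + l * (((h : ℝ) - c) * (h - d)) ≠ 0 := by
  intro h0
  have hp : (1 : ℝ) ≤ |((x : ℝ) - c) * (x - d)| := by
    have : (x - c) * (x - d) ≠ 0 := mul_ne_zero (sub_ne_zero.2 hxc) (sub_ne_zero.2 hxd)
    have h2 := Int.one_le_abs this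
    exact_mod_cast h2
  have b1 : |(h : ℝ) - c| ≤ 2 * M := by
    have : |h - c| ≤ 2 * M := by rw [abs_le] at *; omega
    exact_mod_cast this
  have b2 : |(h : ℝ) - d| ≤ 2 * M := by
    have : |h - d| ≤ 2 * M := by rw [abs_le] at *; omega
    exact_mod_cast this
  have hq : |((h : ℝ) - c) * (h - d)| ≤ 4 * (M : ℝ) ^ 2 := by
    rw [abs_mul]
    calc |(h : ℝ) - c| * |(h : ℝ) - d| ≤ (2 * M) * (2 * M) :=
          mul_le_mul b1 b2 (abs_nonneg _) (by positivity)
      _ = _ := by ring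
  have hl1 : l < 1 := by
    have : (1 : ℝ) ≤ 1 + 4 * (M : ℝ) ^ 2 := by nlinarith [sq_nonneg (M : ℝ)]
    nlinarith
  have e1 : (1 - l) * |((x : ℝ) - c) * (x - d)| = l * |((h : ℝ) - c) * (h - d)| := by
    have e2 : (1 - l) * (((x : ℝ) - c) * (x - d)) = -(l * (((h : ℝ) - c) * (h - d))) := by
      linarith
    calc (1 - l) * |((x : ℝ) - c) * (x - d)| = |(1 - l) * (((x : ℝ) - c) * (x - d))| := by
          rw [abs_mul (1 - l), abs_of_nonneg (by linarith : (0 : ℝ) ≤ 1 - l)]
      _ = l * |((h : ℝ) - c) * (h - d)| := by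
          rw [e2, abs_neg, abs_mul l, abs_of_nonneg hl]
  have hsq : 0 ≤ (M : ℝ) ^ 2 := sq_nonneg _
  nlinarith [mul_le_mul_of_nonneg_left hp (by linarith : (0 : ℝ) ≤ 1 - l),
    mul_le_mul_of_nonneg_left hq hl]

/-- points of a piece of a chord -/
theorem mem_piece {h x a b : ℝ} (hab : a ≤ b) {z : ℂ} (hz : z ∈ segment ℝ (cpt h x a) (cpt h x b)) :
    ∃ l : ℝ, a ≤ l ∧ l ≤ b ∧ z = cpt h x l := by
  obtain ⟨t, t0, t1, t2, t3⟩ := mem_seg hz
  refine ⟨a + t * (b - a), by nlinarith, by nlinarith, ?_⟩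
  apply Complex.ext
  · rw [t2]; simp only [cpt]; ring
  · rw [t3]; simp only [cpt]; ring

/-- the line of another chord at a point of a chord -/
theorem line_cpt {h x c d l m : ℝ} (hz : cpt h x l = cpt c d m) :
    (1 - l) * ((x - c) * (x - d)) + l * ((h - c) * (h - d)) = 0 := by
  have h1 := congrArg Complex.re hz
  have h2 := congrArg Complex.im hz
  simp only [cpt] at h1 h2
  linear_combination h2 - (c + d) * h1

theorem cpt_para {h x l : ℝ} : (cpt h x l).im - (cpt h x l).re ^ 2 = l * (1 - l) * (h - x) ^ 2 := by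
  simp only [cpt]; ring

/-- two chords without common ends have a common point only if they alternate -/
theorem alt_of_inter {h x c d : ℤ} (hxc : x ≠ c) (hxd : x ≠ d) (hhc : h ≠ c) (hhd : h ≠ d)
    {l : ℝ} (h0 : 0 ≤ l) (h1 : l ≤ 1)
    (he : (1 - l) * (((x : ℝ) - c) * (x - d)) + l * (((h : ℝ) - c) * (h - d)) = 0) :
    (x - c) * (x - d) * ((h - c) * (h - d)) < 0 := by
  have hp : (x - c) * (x - d) ≠ 0 := mul_ne_zero (sub_ne_zero.2 hxc) (sub_ne_zero.2 hxd)
  have hq : (h - c) * (h - d) ≠ 0 := mul_ne_zero (sub_ne_zero.2 hhc) (sub_ne_zero.2 hhd)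
  have key : ((((x - c) * (x - d) * ((h - c) * (h - d)) : ℤ)) : ℝ) < 0 := by
    have hp' : ((x : ℝ) - c) * (x - d) ≠ 0 := by exact_mod_cast hp
    have hq' : ((h : ℝ) - c) * (h - d) ≠ 0 := by exact_mod_cast hq
    push_cast
    set p := ((x : ℝ) - c) * (x - d)
    set q := ((h : ℝ) - c) * (h - d)
    by_contra hcon
    push Not at hcon
    have hpq : 0 < p * q := lt_of_le_of_ne hcon (mul_ne_zero hp' hq').symm
    rcases pos_and_pos_or_neg_and_neg_of_mul_pos hpq with ⟨a1, a2⟩ | ⟨a1, a2⟩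
    · rcases h0.eq_or_lt with h2 | h2
      · rw [← h2] at he; linarith
      · nlinarith [mul_pos h2 a2, mul_nonneg (by linarith : (0 : ℝ) ≤ 1 - l) a1.le]
    · rcases h0.eq_or_lt with h2 | h2
      · rw [← h2] at he; linarith
      · nlinarith [mul_neg_of_pos_of_neg h2 a2,
          mul_nonneg (by linarith : (0 : ℝ) ≤ 1 - l) (by linarith : (0 : ℝ) ≤ -p)]
  exact_mod_cast key

theorem det_ne {h x c d : ℤ} (hhx : h ≠ x) (hcd : c ≠ d)
    (hneg : (x - c) * (x - d) * ((h - c) * (h - d)) < 0) {a b a' b' : ℝ} (hab : a ≠ b)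
    (hab' : a' ≠ b') :
    det (cpt h x b - cpt h x a) (cpt c d b' - cpt c d a') ≠ 0 := by
  have e : det (cpt h x b - cpt h x a) (cpt c d b' - cpt c d a') =
      (b - a) * (b' - a') * (((h : ℝ) - x) * (c - d)) * (((c : ℝ) + d) - (h + x)) := by
    simp only [det, cpt, Complex.sub_re, Complex.sub_im]; ring
  rw [e]
  have e1 : ((h : ℝ) - x) ≠ 0 := sub_ne_zero.2 (by exact_mod_cast hhx)
  have e2 : ((c : ℝ) - d) ≠ 0 := sub_ne_zero.2 (by exact_mod_cast hcd)
  have e3 : (((c : ℝ) + d) - (h + x)) ≠ 0 := by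
    intro h0
    have h1 : c + d = h + x := by
      have : ((c + d : ℤ) : ℝ) = ((h + x : ℤ) : ℝ) := by push_cast; linarith
      exact_mod_cast this
    have h2 : (x - c) * (x - d) = (h - c) * (h - d) := by
      have : d = h + x - c := by omega
      rw [this]; ring
    rw [h2] at hneg
    nlinarith [mul_self_nonneg ((h - c) * (h - d))]
  exact mul_ne_zero (mul_ne_zero (mul_ne_zero (sub_ne_zero.2 hab.symm) (sub_ne_zero.2 hab'.symm))
    (mul_ne_zero e1 e2)) e3

end Pool.Agent.U20.LP
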