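import Pool.Agent.U20.LP.SoundFA
import Pool.Agent.U20.LP.CompFA
import Pool.Agent.H495R3.CyPoly

/-!
# The reduction for `k ≥ 4`
-/

set_option autoImplicit false

namespace Pool.Agent.U20.LP

open Pool.Agent.H622R2 Pool.Agent.H495R3.Cy Pool.Agent.NPC Dat

/-- the triples of a formula -/
def trips (φ : List Cl) : List (ℕ × ℕ × ℕ) :=
  (List.range (3 * φ.length)).map (fun v => (3 + 2 * v, 1, 3 + 2 * v + 1)) ++
    φ.zipIdx.flatMap (fun p => [(lc p.1.1, 3 + 6 * φ.length + 2 * p.2, lc p.1.2.1),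
      (lc p.1.2.2, 3 + 6 * φ.length + 2 * p.2 + 1, 2),
      (3 + 6 * φ.length + 2 * p.2, 1, 3 + 6 * φ.length + 2 * p.2 + 1)])

theorem mem_trips {φ : List Cl} (a b c : ℕ) : (a, b, c) ∈ trips φ ↔ Trip φ a b c := by
  unfold trips Trip
  simp only [List.mem_append, List.mem_map, List.mem_range, List.mem_flatMap, List.mem_cons,
    List.not_mem_nil, or_false, Prod.mk.injEq]
  constructor
  · rintro (⟨v, hv, h1, h2, h3⟩ | ⟨⟨d, k⟩, hd, h⟩)
    · exact Or.inl ⟨v, hv, h1.symm, h2.symm, h3.symm⟩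
    · rw [List.mem_zipIdx_iff_getElem?] at hd
      simp only at hd h
      obtain ⟨hk, hd⟩ := List.getElem?_eq_some_iff.1 hd
      subst hd
      exact Or.inr ⟨k, hk, h⟩
  · rintro (⟨v, hv, h1, h2, h3⟩ | ⟨k, hk, h⟩)
    · exact Or.inl ⟨v, hv, h1.symm, h2.symm, h3.symm⟩
    · refine Or.inr ⟨(φ[k], k), ?_, h⟩
      rw [List.mem_zipIdx_iff_getElem?]
      simp

theorem trips_ok {φ : List Cl} (hd : Distinct3 φ) (hb : Bounded3 φ) :
    OKT (3 + 8 * φ.length) (trips φ) := by
  rintro ⟨a, b, c⟩ h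
  obtain ⟨h1, h2, h3, h4, h5, h6, h7, h8, h9⟩ := trip_ok hd hb ((mem_trips a b c).1 h)
  exact ⟨h7, h8, h9, h4, h5, h6, h1, h2, h3⟩

theorem exists_R (g : ℕ → ℤ) : ∀ n : ℕ, ∃ R : ℤ, ∀ x < n, -R < g x
  | 0 => ⟨0, by simp⟩
  | n + 1 => by
    obtain ⟨R, hR⟩ := exists_R g n
    refine ⟨max R (1 - g n), ?_⟩
    intro x hx
    rcases Nat.lt_succ_iff_lt_or_eq.1 hx with h | rfl
    · have := hR x h
      omega
    · omega

theorem good_of_sat {φ : List Cl} (hd : Distinct3 φ) (hb : Bounded3 φ) (h : SAT3 φ) :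
    ∃ g R, Good (3 + 8 * φ.length) (trips φ) g R := by
  obtain ⟨g, hg, hq⟩ := sat_to_solv hd hb h
  obtain ⟨R, hR⟩ := exists_R g (3 + 8 * φ.length)
  refine ⟨g, R, ?_, hR, ?_⟩
  · intro x y hx hy hxy
    exact hg ((mem_els x).2 hx) ((mem_els y).2 hy) hxy
  · rintro ⟨a, b, c⟩ ht
    have ht' := (mem_trips a b c).1 ht
    exact ⟨hq (0, b, a, c) ((mem_quads _).2 ⟨a, b, c, ht', by simp [betw]⟩),
      hq (0, a, c, b) ((mem_quads _).2 ⟨a, b, c, ht', by simp [betw]⟩)⟩

theorem sat_of_cyc {φ : List Cl} (hd : Distinct3 φ) (hb : Bounded3 φ) {V : Type} {W : V → Prop}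
    {o : V → V → V → ℤ} {v : ℕ → V} (hc : Cyc W o)
    (hv : ∀ x y, x < 3 + 8 * φ.length → y < 3 + 8 * φ.length → v x = v y → x = y)
    (hW : ∀ x < 3 + 8 * φ.length, W (v x))
    (h : ∀ t ∈ trips φ, o (v 0) (v t.1) (v t.2.1) = o (v 0) (v t.2.1) (v t.2.2)) : SAT3 φ :=
  solv_to_sat hd hb (solv_of_cyc hc hd hb v hv hW fun a b c ht =>
    h (a, b, c) ((mem_trips a b c).2 ht))

/-- the reduction -/
def redA (L : ℕ) (φ : List Cl) : List (List Bool) :=
  mat (datA (3 + 8 * φ.length) (trips φ) L).vl (datA (3 + 8 * φ.length) (trips φ) L).adj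

theorem redA_correct {φ : List Cl} (hd : Distinct3 φ) (hb : Bounded3 φ) {L : ℕ} (hL : 2 ≤ L) :
    SAT3 φ ↔ LocPlanar (L + 2) (matGraph (redA L φ)) := by
  have hT := trips_ok hd hb
  have hN : 0 < 3 + 8 * φ.length := by omega
  have hW : (datA (3 + 8 * φ.length) (trips φ) L).WF := wfA hN hT (by omega)
  have e := LocPlanar.iso (k := L + 2) (matIso _ (datA (3 + 8 * φ.length) (trips φ) L).adj
    (vl_nodup hW))
  rw [redA, e]
  constructor
  · intro h
    obtain ⟨g, R, hg⟩ := good_of_sat hd hb h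
    exact compA hN hT (by omega) hg
  · intro h
    obtain ⟨V, W, o, v, h1, h2, h3, h4⟩ := soundA hN hT hL h
    exact sat_of_cyc hd hb h1 h2 h3 h4

/-! ### Polynomial time -/

variable {α : Type} [TEnc α]

theorem trips_poly {φ : α → List Cl} (hf : Poly φ) : Poly (fun a => trips (φ a)) := by
  unfold trips
  refine NPC.Poly.append (NPC.Poly.map (F := fun (_ : α) v => (3 + 2 * v, 1, 3 + 2 * v + 1))
    (range3_poly hf) (by fun_prop)) ?_
  exact NPC.Poly.flatMap (F := fun (a : α) (p : Cl × ℕ) =>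
    [(lc p.1.1, 3 + 6 * (φ a).length + 2 * p.2, lc p.1.2.1),
      (lc p.1.2.2, 3 + 6 * (φ a).length + 2 * p.2 + 1, 2),
      (3 + 6 * (φ a).length + 2 * p.2, 1, 3 + 6 * (φ a).length + 2 * p.2 + 1)])
    (by fun_prop) (by fun_prop)

attribute [fun_prop] trips_poly ddup_poly

theorem rangeT_poly {T : α → List (ℕ × ℕ × ℕ)} (hT : Poly T) :
    Poly (fun a => List.range (T a).length) := (UPoly.length hT).range

attribute [fun_prop] rangeT_poly

theorem tq_poly {t : α → ℕ × ℕ × ℕ} {q : α → ℕ} (ht : Poly t) (hq : Poly q) :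
    Poly (fun a => tq (t a) (q a)) := by
  unfold tq
  fun_prop

theorem lv_poly {L : ℕ} {l : α → Ga × Ga} {i : α → ℕ} (hl : Poly l) (hi : Poly i) :
    Poly (fun a => lv L (l a) (i a)) := by
  unfold lv at'
  fun_prop

attribute [fun_prop] tq_poly lv_poly

theorem vl_poly {cv att : α → List Ga} {ed lg : α → List (Ga × Ga)} {L : ℕ} (hcv : Poly cv)
    (hlg : Poly lg) : Poly (fun a => (Dat.mk (cv a) (att a) (ed a) (lg a) L).vl) := by
  refine NPC.Poly.cons (NPC.Poly.const ap) (NPC.Poly.append ?_ ?_)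
  · exact NPC.Poly.map (F := fun (_ : α) g => at' g) hcv (by unfold at'; fun_prop)
  · refine NPC.Poly.flatMap (F := fun (_ : α) (l : Ga × Ga) => (List.range (L - 1)).map
      (fun i => ((2, l.1, l.2, i + 1) : La))) hlg ?_
    exact NPC.Poly.map (F := fun (p : α × (Ga × Ga)) (i : ℕ) => ((2, p.2.1, p.2.2, i + 1) : La))
      (NPC.Poly.const _) (by fun_prop)

theorem es_poly {cv att : α → List Ga} {ed lg : α → List (Ga × Ga)} {L : ℕ} (hatt : Poly att)
    (hed : Poly ed) (hlg : Poly lg) :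
    Poly (fun a => (Dat.mk (cv a) (att a) (ed a) (lg a) L).es) := by
  refine NPC.Poly.append ?_ (NPC.Poly.append ?_ ?_)
  · exact NPC.Poly.map (F := fun (_ : α) g => (ap, at' g)) hatt (by unfold at' ap; fun_prop)
  · exact NPC.Poly.map (F := fun (_ : α) (e : Ga × Ga) => (at' e.1, at' e.2)) hed
      (by unfold at'; fun_prop)
  · refine NPC.Poly.flatMap (F := fun (_ : α) (l : Ga × Ga) => (List.range L).map
      (fun i => (lv L l i, lv L l (i + 1)))) hlg ?_
    exact NPC.Poly.map (F := fun (p : α × (Ga × Ga)) (i : ℕ) => (lv L p.2 i, lv L p.2 (i + 1)))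
      (NPC.Poly.const _) (by fun_prop)

theorem dat_red_poly {cv att : α → List Ga} {ed lg : α → List (Ga × Ga)} {L : ℕ} (hcv : Poly cv)
    (hatt : Poly att) (hed : Poly ed) (hlg : Poly lg) :
    Poly (fun a => mat (Dat.mk (cv a) (att a) (ed a) (lg a) L).vl
      (Dat.mk (cv a) (att a) (ed a) (lg a) L).adj) := by
  refine H622R2.mat_poly (l := fun a => (Dat.mk (cv a) (att a) (ed a) (lg a) L).vl)
    (adj := fun a => (Dat.mk (cv a) (att a) (ed a) (lg a) L).adj) (vl_poly hcv hlg) ?_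
  have h := es_poly (cv := cv) (att := att) (ed := ed) (lg := lg) (L := L) hatt hed hlg
  have h1 : Poly (fun p : (α × La) × La => (p.1.2, p.2)) := by fun_prop
  have h2 : Poly (fun p : (α × La) × La =>
      (Dat.mk (cv p.1.1) (att p.1.1) (ed p.1.1) (lg p.1.1) L).es) := h.comp (by fun_prop)
  unfold Dat.adj
  exact NPC.Poly.dec_mem (inst := fun p => inferInstance) h1 h2

theorem redA_poly (L : ℕ) : Poly (redA L) := by
  unfold redA datA
  refine dat_red_poly ?_ ?_ ?_ ?_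
  · refine ddup_poly (NPC.Poly.append ?_ (NPC.Poly.append ?_ (NPC.Poly.const _)))
    · exact NPC.Poly.map (F := fun (_ : List Cl) x => vE x) (els_poly NPC.Poly.id)
        (by unfold vE; fun_prop)
    · refine NPC.Poly.flatMap (F := fun (_ : List Cl) s => (List.range 4).map (cE s) ++
        ((List.range 4).map (bE s) ++ [zE s, wE s])) (by fun_prop) ?_
      refine NPC.Poly.append ?_ (NPC.Poly.append ?_ ?_)
      · exact NPC.Poly.map (F := fun (p : List Cl × ℕ) q => cE p.2 q) (NPC.Poly.const _)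
          (by unfold cE; fun_prop)
      · exact NPC.Poly.map (F := fun (p : List Cl × ℕ) q => bE p.2 q) (NPC.Poly.const _)
          (by unfold bE; fun_prop)
      · unfold zE wE; fun_prop
  · refine NPC.Poly.append ?_ ?_
    · exact NPC.Poly.map (F := fun (_ : List Cl) x => vE x) (els_poly NPC.Poly.id)
        (by unfold vE; fun_prop)
    · refine NPC.Poly.flatMap (F := fun (_ : List Cl) s => (List.range 4).map (cE s) ++
        (List.range 4).map (bE s)) (by fun_prop) ?_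
      refine NPC.Poly.append ?_ ?_
      · exact NPC.Poly.map (F := fun (p : List Cl × ℕ) q => cE p.2 q) (NPC.Poly.const _)
          (by unfold cE; fun_prop)
      · exact NPC.Poly.map (F := fun (p : List Cl × ℕ) q => bE p.2 q) (NPC.Poly.const _)
          (by unfold bE; fun_prop)
  · refine NPC.Poly.flatMap (F := fun (_ : List Cl) (p : (ℕ × ℕ × ℕ) × ℕ) =>
      (List.range 4).map (fun q => (vE (tq p.1 q), cE p.2 q)) ++
      ((List.range 4).map (fun q => (cE p.2 q, bE p.2 q)) ++ [(zE p.2, wE p.2)])) (by fun_prop) ?_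
    refine NPC.Poly.append ?_ (NPC.Poly.append ?_ ?_)
    · exact NPC.Poly.map (F := fun (p : List Cl × ((ℕ × ℕ × ℕ) × ℕ)) q =>
        (vE (tq p.2.1 q), cE p.2.2 q)) (NPC.Poly.const _) (by unfold vE cE; fun_prop)
    · exact NPC.Poly.map (F := fun (p : List Cl × ((ℕ × ℕ × ℕ) × ℕ)) q =>
        (cE p.2.2 q, bE p.2.2 q)) (NPC.Poly.const _) (by unfold cE bE; fun_prop)
    · unfold zE wE; fun_prop
  · refine ddup_poly (NPC.Poly.append ?_ ?_)
    · exact NPC.Poly.map (F := fun (_ : List Cl) x => (uE, vE x)) (els_poly NPC.Poly.id)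
        (by unfold uE vE; fun_prop)
    · refine NPC.Poly.flatMap (F := fun (_ : List Cl) s =>
        [(zE s, bE s 0), (zE s, bE s 1), (zE s, bE s 2), (wE s, bE s 0), (wE s, bE s 2),
        (wE s, bE s 3)]) (by fun_prop) ?_
      unfold zE wE bE; fun_prop

end Pool.Agent.U20.LP
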