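import Pool.Agent.U20.LP.SoundFB
import Pool.Agent.U20.LP.CompFB2
import Pool.Agent.U20.LP.RedA

/-!
# The reduction for `k = 3`
-/

set_option autoImplicit false

namespace Pool.Agent.U20.LP

open Pool.Agent.H622R2 Pool.Agent.H495R3.Cy Pool.Agent.NPC Dat

/-- the reduction -/
def redB (φ : List Cl) : List (List Bool) :=
  mat (datB (3 + 8 * φ.length) (trips φ)).vl (datB (3 + 8 * φ.length) (trips φ)).adj

theorem redB_correct {φ : List Cl} (hd : Distinct3 φ) (hb : Bounded3 φ) :
    SAT3 φ ↔ LocPlanar 3 (matGraph (redB φ)) := by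
  have hT := trips_ok hd hb
  have hN : 0 < 3 + 8 * φ.length := by omega
  have hW : (datB (3 + 8 * φ.length) (trips φ)).WF := wfB hN hT
  have e := LocPlanar.iso (k := 3) (matIso _ (datB (3 + 8 * φ.length) (trips φ)).adj
    (vl_nodup hW))
  rw [redB, e]
  constructor
  · intro h
    obtain ⟨g, R, hg⟩ := good_of_sat hd hb h
    exact compB hN hT hg
  · intro h
    obtain ⟨V, W, o, v, h1, h2, h3, h4⟩ := soundB hN hT h
    exact sat_of_cyc hd hb h1 h2 h3 h4

theorem redB_poly : Poly redB := by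
  unfold redB datB
  refine dat_red_poly ?_ ?_ ?_ ?_
  · refine ddup_poly (NPC.Poly.append ?_ (NPC.Poly.append ?_ (NPC.Poly.const _)))
    · exact NPC.Poly.flatMap (F := fun (_ : List Cl) x => [eE x 0, vE x, eE x 1])
        (els_poly NPC.Poly.id) (by unfold vE eE; fun_prop)
    · refine NPC.Poly.flatMap (F := fun (_ : List Cl) s => (List.range 4).flatMap (fun q =>
        [cE s q, bE s q, dE s q]) ++ [zE s]) (by fun_prop) ?_
      refine NPC.Poly.append ?_ ?_
      · exact NPC.Poly.flatMap (F := fun (p : List Cl × ℕ) q => [cE p.2 q, bE p.2 q, dE p.2 q])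
          (NPC.Poly.const _) (by unfold cE bE dE; fun_prop)
      · unfold zE; fun_prop
  · refine NPC.Poly.append ?_ ?_
    · exact NPC.Poly.flatMap (F := fun (_ : List Cl) x => [eE x 0, vE x, eE x 1])
        (els_poly NPC.Poly.id) (by unfold vE eE; fun_prop)
    · refine NPC.Poly.flatMap (F := fun (_ : List Cl) s => (List.range 4).flatMap (fun q =>
        [cE s q, bE s q, dE s q])) (by fun_prop) ?_
      exact NPC.Poly.flatMap (F := fun (p : List Cl × ℕ) q => [cE p.2 q, bE p.2 q, dE p.2 q])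
        (NPC.Poly.const _) (by unfold cE bE dE; fun_prop)
  · refine NPC.Poly.append ?_ ?_
    · exact NPC.Poly.flatMap (F := fun (_ : List Cl) x => [(uE, eE x 0), (uE, vE x), (uE, eE x 1),
        (eE x 0, vE x), (vE x, eE x 1)]) (els_poly NPC.Poly.id) (by unfold uE vE eE; fun_prop)
    · refine NPC.Poly.flatMap (F := fun (_ : List Cl) (p : (ℕ × ℕ × ℕ) × ℕ) =>
        (List.range 4).flatMap (fun q => [(vE (tq p.1 q), cE p.2 q),
        (cE p.2 q, bE p.2 q), (zE p.2, bE p.2 q), (zE p.2, dE p.2 q)]) ++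
        (List.range 3).flatMap (fun q => [(bE p.2 q, dE p.2 q), (dE p.2 q, bE p.2 (q + 1))]))
        (by fun_prop) ?_
      refine NPC.Poly.append ?_ ?_
      · exact NPC.Poly.flatMap (F := fun (p : List Cl × ((ℕ × ℕ × ℕ) × ℕ)) q =>
          [(vE (tq p.2.1 q), cE p.2.2 q), (cE p.2.2 q, bE p.2.2 q), (zE p.2.2, bE p.2.2 q),
            (zE p.2.2, dE p.2.2 q)]) (NPC.Poly.const _) (by unfold vE cE bE zE dE; fun_prop)
      · exact NPC.Poly.flatMap (F := fun (p : List Cl × ((ℕ × ℕ × ℕ) × ℕ)) q =>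
          [(bE p.2.2 q, dE p.2.2 q), (dE p.2.2 q, bE p.2.2 (q + 1))]) (NPC.Poly.const _)
          (by unfold bE dE; fun_prop)
  · exact NPC.Poly.const _

/-- The recognition problem is hard for every `k ≥ 3`. -/
theorem hardI_locPlanar {k : ℕ} (hk : 3 ≤ k) :
    HardI (fun M : List (List Bool) => LocPlanar k (matGraph M)) := by
  by_cases h3 : k = 3
  · subst h3
    exact (hardPr_SAT3b.trans (Pr' := fun _ => True) redB_poly (fun _ _ => trivial)
      (fun _ h => redB_correct h.1 h.2.1)).toHardI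
  · obtain ⟨L, rfl⟩ : ∃ L, k = L + 2 := ⟨k - 2, by omega⟩
    exact (hardPr_SAT3b.trans (Pr' := fun _ => True) (redA_poly L) (fun _ _ => trivial)
      (fun _ h => redA_correct h.1 h.2.1 (by omega))).toHardI

end Pool.Agent.U20.LP
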