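import Pool.Agent.U20.LP.Wheel
import Pool.Agent.H858R3.Poly

/-!
# Straight-line drawings
-/

set_option autoImplicit false

namespace Pool.Agent.U20.LP

open Set Complex Pool.Agent.TH510.Sefe
open Pool.Agent.H858R3.Poly (chart arc_seg)

/-- the cross product of two vectors -/
noncomputable def det (d e : ℂ) : ℝ := d.re * e.im - d.im * e.re

/-- near an inner point of a segment, the segment is the line -/
theorem line_near {x y z : ℂ} (hz : z ∈ segment ℝ x y) (hx : z ≠ x) (hy : z ≠ y) :
    ∃ U : Set ℂ, IsOpen U ∧ z ∈ U ∧ ∀ w ∈ U, (w ∈ segment ℝ x y ↔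
      (y.re - x.re) * (w.im - z.im) - (y.im - x.im) * (w.re - z.re) = 0) := by
  obtain ⟨a, b, ha0, hb0, hab, hz⟩ := hz
  have hxy : x ≠ y := by
    rintro rfl
    apply hx
    rw [← hz, ← add_smul, hab, one_smul]
  have ha : 0 < a := by
    rcases ha0.eq_or_lt with h | h
    · exfalso; apply hy
      rw [← hz, ← h]
      have : b = 1 := by linarith
      rw [this]; simp
    · exact h
  have hb : 0 < b := by
    rcases hb0.eq_or_lt with h | h
    · exfalso; apply hx
      rw [← hz, ← h]
      have : a = 1 := by linarith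
      rw [this]; simp
    · exact h
  set N : ℝ := (y.re - x.re) ^ 2 + (y.im - x.im) ^ 2 with hN
  have hN0 : 0 < N := by
    rcases eq_or_ne y.re x.re with h1 | h1
    · have h2 : y.im ≠ x.im := fun h2 => hxy (Complex.ext h1 h2).symm
      have := sq_pos_of_ne_zero (sub_ne_zero.2 h2)
      positivity
    · have := sq_pos_of_ne_zero (sub_ne_zero.2 h1)
      positivity
  set F : ℂ → ℝ := fun w => (y.re - x.re) * (w.re - x.re) + (y.im - x.im) * (w.im - x.im) with hF
  have ha' : a = 1 - b := by linarith
  have zre : z.re = x.re + b * (y.re - x.re) := by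
    rw [← hz, ha']; simp; ring
  have zim : z.im = x.im + b * (y.im - x.im) := by
    rw [← hz, ha']; simp; ring
  have hFz : F z = b * N := by
    simp only [hF, zre, zim, hN]; ring
  have hFc : Continuous F := by simp only [hF]; fun_prop
  refine ⟨{w | 0 < F w ∧ F w < N}, ?_, ?_, ?_⟩
  · exact (isOpen_lt continuous_const hFc).inter (isOpen_lt hFc continuous_const)
  · show 0 < F z ∧ F z < N
    rw [hFz]
    constructor
    · positivity
    · nlinarith
  · rintro w ⟨hw1, hw2⟩
    rw [zre, zim]
    constructor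
    · rintro ⟨a', b', -, -, hab', rfl⟩
      have : a' = 1 - b' := by linarith
      rw [this]
      simp
      ring
    · intro h
      have h' : (y.re - x.re) * (w.im - x.im) - (y.im - x.im) * (w.re - x.re) = 0 := by
        linear_combination h
      refine ⟨1 - F w / N, F w / N, ?_, ?_, by ring, ?_⟩
      · rw [sub_nonneg, div_le_one hN0]; exact hw2.le
      · positivity
      · apply Complex.ext
        · simp only [real_smul, add_re, mul_re, ofReal_re, ofReal_im, zero_mul, sub_zero]
          field_simp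
          simp only [hF, hN]
          linear_combination (y.im - x.im) * h'
        · simp only [real_smul, add_im, mul_im, ofReal_re, ofReal_im, zero_mul, add_zero]
          field_simp
          simp only [hF, hN]
          linear_combination (-(y.re - x.re)) * h'

theorem proper_seg {x y x' y' z : ℂ} (hz : z ∈ segment ℝ x y) (hz' : z ∈ segment ℝ x' y')
    (hx : z ≠ x) (hy : z ≠ y) (hx' : z ≠ x') (hy' : z ≠ y') (hD : det (y - x) (y' - x') ≠ 0) :
    IsProperCrossing (segment ℝ x y) (segment ℝ x' y') z := by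
  obtain ⟨U, hU, hzU, hUs⟩ := line_near hz hx hy
  obtain ⟨W, hW, hzW, hWt⟩ := line_near hz' hx' hy'
  set H := chart z (y - x) (y' - x') hD with hH
  have hOo : IsOpen (U ∩ W) := hU.inter hW
  refine ⟨H.toOpenPartialHomeomorph.restrOpen (U ∩ W) hOo, ?_, ?_, ?_⟩
  · show z ∈ H.toOpenPartialHomeomorph.source ∩ (U ∩ W)
    exact ⟨mem_univ _, hzU, hzW⟩
  · show H z = (0, 0)
    simp [hH, chart]
  · intro w hw
    obtain ⟨hwU, hwW⟩ := hw.2
    have hHw : (H.toOpenPartialHomeomorph.restrOpen (U ∩ W) hOo) w = H w := rfl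
    rw [hHw]
    constructor
    · have : (H w).2 = (y.re - x.re) * (w.im - z.im) - (y.im - x.im) * (w.re - z.re) := by
        simp [hH, chart]
      rw [this, ← hUs w hwU]
    · have : (H w).1 = (y'.re - x'.re) * (w.im - z.im) - (y'.im - x'.im) * (w.re - z.re) := by
        simp [hH, chart]
      rw [this, ← hWt w hwW]

theorem mem_seg {x y z : ℂ} (hz : z ∈ segment ℝ x y) : ∃ t : ℝ, 0 ≤ t ∧ t ≤ 1 ∧
    z.re = x.re + t * (y.re - x.re) ∧ z.im = x.im + t * (y.im - x.im) := by
  obtain ⟨a, b, ha, hb, hab, rfl⟩ := hz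
  have ha' : a = 1 - b := by linarith
  refine ⟨b, hb, by linarith, ?_, ?_⟩
  · rw [ha']; simp; ring
  · rw [ha']; simp; ring

/-- two segments that are not parallel have at most one common point -/
theorem seg_subsingleton {x y x' y' : ℂ} (hD : det (y - x) (y' - x') ≠ 0) :
    (segment ℝ x y ∩ segment ℝ x' y').Subsingleton := by
  rintro z ⟨h1, h2⟩ w ⟨h3, h4⟩
  obtain ⟨t, -, -, t1, t2⟩ := mem_seg h1
  obtain ⟨s, -, -, s1, s2⟩ := mem_seg h2
  obtain ⟨t', -, -, t1', t2'⟩ := mem_seg h3
  obtain ⟨s', -, -, s1', s2'⟩ := mem_seg h4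
  have hD' : (y.re - x.re) * (y'.im - x'.im) - (y.im - x.im) * (y'.re - x'.re) ≠ 0 := by
    simpa [det] using hD
  have e1 : (t - t') * (y.re - x.re) = (s - s') * (y'.re - x'.re) := by
    linear_combination (t1' - t1) + (s1 - s1')
  have e2 : (t - t') * (y.im - x.im) = (s - s') * (y'.im - x'.im) := by
    linear_combination (t2' - t2) + (s2 - s2')
  have e3 : (t - t') * ((y.re - x.re) * (y'.im - x'.im) - (y.im - x.im) * (y'.re - x'.re)) = 0 := by
    linear_combination (y'.im - x'.im) * e1 - (y'.re - x'.re) * e2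
  have e4 : t - t' = 0 := (mul_eq_zero.1 e3).resolve_right hD'
  apply Complex.ext
  · rw [t1, t1']; linear_combination (y.re - x.re) * e4
  · rw [t2, t2']; linear_combination (y.im - x.im) * e4

/-- a straight-line drawing -/
noncomputable def segDrawing {V : Type} (G : SimpleGraph V) (pt : V → ℂ)
    (hinj : Function.Injective pt)
    (havoid : ∀ a b w, G.Adj a b → pt w ∈ segment ℝ (pt a) (pt b) → w = a ∨ w = b)
    (hdet : ∀ a b c d, G.Adj a b → G.Adj c d → s(a, b) ≠ s(c, d) → ∀ z,
      z ∈ segment ℝ (pt a) (pt b) → z ∈ segment ℝ (pt c) (pt d) → z ∉ Set.range pt →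
      det (pt b - pt a) (pt d - pt c) ≠ 0) : Drawing G :=
  have harc : ∀ a b : V, {z : ℂ | ∃ c d, s(a, b) = s(c, d) ∧ z ∈ segment ℝ (pt c) (pt d)} =
      segment ℝ (pt a) (pt b) := by
    intro a b
    ext z
    constructor
    · rintro ⟨c, d, h, hz⟩
      rw [Sym2.eq_iff] at h
      rcases h with ⟨rfl, rfl⟩ | ⟨rfl, rfl⟩
      · exact hz
      · rw [segment_symm]; exact hz
    · intro hz
      exact ⟨a, b, rfl, hz⟩
  { pt := pt
    arc := fun e => {z | ∃ c d, e = s(c, d) ∧ z ∈ segment ℝ (pt c) (pt d)}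
    pt_inj := hinj
    isArc := by
      intro u v huv
      rw [harc]
      exact arc_seg (fun h => huv.ne (hinj h))
    avoid := by
      intro e he w hw
      induction e with
      | _ a b =>
        rw [harc] at hw
        rw [Sym2.mem_iff]
        exact havoid a b w he hw
    finite := by
      intro e he f hf hef
      induction e with
      | _ a b =>
      induction f with
      | _ c d =>
        rw [harc, harc]
        by_cases hD : det (pt b - pt a) (pt d - pt c) = 0
        · refine Set.Finite.subset ((Set.finite_singleton (pt a)).union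
            (Set.finite_singleton (pt b))) ?_
          rintro z ⟨h1, h2⟩
          have hz : z ∈ Set.range pt := by
            by_contra hcon
            exact hdet a b c d he hf hef z h1 h2 hcon hD
          obtain ⟨w, rfl⟩ := hz
          rcases havoid a b w he h1 with rfl | rfl
          · left; rfl
          · right; rfl
        · exact (seg_subsingleton hD).finite
    proper := by
      intro e he f hf hef z hz hzn
      induction e with
      | _ a b =>
      induction f with
      | _ c d =>
        rw [harc, harc] at hz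
        rw [harc, harc]
        exact proper_seg hz.1 hz.2 (fun h => hzn ⟨a, h.symm⟩) (fun h => hzn ⟨b, h.symm⟩)
          (fun h => hzn ⟨c, h.symm⟩) (fun h => hzn ⟨d, h.symm⟩)
          (hdet a b c d he hf hef z hz.1 hz.2 hzn) }

theorem segDrawing_crossings {V : Type} (G : SimpleGraph V) (pt : V → ℂ)
    (hinj : Function.Injective pt)
    (havoid : ∀ a b w, G.Adj a b → pt w ∈ segment ℝ (pt a) (pt b) → w = a ∨ w = b)
    (hdet : ∀ a b c d, G.Adj a b → G.Adj c d → s(a, b) ≠ s(c, d) → ∀ z,
      z ∈ segment ℝ (pt a) (pt b) → z ∈ segment ℝ (pt c) (pt d) → z ∉ Set.range pt →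
      det (pt b - pt a) (pt d - pt c) ≠ 0) {a b c d : V} {z : ℂ}
    (hz : z ∈ (segDrawing G pt hinj havoid hdet).crossings s(a, b) s(c, d)) :
    z ∈ segment ℝ (pt a) (pt b) ∧ z ∈ segment ℝ (pt c) (pt d) ∧ z ∉ Set.range pt := by
  obtain ⟨⟨⟨a', b', h1, h2⟩, ⟨c', d', h3, h4⟩⟩, h5⟩ := hz
  refine ⟨?_, ?_, h5⟩
  · rw [Sym2.eq_iff] at h1
    rcases h1 with ⟨rfl, rfl⟩ | ⟨rfl, rfl⟩
    · exact h2
    · rw [segment_symm]; exact h2
  · rw [Sym2.eq_iff] at h3
    rcases h3 with ⟨rfl, rfl⟩ | ⟨rfl, rfl⟩
    · exact h4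
    · rw [segment_symm]; exact h4

end Pool.Agent.U20.LP
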