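import Pool.Agent.U20.LP.Ord

/-!
# Soundness for `k ≥ 4`: stars with long legs
-/

set_option autoImplicit false

namespace Pool.Agent.U20.LP

open Set Complex Pool.Agent.TH510.Sefe

variable {V : Type} {G : SimpleGraph V}

theorem wheel_chain (D : Drawing G) {A v₁ v₂ v₃ v₄ : V} (a1 : G.Adj A v₁) (a2 : G.Adj A v₂)
    (a3 : G.Adj A v₃) (a4 : G.Adj A v₄) {l m : List V}
    (hl : l.IsChain (fun x y => G.Adj x y ∧ D.crossings s(x, y) s(A, v₃) = ∅ ∧
      D.crossings s(x, y) s(A, v₄) = ∅ ∧
      ∀ z w, [z, w] <:+: m → D.crossings s(x, y) s(z, w) = ∅))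
    (hm : m.IsChain (fun x y => G.Adj x y ∧ D.crossings s(x, y) s(A, v₁) = ∅ ∧
      D.crossings s(x, y) s(A, v₂) = ∅))
    (l1 : l.head? = some v₁) (l2 : l.getLast? = some v₂)
    (m1 : m.head? = some v₃) (m2 : m.getLast? = some v₄) (hAl : A ∉ l) (hAm : A ∉ m)
    (hd : ∀ x ∈ l, x ∉ m) : ori D A v₁ v₂ v₃ = ori D A v₁ v₂ v₄ := by
  apply ori_eq
  have pl : ∀ x y, [x, y] <:+: l → _ := fun x y h => List.isChain_pair.1 (chain_part hl h)
  have pm : ∀ x y, [x, y] <:+: m → _ := fun x y h => List.isChain_pair.1 (chain_part hm h)
  exact wheel_list D a1 a2 a3 a4 (hl.imp fun _ _ h => h.1) (hm.imp fun _ _ h => h.1) l1 l2 m1 m2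
    hAl hAm hd (fun x y h => (pl x y h).2.1) (fun x y h => (pl x y h).2.2.1)
    (fun x y h => (pm x y h).2.1) (fun x y h => (pm x y h).2.2)
    (fun x y z w h h' => (pl x y h).2.2.2 z w h')

theorem chain_rim {R : V → V → Prop} (hs : ∀ x y, R x y → R y x) {h : V} {t t' : List V}
    (c : (h :: t).IsChain R) (c' : (h :: t').IsChain R) : (t.reverse ++ h :: t').IsChain R := by
  rw [List.isChain_append]
  refine ⟨?_, c', ?_⟩
  · rw [List.isChain_reverse]
    exact (List.IsChain.tail c).imp fun a b h => hs a b h
  · intro x hx y hy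
    rw [List.getLast?_reverse] at hx
    simp only [List.head?_cons, Option.mem_def, Option.some.injEq] at hy
    subst hy
    exact hs _ _ ((List.isChain_cons.1 c).1 x hx)

/-- a leg from `h` to `b`, with the list `t` of vertices after `h` -/
structure Leg (G : SimpleGraph V) (k : ℕ) (A h b : V) (t : List V) : Prop where
  chain : (h :: t).IsChain G.Adj
  nodup : (h :: t).Nodup
  last : t.getLast? = some b
  len : t.length = k - 2
  apex : A ∉ h :: t

theorem Leg.ne {k : ℕ} {A h b : V} {t : List V} (L : Leg G k A h b t) : b ∈ t :=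
  List.mem_of_getLast? L.last

theorem Leg.lastc {k : ℕ} {A h b : V} {t : List V} (L : Leg G k A h b t) :
    (h :: t).getLast? = some b := by
  rw [List.getLast?_cons]
  simp [L.last]

/-- the reversed leg, continued at the leaf -/
theorem Leg.rev_chain {k : ℕ} {A h b c : V} {t : List V} (L : Leg G k A h b t)
    (hc : G.Adj c b) : (c :: (h :: t).reverse).IsChain G.Adj := by
  rw [List.isChain_cons]
  refine ⟨?_, ?_⟩
  · intro y hy
    rw [List.head?_reverse, L.lastc] at hy
    simp only [Option.mem_def, Option.some.injEq] at hy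
    rw [← hy]; exact hc
  · rw [List.isChain_reverse]
    exact L.chain.imp fun a b h => h.symm

section

variable {k : ℕ} {D : Drawing G} (hD : LocPlanarDrawing k D) {A : V}

include hD

/-- spokes do not cross -/
theorem nc_spokes (hk : 2 ≤ k) {a b : V} (ha : G.Adj A a) (hb : G.Adj A b) (hab : a ≠ b) :
    D.crossings s(A, a) s(A, b) = ∅ := by
  have h1 : [a, A] <:+: [a, A, b] := ⟨[], [b], rfl⟩
  have h2 : [A, b] <:+: [a, A, b] := ⟨[a], [], rfl⟩
  have := nc_of_list hD (l := [a, A, b]) (by simp [ha.ne', hb.ne, hab])
    (by simp [ha.symm, hb]) (by simpa using hk) h1 h2 (by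
      intro h
      rw [Sym2.eq_iff] at h
      rcases h with ⟨h, -⟩ | ⟨h, -⟩
      · exact ha.ne' h
      · exact hab h)
  rwa [Sym2.eq_swap (a := a)] at this

/-- a tie does not cross a spoke -/
theorem nc_tie_spoke (hk : 3 ≤ k) {b c w : V} (hb : G.Adj A b) (hc : G.Adj A c) (hbc : G.Adj b c)
    (hw : G.Adj A w) (hwb : w ≠ b) (hwc : w ≠ c) : D.crossings s(b, c) s(A, w) = ∅ := by
  have h1 : [b, c] <:+: [w, A, b, c] := ⟨[w, A], [], rfl⟩
  have h2 : [w, A] <:+: [w, A, b, c] := ⟨[], [b, c], rfl⟩
  have := nc_of_list hD (l := [w, A, b, c]) (by simp [hw.ne', hb.ne, hc.ne, hbc.ne, hwb, hwc])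
    (by simp [hw.symm, hb, hbc]) (by simpa using hk) h1 h2 (by
      intro h
      rw [Sym2.eq_iff] at h
      rcases h with ⟨-, h⟩ | ⟨h, -⟩
      · exact hc.ne' h
      · exact hb.ne' h)
  rwa [Sym2.eq_swap (a := w)] at this

/-- two ties do not cross -/
theorem nc_ties (hk : 4 ≤ k) {b c b' c' : V} (hb : G.Adj A b) (hc : G.Adj A c) (hbc : G.Adj b c)
    (hb' : G.Adj A b') (hc' : G.Adj A c') (hbc' : G.Adj b' c') (h1 : b ≠ b') (h2 : b ≠ c')
    (h3 : c ≠ b') (h4 : c ≠ c') : D.crossings s(b, c) s(b', c') = ∅ := by
  have e1 : [c, b] <:+: [c, b, A, b', c'] := ⟨[], [A, b', c'], rfl⟩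
  have e2 : [b', c'] <:+: [c, b, A, b', c'] := ⟨[c, b, A], [], rfl⟩
  have := nc_of_list hD (l := [c, b, A, b', c']) (by
      simp [hb.ne', hc.ne', hb'.ne, hc'.ne, hbc.ne', hbc'.ne, h1, h2, h3, h4])
    (by simp [hb.symm, hb', hbc.symm, hbc']) (by simpa using hk) e1 e2 (by
      intro h
      rw [Sym2.eq_iff] at h
      rcases h with ⟨h, -⟩ | ⟨h, -⟩
      · exact h3 h
      · exact h4 h)
  rwa [Sym2.eq_swap (a := c)] at this

/-- a leg does not cross a spoke -/
theorem nc_leg_spoke (hk : 3 ≤ k) {h b w : V} {t : List V} (L : Leg G k A h b t)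
    (hb : G.Adj A b) (hw : G.Adj A w) (hwt : w ∉ h :: t) {x y : V} (hxy : [x, y] <:+: h :: t) :
    D.crossings s(x, y) s(A, w) = ∅ := by
  have e1 : [y, x] <:+: w :: A :: (h :: t).reverse := by
    have : [y, x] <:+: (h :: t).reverse := by
      have := List.reverse_infix.2 hxy
      simpa using this
    exact this.trans (List.suffix_append [w, A] _).isInfix
  have e2 : [w, A] <:+: w :: A :: (h :: t).reverse := (List.prefix_append [w, A] _).isInfix
  have hx : x ∈ h :: t := hxy.subset (by simp)
  have hy : y ∈ h :: t := hxy.subset (by simp)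
  have hlen : (w :: A :: (h :: t).reverse).length ≤ k + 1 := by
    have := L.len
    simp only [List.length_cons, List.length_reverse]
    omega
  have := nc_of_list hD (l := w :: A :: (h :: t).reverse) (by
      rw [List.nodup_cons, List.nodup_cons, List.nodup_reverse, List.mem_reverse]
      refine ⟨?_, L.apex, L.nodup⟩
      rw [List.mem_cons, List.mem_reverse]
      rintro (h | h)
      · exact hw.ne' h
      · exact hwt h)
    (by rw [List.isChain_cons_cons]; exact ⟨hw.symm, L.rev_chain hb⟩) hlen e1 e2 (by
      intro h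
      rw [Sym2.eq_iff] at h
      rcases h with ⟨h, -⟩ | ⟨h, -⟩
      · exact hwt (h ▸ hy)
      · exact L.apex (h ▸ hy))
  rwa [Sym2.eq_swap (a := y), Sym2.eq_swap (a := w)] at this

/-- a leg does not cross the tie at another leg of the same star -/
theorem nc_leg_tie (hk : 4 ≤ k) {h b b' c' : V} {t t' : List V} (L : Leg G k A h b t)
    (L' : Leg G k A h b' t') (hb : G.Adj A b) (hb' : G.Adj A b') (hc' : G.Adj A c')
    (hbc' : G.Adj b' c') (hdis : ∀ x ∈ t, x ∉ t') (hct : c' ∉ h :: t) (hct' : c' ∉ h :: t')
    {x y : V} (hxy : [x, y] <:+: h :: t) : D.crossings s(x, y) s(b', c') = ∅ := by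
  have hk' : t.length = k - 2 := L.len
  have hk2 : t'.length = k - 2 := L'.len
  have hb't' : b' ∈ t' := L'.ne
  have hb't : b' ∉ h :: t := by
    rw [List.mem_cons]
    rintro (h | h)
    · have := L'.nodup
      rw [List.nodup_cons] at this
      exact this.1 (h ▸ hb't')
    · exact hdis b' h hb't'
  rw [List.infix_cons_iff] at hxy
  rcases hxy with hxy | hxy
  · -- the first piece
    rw [List.cons_prefix_cons] at hxy
    obtain ⟨rfl, hy⟩ := hxy
    obtain ⟨r, rfl⟩ := hy
    simp only [List.cons_append, List.nil_append] at *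
    have e1 : [x, y] <:+: c' :: ((x :: t').reverse ++ [y]) := by
      refine ⟨c' :: t'.reverse, [], ?_⟩
      simp
    have e2 : [c', b'] <:+: c' :: ((x :: t').reverse ++ [y]) := by
      have : [c', b'] <+: c' :: (x :: t').reverse := by
        rw [List.cons_prefix_cons]
        refine ⟨rfl, ?_⟩
        obtain ⟨s, hs⟩ := List.head?_eq_some_iff.1 (show (x :: t').reverse.head? = some b' by
          rw [List.head?_reverse, L'.lastc])
        rw [hs]
        exact List.prefix_append [b'] s
      exact (this.trans (List.prefix_append _ [y])).isInfix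
    have hyt : y ∈ y :: r := by simp
    have := nc_of_list hD (l := c' :: ((x :: t').reverse ++ [y])) (by
        rw [List.nodup_cons, List.nodup_append, List.nodup_reverse]
        refine ⟨?_, L'.nodup, by simp, ?_⟩
        · rw [List.mem_append, List.mem_reverse, List.mem_singleton]
          rintro (h | h)
          · exact hct' h
          · exact hct (by rw [h]; simp)
        · intro a ha b hb hab
          rw [List.mem_reverse, List.mem_cons] at ha
          rw [List.mem_singleton] at hb
          subst hb hab
          rcases ha with ha | ha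
          · have := L.nodup
            rw [List.nodup_cons] at this
            exact this.1 (ha ▸ hyt)
          · exact hdis a hyt ha)
      (by
        rw [← List.cons_append, List.isChain_append]
        refine ⟨L'.rev_chain hbc'.symm, by simp, ?_⟩
        intro a ha b hb
        have h1 : (c' :: (x :: t').reverse).getLast? = some x := by
          rw [List.reverse_cons, ← List.cons_append, List.getLast?_append]
          simp
        rw [h1] at ha
        simp only [Option.mem_def, Option.some.injEq, List.head?_cons] at ha hb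
        subst ha hb
        have := L.chain
        rw [List.isChain_cons_cons] at this
        exact this.1)
      (by
        simp only [List.length_cons, List.length_append, List.length_reverse, List.length_nil]
        omega) e1 e2 (by
        intro h
        rw [Sym2.eq_iff] at h
        rcases h with ⟨-, h⟩ | ⟨-, h⟩
        · exact hb't (by rw [← h]; simp)
        · exact hct (by rw [← h]; simp))
    rwa [Sym2.eq_swap (a := c')] at this
  · -- the other pieces
    have e1 : [y, x] <:+: b' :: c' :: A :: t.reverse := by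
      have h1 : [y, x] <:+: t.reverse := by
        have := List.reverse_infix.2 hxy
        simpa using this
      exact h1.trans (List.suffix_append [b', c', A] _).isInfix
    have e2 : [b', c'] <:+: b' :: c' :: A :: t.reverse :=
      (List.prefix_append [b', c'] _).isInfix
    have hy : y ∈ t := hxy.subset (by simp)
    have hx : x ∈ t := hxy.subset (by simp)
    have := nc_of_list hD (l := b' :: c' :: A :: t.reverse) (by
        rw [List.nodup_cons, List.nodup_cons, List.nodup_cons, List.nodup_reverse, List.mem_cons,
          List.mem_cons, List.mem_reverse, List.mem_cons, List.mem_reverse, List.mem_reverse]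
        refine ⟨?_, ?_, ?_, (List.nodup_cons.1 L.nodup).2⟩
        · rintro (h | h | h)
          · exact hbc'.ne h
          · exact hb'.ne' h
          · exact hb't (List.mem_cons_of_mem _ h)
        · rintro (h | h)
          · exact hc'.ne' h
          · exact hct (List.mem_cons_of_mem _ h)
        · intro h
          exact L.apex (List.mem_cons_of_mem _ h))
      (by
        rw [List.isChain_cons_cons, List.isChain_cons_cons, List.isChain_cons,
          List.isChain_reverse]
        refine ⟨hbc', hc'.symm, ?_, (List.IsChain.tail L.chain).imp fun a b h => h.symm⟩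
        intro z hz
        rw [List.head?_reverse, L.last] at hz
        simp only [Option.mem_def, Option.some.injEq] at hz
        rw [← hz]; exact hb)
      (by
        simp only [List.length_cons, List.length_reverse]
        omega) e1 e2 (by
        intro h
        rw [Sym2.eq_iff] at h
        rcases h with ⟨h, -⟩ | ⟨h, -⟩
        · exact hb't (by rw [← h]; exact List.mem_cons_of_mem _ hy)
        · exact hct (by rw [← h]; exact List.mem_cons_of_mem _ hy))
    rwa [Sym2.eq_swap (a := y)] at this

end

end Pool.Agent.U20.LP
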