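import Pool.Agent.U20.LP.FamA

/-!
# Soundness for `k ≥ 4`
-/

set_option autoImplicit false

namespace Pool.Agent.U20.LP

open Pool.Agent.H622R2 Pool.Agent.TH510.Sefe

namespace Dat

variable {d : Dat}

theorem vx_at_ne (hW : d.WF) {g g' : Ga} (hg : g ∈ d.cv) (hg' : g' ∈ d.cv) (h : g ≠ g') :
    d.vx (at' g) ≠ d.vx (at' g') :=
  fun e => h ((at_inj _ _).1 (vx_inj (at_mem hg) (at_mem hg') e))

/-- transfer through a star of the graph -/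
theorem star_transfer (hW : d.WF) {k : ℕ} (hk : k = d.L + 2) (hk4 : 4 ≤ k) {D : Drawing d.gr}
    (hD : LocPlanarDrawing k D) {h b₁ b₂ b₃ c₁ c₂ c₃ : Ga}
    (l₁ : (h, b₁) ∈ d.lg) (l₂ : (h, b₂) ∈ d.lg) (l₃ : (h, b₃) ∈ d.lg)
    (ab₁ : b₁ ∈ d.att) (ab₂ : b₂ ∈ d.att) (ab₃ : b₃ ∈ d.att)
    (ac₁ : c₁ ∈ d.att) (ac₂ : c₂ ∈ d.att) (ac₃ : c₃ ∈ d.att)
    (e₁ : d.gr.Adj (d.vx (at' b₁)) (d.vx (at' c₁))) (e₂ : d.gr.Adj (d.vx (at' b₂)) (d.vx (at' c₂)))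
    (e₃ : d.gr.Adj (d.vx (at' b₃)) (d.vx (at' c₃)))
    (b12 : b₁ ≠ b₂) (b13 : b₁ ≠ b₃) (b23 : b₂ ≠ b₃) (m12 : c₁ ≠ c₂) (m13 : c₁ ≠ c₃) (m23 : c₂ ≠ c₃)
    (hn : ∀ c, (c = c₁ ∨ c = c₂ ∨ c = c₃) → c ≠ h ∧ c ≠ b₁ ∧ c ≠ b₂ ∧ c ≠ b₃) :
    ori D (d.vx ap) (d.vx (at' b₁)) (d.vx (at' b₂)) (d.vx (at' b₃)) =
      ori D (d.vx ap) (d.vx (at' c₁)) (d.vx (at' c₂)) (d.vx (at' c₃)) := by
  subst hk
  refine transfer hD hk4 (leg hW l₁) (leg hW l₂) (leg hW l₃) (leg_disj' hW l₁ l₂ rfl b12)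
    (leg_disj' hW l₁ l₃ rfl b13) (leg_disj' hW l₂ l₃ rfl b23) (adj_att hW ab₁) (adj_att hW ab₂)
    (adj_att hW ab₃) (adj_att hW ac₁) (adj_att hW ac₂) (adj_att hW ac₃) e₁ e₂ e₃ ?_
    (vx_at_ne hW (hW.att_cv _ ac₁) (hW.att_cv _ ac₂) m12)
    (vx_at_ne hW (hW.att_cv _ ac₁) (hW.att_cv _ ac₃) m13)
    (vx_at_ne hW (hW.att_cv _ ac₂) (hW.att_cv _ ac₃) m23)
  have key : ∀ c, c ∈ d.att → (c = c₁ ∨ c = c₂ ∨ c = c₃) →
      d.vx (at' c) ∉ d.vx (at' h) :: d.tl (h, b₁) ∧ d.vx (at' c) ∉ d.vx (at' h) :: d.tl (h, b₂) ∧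
      d.vx (at' c) ∉ d.vx (at' h) :: d.tl (h, b₃) := by
    intro c ac hc
    obtain ⟨n0, n1, n2, n3⟩ := hn c hc
    exact ⟨at_notMem_leg hW l₁ (hW.att_cv _ ac) n0 n1, at_notMem_leg hW l₂ (hW.att_cv _ ac) n0 n2,
      at_notMem_leg hW l₃ (hW.att_cv _ ac) n0 n3⟩
  rintro c (rfl | rfl | rfl)
  · exact key c₁ ac₁ (Or.inl rfl)
  · exact key c₂ ac₂ (Or.inr (Or.inl rfl))
  · exact key c₃ ac₃ (Or.inr (Or.inr rfl))

/-- the double star of the graph -/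
theorem star_double (hW : d.WF) {k : ℕ} (hk : k = d.L + 2) (hk4 : 4 ≤ k) {D : Drawing d.gr}
    (hD : LocPlanarDrawing k D) {z w r i l j : Ga}
    (lzr : (z, r) ∈ d.lg) (lzi : (z, i) ∈ d.lg) (lzl : (z, l) ∈ d.lg)
    (lwr : (w, r) ∈ d.lg) (lwl : (w, l) ∈ d.lg) (lwj : (w, j) ∈ d.lg) (hzw : (z, w) ∈ d.ed)
    (ar : r ∈ d.att) (ai : i ∈ d.att) (al : l ∈ d.att) (aj : j ∈ d.att) (zw : z ≠ w)
    (hz : ∀ x, (x = r ∨ x = i ∨ x = l ∨ x = j) → z ≠ x ∧ x ≠ w)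
    (rl : r ≠ l) (ij : i ≠ j) (ir : i ≠ r) (il : i ≠ l) (jr : j ≠ r) (jl : j ≠ l) :
    ori D (d.vx ap) (d.vx (at' r)) (d.vx (at' i)) (d.vx (at' l)) =
      ori D (d.vx ap) (d.vx (at' r)) (d.vx (at' l)) (d.vx (at' j)) := by
  subst hk
  have hr := hz r (Or.inl rfl)
  have hi := hz i (Or.inr (Or.inl rfl))
  have hl := hz l (Or.inr (Or.inr (Or.inl rfl)))
  have hj := hz j (Or.inr (Or.inr (Or.inr rfl)))
  exact double_star hD hk4 (leg hW lzr) (leg hW lzi) (leg hW lzl) (leg hW lwr) (leg hW lwl)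
    (leg hW lwj) (adj_ed hW hzw)
    (leg_disj hW lzi lwl zw hl.1 hi.2 il) (leg_disj hW lzi lwj zw hj.1 hi.2 ij)
    (leg_disj hW lzr lwl zw hl.1 hr.2 rl) (leg_disj hW lzr lwj zw hj.1 hr.2 jr.symm)
    (leg_disj hW lzi lwr zw hr.1 hi.2 ir) (leg_disj hW lzl lwr zw hr.1 hl.2 rl.symm)
    (leg_disj hW lzl lwj zw hj.1 hl.2 jl.symm)
    (adj_att hW ar) (adj_att hW ai) (adj_att hW al) (adj_att hW aj)
    (vx_at_ne hW (hW.att_cv _ ar) (hW.att_cv _ al) rl)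
    (vx_at_ne hW (hW.att_cv _ ai) (hW.att_cv _ aj) ij)
    (vx_at_ne hW (hW.att_cv _ ai) (hW.att_cv _ ar) ir)
    (vx_at_ne hW (hW.att_cv _ ai) (hW.att_cv _ al) il)
    (vx_at_ne hW (hW.att_cv _ aj) (hW.att_cv _ ar) jr)
    (vx_at_ne hW (hW.att_cv _ aj) (hW.att_cv _ al) jl)

end Dat

open Dat

/-- soundness for one triple, for abstract data -/
theorem sound_triple {d : Dat} (hW : d.WF) {k : ℕ} (hk : k = d.L + 2) (hk4 : 4 ≤ k)
    {D : Drawing d.gr} (hD : LocPlanarDrawing k D) (s : ℕ) (e : ℕ → ℕ)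
    (einj : ∀ q q', q < 4 → q' < 4 → q ≠ q' → e q ≠ e q')
    (av : ∀ q < 4, vE (e q) ∈ d.att) (ac : ∀ q < 4, cE s q ∈ d.att) (ab : ∀ q < 4, bE s q ∈ d.att)
    (lu : ∀ q < 4, (uE, vE (e q)) ∈ d.lg) (lz : ∀ q < 3, (zE s, bE s q) ∈ d.lg)
    (lw : ∀ q < 4, q ≠ 1 → (wE s, bE s q) ∈ d.lg) (t1 : ∀ q < 4, (vE (e q), cE s q) ∈ d.ed)
    (t2 : ∀ q < 4, (cE s q, bE s q) ∈ d.ed) (br : (zE s, wE s) ∈ d.ed) :
    ori D (d.vx ap) (d.vx (at' (vE (e 0)))) (d.vx (at' (vE (e 1)))) (d.vx (at' (vE (e 2)))) =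
      ori D (d.vx ap) (d.vx (at' (vE (e 0)))) (d.vx (at' (vE (e 2)))) (d.vx (at' (vE (e 3)))) := by
  have tu : ∀ i j l, i < 4 → j < 4 → l < 4 → i ≠ j → i ≠ l → j ≠ l →
      ori D (d.vx ap) (d.vx (at' (vE (e i)))) (d.vx (at' (vE (e j)))) (d.vx (at' (vE (e l)))) =
      ori D (d.vx ap) (d.vx (at' (cE s i))) (d.vx (at' (cE s j))) (d.vx (at' (cE s l))) := by
    intro i j l hi hj hl hij hil hjl
    have vne : ∀ {q q'}, q < 4 → q' < 4 → q ≠ q' → vE (e q) ≠ vE (e q') := by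
      intro q q' h1 h2 h3 h
      exact einj q q' h1 h2 h3 (by simpa [vE] using h)
    refine star_transfer hW hk hk4 hD (lu i hi) (lu j hj) (lu l hl) (av i hi) (av j hj) (av l hl)
      (ac i hi) (ac j hj) (ac l hl) (adj_ed hW (t1 i hi)) (adj_ed hW (t1 j hj))
      (adj_ed hW (t1 l hl)) (vne hi hj hij) (vne hi hl hil) (vne hj hl hjl) ?_ ?_ ?_ ?_
    · simp [cE, hij]
    · simp [cE, hil]
    · simp [cE, hjl]
    · rintro c (rfl | rfl | rfl) <;> simp [cE, uE, vE]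
  have tk : ∀ (h : Ga) (i j l : ℕ), (∀ q, cE s q ≠ h) → i < 4 → j < 4 → l < 4 →
      i ≠ j → i ≠ l → j ≠ l → (h, bE s i) ∈ d.lg → (h, bE s j) ∈ d.lg → (h, bE s l) ∈ d.lg →
      ori D (d.vx ap) (d.vx (at' (bE s i))) (d.vx (at' (bE s j))) (d.vx (at' (bE s l))) =
      ori D (d.vx ap) (d.vx (at' (cE s i))) (d.vx (at' (cE s j))) (d.vx (at' (cE s l))) := by
    intro h i j l hch hi hj hl hij hil hjl li lj ll
    refine star_transfer hW hk hk4 hD li lj ll (ab i hi) (ab j hj) (ab l hl)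
      (ac i hi) (ac j hj) (ac l hl) (adj_ed hW (t2 i hi)).symm (adj_ed hW (t2 j hj)).symm
      (adj_ed hW (t2 l hl)).symm ?_ ?_ ?_ ?_ ?_ ?_ ?_
    · simp [bE, hij]
    · simp [bE, hil]
    · simp [bE, hjl]
    · simp [cE, hij]
    · simp [cE, hil]
    · simp [cE, hjl]
    · rintro c (rfl | rfl | rfl)
      · exact ⟨hch i, by simp [cE, bE]⟩
      · exact ⟨hch j, by simp [cE, bE]⟩
      · exact ⟨hch l, by simp [cE, bE]⟩
  have ds := star_double hW hk hk4 hD (lz 0 (by omega)) (lz 1 (by omega)) (lz 2 (by omega))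
    (lw 0 (by omega) (by omega)) (lw 2 (by omega) (by omega)) (lw 3 (by omega) (by omega)) br
    (ab 0 (by omega)) (ab 1 (by omega)) (ab 2 (by omega)) (ab 3 (by omega)) (by simp [zE, wE])
    (by rintro x (rfl | rfl | rfl | rfl) <;> simp [zE, wE, bE])
    (by simp [bE]) (by simp [bE]) (by simp [bE]) (by simp [bE]) (by simp [bE]) (by simp [bE])
  have u1 := tu 0 1 2 (by omega) (by omega) (by omega) (by omega) (by omega) (by omega)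
  have u2 := tu 0 2 3 (by omega) (by omega) (by omega) (by omega) (by omega) (by omega)
  have k1 := tk (zE s) 0 1 2 (by simp [zE, cE]) (by omega) (by omega)
    (by omega) (by omega) (by omega) (by omega) (lz 0 (by omega)) (lz 1 (by omega))
    (lz 2 (by omega))
  have k2 := tk (wE s) 0 2 3 (by simp [wE, cE]) (by omega) (by omega)
    (by omega) (by omega) (by omega) (by omega) (lw 0 (by omega) (by omega))
    (lw 2 (by omega) (by omega)) (lw 3 (by omega) (by omega))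
  rw [u1, u2, ← k1, ← k2]
  exact ds

variable {N : ℕ} {T : List (ℕ × ℕ × ℕ)} {L : ℕ}

theorem soundA (hN : 0 < N) (hT : OKT N T) (hL : 2 ≤ L)
    (h : LocPlanar (L + 2) (datA N T L).gr) :
    ∃ (V : Type) (W : V → Prop) (o : V → V → V → ℤ) (v : ℕ → V), Cyc W o ∧
      (∀ x y, x < N → y < N → v x = v y → x = y) ∧ (∀ x < N, W (v x)) ∧
      ∀ t ∈ T, o (v 0) (v t.1) (v t.2.1) = o (v 0) (v t.2.1) (v t.2.2) := by
  obtain ⟨D, hD⟩ := h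
  have hW : (datA N T L).WF := wfA hN hT (by omega)
  have attv : ∀ {x : ℕ}, x < N → vE x ∈ (datA N T L).att :=
    fun hx => (memA_att _).2 (Or.inl ⟨_, hx, rfl⟩)
  refine ⟨{x // x ∈ (datA N T L).vl}, fun x => (datA N T L).gr.Adj ((datA N T L).vx ap) x,
    ori D ((datA N T L).vx ap), fun x => (datA N T L).vx (at' (vE x)), ?_, ?_, ?_, ?_⟩
  · exact ori_cyc D _ _ (fun x hx => hx) fun x y hx hy hxy => nc_spokes hD (by omega) hx hy hxy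
  · intro x y hx hy hxy
    have := vx_inj (at_mem (hW.att_cv _ (attv hx))) (at_mem (hW.att_cv _ (attv hy))) hxy
    simpa [vE] using this
  · intro x hx
    exact adj_att hW (attv hx)
  · intro t ht
    obtain ⟨s, hs, rfl⟩ := List.getElem_of_mem ht
    have hg : T.getD s (0, 0, 0) = T[s] := by
      rw [List.getD_eq_getElem?_getD, List.getElem?_eq_getElem hs]; rfl
    have key := sound_triple hW (k := L + 2) rfl (by omega) hD s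
      (fun q => tq (T.getD s (0, 0, 0)) q) (fun q q' h1 h2 h3 h => h3 (tq_inj hT hs h1 h2 h))
      (fun q _ => attv (tq_lt hN hT hs q)) (fun q hq => (memA_att _).2 (Or.inr (Or.inl ⟨_, hs, _, hq, rfl⟩)))
      (fun q hq => (memA_att _).2 (Or.inr (Or.inr ⟨_, hs, _, hq, rfl⟩)))
      (fun q _ => (memA_lg _).2 (Or.inl ⟨_, tq_lt hN hT hs q, rfl⟩))
      (fun q hq => (memA_lg _).2 (Or.inr ⟨s, hs, Or.inl ⟨q, hq, rfl⟩⟩))
      (fun q hq hq1 => (memA_lg _).2 (Or.inr ⟨s, hs, Or.inr ⟨q, hq, hq1, rfl⟩⟩))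
      (fun q hq => (memA_ed _).2 ⟨s, hs, Or.inl ⟨q, hq, Or.inl rfl⟩⟩)
      (fun q hq => (memA_ed _).2 ⟨s, hs, Or.inl ⟨q, hq, Or.inr rfl⟩⟩)
      ((memA_ed _).2 ⟨s, hs, Or.inr rfl⟩)
    simp only [hg] at key
    exact key

end Pool.Agent.U20.LP
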