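import Pool.Agent.U20.LP.FamB

/-!
# Soundness for `k = 3`
-/

set_option autoImplicit false

namespace Pool.Agent.U20.LP

open Pool.Agent.H622R2 Pool.Agent.TH510.Sefe Dat

/-- the gap lemma in the graph -/
theorem Dat.gap_gr {d : Dat} (hW : d.WF) {k : ℕ} (hk : 3 ≤ k) {D : Drawing d.gr}
    (hD : LocPlanarDrawing k D) {h : Ga} (hh : h ∈ d.cv) (y₁ y₂ w w' : {x // x ∈ d.vl})
    (l1 : d.gr.Adj (d.vx ap) y₁ ∧ d.gr.Adj (d.vx (at' h)) y₁)
    (l2 : d.gr.Adj (d.vx ap) y₂ ∧ d.gr.Adj (d.vx (at' h)) y₂)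
    (lw : d.gr.Adj (d.vx ap) w ∧ d.gr.Adj (d.vx (at' h)) w)
    (aw' : d.gr.Adj (d.vx ap) w') (hn : ¬ d.gr.Adj (d.vx ap) (d.vx (at' h)))
    (ww : d.gr.Adj w w') (n12 : y₁ ≠ y₂) (n1 : y₁ ≠ w)
    (n2 : y₂ ≠ w) (n1' : y₁ ≠ w') (n2' : y₂ ≠ w') :
    ori D (d.vx ap) y₁ y₂ w = ori D (d.vx ap) y₁ y₂ w' := by
  refine gap hD hk l1.1 l2.1 lw.1 aw' l1.2 l2.2 lw.2 ww n12 n1 n2 n1' n2' ?_ ?_
  · rintro rfl
    exact hn aw'
  · intro e
    exact ap_ne_at h (vx_inj ap_mem (at_mem hh) e)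

theorem not_att {d : Dat} (hW : d.WF) {h : Ga} (hh : h ∈ d.cv) (ha : h ∉ d.att) :
    ¬ d.gr.Adj (d.vx ap) (d.vx (at' h)) := by
  rw [adj_iff, vx_val ap_mem, vx_val (at_mem hh)]
  rintro ⟨-, h1 | h1⟩
  · rw [mem_es] at h1
    rcases h1 with ⟨-, g, hg, h2⟩ | ⟨e, he, h2, -⟩ | ⟨l, hl, i, hi, h2, -⟩
    · rw [at_inj] at h2
      exact ha (h2 ▸ hg)
    · exact ap_ne_at _ h2
    · exact ap_ne_lv _ _ _ h2
  · rw [mem_es] at h1
    rcases h1 with ⟨h2, -⟩ | ⟨e, he, -, h2⟩ | ⟨l, hl, i, hi, -, h2⟩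
    · exact ap_ne_at _ h2.symm
    · exact ap_ne_at _ h2
    · exact ap_ne_lv _ _ _ h2

variable {N : ℕ} {T : List (ℕ × ℕ × ℕ)}

theorem soundB (hN : 0 < N) (hT : OKT N T) (h : LocPlanar 3 (datB N T).gr) :
    ∃ (V : Type) (W : V → Prop) (o : V → V → V → ℤ) (v : ℕ → V), Cyc W o ∧
      (∀ x y, x < N → y < N → v x = v y → x = y) ∧ (∀ x < N, W (v x)) ∧
      ∀ t ∈ T, o (v 0) (v t.1) (v t.2.1) = o (v 0) (v t.2.1) (v t.2.2) := by
  obtain ⟨D, hD⟩ := h
  have hW : (datB N T).WF := wfB hN hT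
  generalize hd : datB N T = d at *
  have attv : ∀ {x : ℕ}, x < N → vE x ∈ d.att := by
    rw [← hd]; exact fun hx => (memB_att _).2 (Or.inr (Or.inl ⟨_, hx, rfl⟩))
  have atte : ∀ {x i : ℕ}, x < N → i < 2 → eE x i ∈ d.att := by
    rw [← hd]
    intro x i hx hi
    have : i = 0 ∨ i = 1 := by omega
    rcases this with rfl | rfl
    · exact (memB_att _).2 (Or.inl ⟨_, hx, rfl⟩)
    · exact (memB_att _).2 (Or.inr (Or.inr (Or.inl ⟨_, hx, rfl⟩)))
  have attc : ∀ {s q : ℕ}, s < T.length → q < 4 → cE s q ∈ d.att := by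
    rw [← hd]
    exact fun hs hq => (memB_att _).2 (Or.inr (Or.inr (Or.inr (Or.inl ⟨_, hs, _, hq, rfl⟩))))
  have attb : ∀ {s q : ℕ}, s < T.length → q < 4 → bE s q ∈ d.att := by
    rw [← hd]
    exact fun hs hq => (memB_att _).2
      (Or.inr (Or.inr (Or.inr (Or.inr (Or.inl ⟨_, hs, _, hq, rfl⟩)))))
  have attd : ∀ {s q : ℕ}, s < T.length → q < 4 → dE s q ∈ d.att := by
    rw [← hd]
    exact fun hs hq => (memB_att _).2
      (Or.inr (Or.inr (Or.inr (Or.inr (Or.inr ⟨_, hs, _, hq, rfl⟩)))))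
  have hcu : uE ∈ d.cv := by rw [← hd, memB_cv]; simp
  have hcz : ∀ {s : ℕ}, s < T.length → zE s ∈ d.cv := by
    intro s hs
    rw [← hd, memB_cv]
    exact Or.inr (Or.inr (Or.inr (Or.inr (Or.inr (Or.inr (Or.inl ⟨s, hs, rfl⟩))))))
  have nau : uE ∉ d.att := by
    rw [← hd, memB_att]
    simp [uE, eE, vE, cE, bE, dE]
  have naz : ∀ s, zE s ∉ d.att := by
    intro s
    rw [← hd, memB_att]
    simp [zE, eE, vE, cE, bE, dE]
  have e1 : ∀ {p : Ga × Ga}, T1 N p → p ∈ d.ed := by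
    rw [← hd]; exact fun h => (memB_ed _).2 (Or.inl h)
  have e2 : ∀ {p : Ga × Ga}, T2 N p → p ∈ d.ed := by
    rw [← hd]; exact fun h => (memB_ed _).2 (Or.inr (Or.inl h))
  have e3 : ∀ {s : ℕ} {p : Ga × Ga}, s < T.length → T3 T s p → p ∈ d.ed := by
    rw [← hd]; exact fun hs h => (memB_ed _).2 (Or.inr (Or.inr ⟨_, hs, Or.inl h⟩))
  have e4 : ∀ {s : ℕ} {p : Ga × Ga}, s < T.length → T4 s p → p ∈ d.ed := by
    rw [← hd]; exact fun hs h => (memB_ed _).2 (Or.inr (Or.inr ⟨_, hs, Or.inr (Or.inl h)⟩))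
  have e5 : ∀ {s : ℕ} {p : Ga × Ga}, s < T.length → T5 s p → p ∈ d.ed := by
    rw [← hd]; exact fun hs h => (memB_ed _).2 (Or.inr (Or.inr ⟨_, hs, Or.inr (Or.inr h)⟩))
  have hcyc : Cyc (fun x => d.gr.Adj (d.vx ap) x) (ori D (d.vx ap)) :=
    ori_cyc D _ _ (fun x hx => hx) fun x y hx hy hxy => nc_spokes hD (by omega) hx hy hxy
  refine ⟨{x // x ∈ d.vl}, fun x => d.gr.Adj (d.vx ap) x,
    ori D (d.vx ap), fun x => d.vx (at' (vE x)), hcyc, ?_, ?_, ?_⟩
  · intro x y hx hy hxy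
    have := vx_inj (at_mem (hW.att_cv _ (attv hx))) (at_mem (hW.att_cv _ (attv hy))) hxy
    simpa [vE] using this
  · intro x hx
    exact adj_att hW (attv hx)
  · intro t ht
    obtain ⟨s, hs, rfl⟩ := List.getElem_of_mem ht
    have hg : T.getD s (0, 0, 0) = T[s] := by
      rw [List.getD_eq_getElem?_getD, List.getElem?_eq_getElem hs]; rfl
    obtain ⟨e, he⟩ : ∃ e : ℕ → ℕ, ∀ q, e q = tq (T.getD s (0, 0, 0)) q := ⟨_, fun _ => rfl⟩
    have elt : ∀ q, e q < N := fun q => by rw [he]; exact tq_lt hN hT hs q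
    have einj : ∀ q q', q < 4 → q' < 4 → q ≠ q' → e q ≠ e q' := fun q q' h1 h2 h3 h =>
      h3 (tq_inj hT hs h1 h2 (by rw [← he, ← he]; exact h))
    -- the star of the elements
    have star : ∀ f : ℕ → ℕ, (∀ i, i < 3 → f i < 4) →
        (∀ i j, i < 3 → j < 3 → f i = f j → i = j) →
        ori D (d.vx ap) (d.vx (at' (vE (e (f 0))))) (d.vx (at' (vE (e (f 1)))))
          (d.vx (at' (vE (e (f 2))))) =
        ori D (d.vx ap) (d.vx (at' (cE s (f 0)))) (d.vx (at' (cE s (f 1))))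
          (d.vx (at' (cE s (f 2)))) := by
      intro f hf finj
      obtain ⟨Q, hQ⟩ : ∃ Q : ℕ → Ga, ∀ i, Q i = (if i < 3 then eE (e (f i)) 0 else
        if i < 6 then vE (e (f (i - 3))) else if i < 9 then eE (e (f (i - 6))) 1 else
        cE s (f (i - 9))) := ⟨_, fun _ => rfl⟩
      have q0 : ∀ i, i < 3 → Q i = eE (e (f i)) 0 := fun i hi => by rw [hQ, if_pos hi]
      have q1 : ∀ i, i < 3 → Q (3 + i) = vE (e (f i)) := fun i hi => by
        rw [hQ, if_neg (by omega), if_pos (by omega), show 3 + i - 3 = i by omega]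
      have q2 : ∀ i, i < 3 → Q (6 + i) = eE (e (f i)) 1 := fun i hi => by
        rw [hQ, if_neg (by omega), if_neg (by omega), if_pos (by omega),
          show 6 + i - 6 = i by omega]
      have q3 : ∀ i, i < 3 → Q (9 + i) = cE s (f i) := fun i hi => by
        rw [hQ, if_neg (by omega), if_neg (by omega), if_neg (by omega),
          show 9 + i - 9 = i by omega]
      have efinj : ∀ i j, i < 3 → j < 3 → e (f i) = e (f j) → i = j := by
        intro i j hi hj h
        by_contra hne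
        exact einj _ _ (hf i hi) (hf j hj) (fun h' => hne (finj i j hi hj h')) h
      have f12 : ∀ i, i < 12 → i < 3 ∨ (∃ j, j < 3 ∧ i = 3 + j) ∨ (∃ j, j < 3 ∧ i = 6 + j) ∨
          (∃ j, j < 3 ∧ i = 9 + j) := by
        intro i hi
        by_cases h3 : i < 3
        · exact Or.inl h3
        · by_cases h6 : i < 6
          · exact Or.inr (Or.inl ⟨i - 3, by omega, by omega⟩)
          · by_cases h9 : i < 9
            · exact Or.inr (Or.inr (Or.inl ⟨i - 6, by omega, by omega⟩))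
            · exact Or.inr (Or.inr (Or.inr ⟨i - 9, by omega, by omega⟩))
      have hat : ∀ i, i < 12 → Q i ∈ d.att := by
        intro i hi
        rcases f12 i hi with h | ⟨j, hj, rfl⟩ | ⟨j, hj, rfl⟩ | ⟨j, hj, rfl⟩
        · rw [q0 i h]; exact atte (elt _) (by omega)
        · rw [q1 j hj]; exact attv (elt _)
        · rw [q2 j hj]; exact atte (elt _) (by omega)
        · rw [q3 j hj]; exact attc hs (hf j hj)
      have hinj : ∀ i j, i < 12 → j < 12 → i ≠ j → Q i ≠ Q j := by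
        intro i j hi hj hij h
        have F : ∀ i, i < 12 → ∃ j, j < 3 ∧ ((i = j ∧ Q i = eE (e (f j)) 0) ∨
            (i = 3 + j ∧ Q i = vE (e (f j))) ∨ (i = 6 + j ∧ Q i = eE (e (f j)) 1) ∨
            (i = 9 + j ∧ Q i = cE s (f j))) := by
          intro i hi
          rcases f12 i hi with h | ⟨j, hj, rfl⟩ | ⟨j, hj, rfl⟩ | ⟨j, hj, rfl⟩
          · exact ⟨i, h, Or.inl ⟨rfl, q0 i h⟩⟩
          · exact ⟨j, hj, Or.inr (Or.inl ⟨rfl, q1 j hj⟩)⟩
          · exact ⟨j, hj, Or.inr (Or.inr (Or.inl ⟨rfl, q2 j hj⟩))⟩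
          · exact ⟨j, hj, Or.inr (Or.inr (Or.inr ⟨rfl, q3 j hj⟩))⟩
        obtain ⟨i', hi', ei⟩ := F i hi
        obtain ⟨j', hj', ej⟩ := F j hj
        have k1 := efinj i' j' hi' hj'
        have k2 := finj i' j' hi' hj'
        rcases ei with ⟨ei, h1⟩ | ⟨ei, h1⟩ | ⟨ei, h1⟩ | ⟨ei, h1⟩ <;>
          rcases ej with ⟨ej, h2⟩ | ⟨ej, h2⟩ | ⟨ej, h2⟩ | ⟨ej, h2⟩ <;>
          rw [h1, h2] at h <;>
          simp only [eE, vE, cE, Prod.mk.injEq] at h <;>
          first
          | omega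
          | (have := k1 h.2.1; omega)
          | (have := k2 h.2.2; omega)
      have hc3 := star_cyc hcyc (fun x => d.gr.Adj (d.vx ap) x ∧ d.gr.Adj (d.vx (at' uE)) x)
        d.gr.Adj
        (fun y₁ y₂ w w' l1 l2 lw aw' ww n12 n1 n2 n1' n2' =>
          gap_gr hW (le_refl _) hD hcu y₁ y₂ w w' l1 l2 lw aw' (not_att hW hcu nau) ww n12 n1 n2
            n1' n2')
        (fun i => d.vx (at' (Q i))) (fun i hi => adj_att hW (hat i hi))
        (fun i j hi hj hij => vx_at_ne hW (hW.att_cv _ (hat i hi)) (hW.att_cv _ (hat j hj))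
          (hinj i j hi hj hij)) ?_ ?_ ?_ ?_
      · have c3 := q1 0 (by omega)
        have c4 := q1 1 (by omega)
        have c5 := q1 2 (by omega)
        have c9 := q3 0 (by omega)
        have c10 := q3 1 (by omega)
        have c11 := q3 2 (by omega)
        simp only [Nat.add_zero, Nat.reduceAdd] at c3 c4 c5 c9 c10 c11
        simp only [c3, c4, c5, c9, c10, c11] at hc3
        exact hc3
      · intro i hi
        refine ⟨adj_att hW (hat i (by omega)), ?_⟩
        rcases f12 i (by omega) with h | ⟨j, hj, rfl⟩ | ⟨j, hj, rfl⟩ | ⟨j, hj, rfl⟩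
        · simp only [q0 i h]
          exact adj_ed hW (e := (uE, eE (e (f i)) 0)) (e1 ⟨_, elt _, Or.inl rfl⟩)
        · simp only [q1 j hj]
          exact adj_ed hW (e := (uE, vE (e (f j)))) (e1 ⟨_, elt _, Or.inr (Or.inl rfl)⟩)
        · simp only [q2 j hj]
          exact adj_ed hW (e := (uE, eE (e (f j)) 1)) (e1 ⟨_, elt _, Or.inr (Or.inr rfl)⟩)
        · omega
      · intro i hi
        simp only [q0 i hi, q1 i hi]
        exact adj_ed hW (e := (eE (e (f i)) 0, vE (e (f i)))) (e2 ⟨_, elt _, Or.inl rfl⟩)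
      · intro i hi
        simp only [q1 i hi, q2 i hi]
        exact adj_ed hW (e := (vE (e (f i)), eE (e (f i)) 1)) (e2 ⟨_, elt _, Or.inr rfl⟩)
      · intro i hi
        simp only [q1 i hi, q3 i hi]
        exact adj_ed hW (e := (vE (e (f i)), cE s (f i))) (e3 hs ⟨f i, hf i hi, by rw [he]⟩)
    -- the fan
    have fan : ori D (d.vx ap) (d.vx (at' (cE s 0))) (d.vx (at' (cE s 1))) (d.vx (at' (cE s 2))) =
        ori D (d.vx ap) (d.vx (at' (cE s 0))) (d.vx (at' (cE s 2))) (d.vx (at' (cE s 3))) := by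
      obtain ⟨Q, hQ⟩ : ∃ Q : ℕ → Ga, ∀ i, Q i = (if i < 4 then bE s i else
        if i < 8 then dE s (i - 4) else cE s (i - 8)) := ⟨_, fun _ => rfl⟩
      have qb : ∀ i, i < 4 → Q i = bE s i := fun i hi => by rw [hQ, if_pos hi]
      have qd : ∀ i, i < 4 → Q (4 + i) = dE s i := fun i hi => by
        rw [hQ, if_neg (by omega), if_pos (by omega), show 4 + i - 4 = i by omega]
      have qc : ∀ i, i < 4 → Q (8 + i) = cE s i := fun i hi => by
        rw [hQ, if_neg (by omega), if_neg (by omega), show 8 + i - 8 = i by omega]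
      have hat : ∀ i, i < 12 → Q i ∈ d.att := by
        intro i hi
        rw [hQ]
        split_ifs with h1 h2
        · exact attb hs h1
        · exact attd hs (by omega)
        · exact attc hs (by omega)
      have hinj : ∀ i j, i < 12 → j < 12 → i ≠ j → Q i ≠ Q j := by
        intro i j hi hj hij h
        rw [hQ, hQ] at h
        simp only [bE, dE, cE] at h
        split_ifs at h <;> simp only [Prod.mk.injEq] at h <;> omega
      have hc3 := fan_cyc hcyc (fun x => d.gr.Adj (d.vx ap) x ∧ d.gr.Adj (d.vx (at' (zE s))) x)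
        d.gr.Adj
        (fun y₁ y₂ w w' l1 l2 lw aw' ww n12 n1 n2 n1' n2' =>
          gap_gr hW (le_refl _) hD (hcz hs) y₁ y₂ w w' l1 l2 lw aw'
            (not_att hW (hcz hs) (naz s)) ww n12 n1 n2 n1' n2')
        (fun i => d.vx (at' (Q i))) (fun i hi => adj_att hW (hat i hi))
        (fun i j hi hj hij => vx_at_ne hW (hW.att_cv _ (hat i hi)) (hW.att_cv _ (hat j hj))
          (hinj i j hi hj hij)) ?_ ?_ ?_ ?_
      · have c0 := qc 0 (by omega)
        have c1 := qc 1 (by omega)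
        have c2 := qc 2 (by omega)
        have c3 := qc 3 (by omega)
        simp only [Nat.add_zero, Nat.reduceAdd] at c0 c1 c2 c3
        simp only [c0, c1, c2, c3] at hc3
        exact hc3
      · intro i hi
        refine ⟨adj_att hW (hat i (by omega)), ?_⟩
        by_cases h4 : i < 4
        · simp only [qb i h4]
          exact adj_ed hW (e := (zE s, bE s i)) (e5 hs (Or.inl ⟨i, h4, rfl⟩))
        · obtain ⟨j, rfl⟩ : ∃ j, i = 4 + j := ⟨i - 4, by omega⟩
          simp only [qd j (by omega)]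
          exact adj_ed hW (e := (zE s, dE s j)) (e5 hs (Or.inr (Or.inl ⟨j, by omega, rfl⟩)))
      · intro q hq
        simp only [qb q (by omega), qd q (by omega)]
        exact adj_ed hW (e := (bE s q, dE s q)) (e5 hs (Or.inr (Or.inr (Or.inl ⟨q, hq, rfl⟩))))
      · intro q hq
        simp only [qb (q + 1) (by omega), qd q (by omega)]
        exact adj_ed hW (e := (dE s q, bE s (q + 1)))
          (e5 hs (Or.inr (Or.inr (Or.inr ⟨q, hq, rfl⟩))))
      · intro q hq
        simp only [qb q hq, qc q hq]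
        exact (adj_ed hW (e := (cE s q, bE s q)) (e4 hs ⟨q, hq, rfl⟩)).symm
    have u1 := star (fun i => i) (fun i hi => by omega) (fun i j _ _ h => h)
    have u2 := star (fun i => if i = 0 then 0 else i + 1)
      (fun i hi => by split_ifs <;> omega)
      (fun i j _ _ h => by split_ifs at h <;> omega)
    simp only [one_ne_zero, if_true, if_false, Nat.reduceAdd, OfNat.ofNat_ne_zero] at u1 u2
    have x0 : e 0 = 0 := by rw [he]; rfl
    have x1 : e 1 = T[s].1 := by rw [he, hg]; rfl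
    have x2 : e 2 = T[s].2.1 := by rw [he, hg]; rfl
    have x3 : e 3 = T[s].2.2 := by rw [he, hg]; rfl
    rw [x0, x1, x2] at u1
    rw [x0, x2, x3] at u2
    rw [u1, u2]
    exact fan

end Pool.Agent.U20.LP
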