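import Pool.Agent.TH510.Sefe.Defs
import Pool.Agent.H858R3.Cross

/-!
# The rotation of the spokes in a drawing and paths that do not cross
-/

set_option autoImplicit false

namespace Pool.Agent.U20.LP

open Set Complex Pool.Agent.H858R3.Lift Pool.Agent.H858R3.Cross Pool.Agent.TH510.Sefe

variable {V : Type} {G : SimpleGraph V}

/-- No path with at most `k` edges has a self-crossing. -/
def LocPlanarDrawing (k : ℕ) (D : Drawing G) : Prop :=
  ∀ (u v : V) (p : G.Walk u v), p.IsPath → p.length ≤ k →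
    ∀ e ∈ p.edges, ∀ f ∈ p.edges, e ≠ f → D.crossings e f = ∅

/-- A graph is `k`-locally planar if it has a `k`-locally planar drawing. -/
def LocPlanar (k : ℕ) (G : SimpleGraph V) : Prop := ∃ D : Drawing G, LocPlanarDrawing k D

theorem chain_part {R : V → V → Prop} {l m : List V} (h : l.IsChain R) (h' : m <:+: l) :
    m.IsChain R := by
  obtain ⟨s, t, rfl⟩ := h'
  rw [List.isChain_append, List.isChain_append] at h
  exact h.1.2.1

theorem walk_of_chain : ∀ (l : List V) (a : V), (a :: l).IsChain G.Adj →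
    ∃ v, ∃ p : G.Walk a v, p.support = a :: l
  | [], a, _ => ⟨a, .nil, rfl⟩
  | b :: l, a, h => by
    rw [List.isChain_cons_cons] at h
    obtain ⟨v, p, hp⟩ := walk_of_chain l b h.2
    exact ⟨v, .cons h.1 p, by rw [SimpleGraph.Walk.support_cons, hp]⟩

theorem edge_of_infix {u v : V} (p : G.Walk u v) {x y : V} (h : [x, y] <:+: p.support) :
    s(x, y) ∈ p.edges := by
  induction p with
  | nil =>
    have := h.length_le
    simp at this
  | cons hadj p ih =>
    rw [SimpleGraph.Walk.support_cons, List.infix_cons_iff] at h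
    rw [SimpleGraph.Walk.edges_cons, List.mem_cons]
    rcases h with h | h
    · left
      rw [List.cons_prefix_cons] at h
      obtain ⟨rfl, h2⟩ := h
      rw [← SimpleGraph.Walk.cons_tail_support, List.cons_prefix_cons] at h2
      rw [h2.1]
    · exact Or.inr (ih h)

theorem nc_of_list {k : ℕ} {D : Drawing G} (hD : LocPlanarDrawing k D) {l : List V}
    (hn : l.Nodup) (hc : l.IsChain G.Adj) (hl : l.length ≤ k + 1) {a b c d : V}
    (h1 : [a, b] <:+: l) (h2 : [c, d] <:+: l) (hne : s(a, b) ≠ s(c, d)) :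
    D.crossings s(a, b) s(c, d) = ∅ := by
  cases l with
  | nil =>
    have := h1.length_le
    simp at this
  | cons x l =>
    obtain ⟨v, p, hp⟩ := walk_of_chain l x hc
    refine hD x v p ?_ ?_ _ (edge_of_infix p (by rw [hp]; exact h1)) _
      (edge_of_infix p (by rw [hp]; exact h2)) hne
    · rw [SimpleGraph.Walk.isPath_def, hp]; exact hn
    · have : p.support.length = p.length + 1 := p.length_support
      rw [hp] at this
      omega

theorem crossings_symm (D : Drawing G) (e f : Sym2 V) : D.crossings e f = D.crossings f e := by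
  ext z
  unfold Drawing.crossings
  simp only [mem_ofPred_eq, mem_inter_iff]
  tauto

theorem list_path (D : Drawing G) : ∀ (l : List V) (a : V), (a :: l).IsChain G.Adj →
    ∃ v, (a :: l).getLast? = some v ∧ ∃ γ : Path (D.pt a) (D.pt v), ∀ t,
      (∃ x ∈ a :: l, γ t = D.pt x) ∨ ∃ x y, [x, y] <:+: (a :: l) ∧ γ t ∈ D.arc s(x, y)
  | [], a, _ => ⟨a, rfl, Path.refl _, fun t => Or.inl ⟨a, by simp, by simp⟩⟩
  | b :: l, a, h => by
    rw [List.isChain_cons_cons] at h
    obtain ⟨v, hv, γ, hγ⟩ := list_path D l b h.2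
    obtain ⟨δ, -, hδ⟩ := D.isArc a b h.1
    refine ⟨v, by rw [List.getLast?_cons_cons, hv], δ.trans γ, fun t => ?_⟩
    have ht : (δ.trans γ) t ∈ Set.range (δ.trans γ) := ⟨t, rfl⟩
    rw [Path.trans_range] at ht
    rcases ht with ht | ⟨t', ht'⟩
    · right
      refine ⟨a, b, ?_, by rw [← hδ]; exact ht⟩
      exact (List.prefix_append [a, b] l).isInfix
    · rw [← ht']
      rcases hγ t' with ⟨x, hx, h1⟩ | ⟨x, y, hxy, h1⟩
      · exact Or.inl ⟨x, List.mem_cons_of_mem _ hx, h1⟩
      · exact Or.inr ⟨x, y, List.infix_cons_iff.2 (Or.inr hxy), h1⟩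

/-- The points of a path avoid those of a disjoint path if no edges cross. -/
theorem lists_disjoint (D : Drawing G) {l m : List V} (hl : l.IsChain G.Adj)
    (hm : m.IsChain G.Adj) (hd : ∀ x ∈ l, x ∉ m)
    (hx : ∀ x y z w, [x, y] <:+: l → [z, w] <:+: m → D.crossings s(x, y) s(z, w) = ∅) {p : ℂ}
    (h1 : (∃ x ∈ l, p = D.pt x) ∨ ∃ x y, [x, y] <:+: l ∧ p ∈ D.arc s(x, y))
    (h2 : (∃ x ∈ m, p = D.pt x) ∨ ∃ x y, [x, y] <:+: m ∧ p ∈ D.arc s(x, y)) : False := by
  have adjOf : ∀ {l : List V} {x y : V}, l.IsChain G.Adj → [x, y] <:+: l → G.Adj x y := by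
    intro l x y hl h
    have := chain_part hl h
    rw [List.isChain_cons_cons] at this
    exact this.1
  have memOf : ∀ {l : List V} {x y z : V}, [x, y] <:+: l → z ∈ (s(x, y) : Sym2 V) → z ∈ l := by
    intro l x y z h hz
    rw [Sym2.mem_iff] at hz
    apply h.subset
    rcases hz with rfl | rfl <;> simp
  rcases h1 with ⟨x, hxl, rfl⟩ | ⟨x, y, hxy, hp⟩
  · rcases h2 with ⟨z, hz, h⟩ | ⟨z, w, hzw, hp⟩
    · exact hd x hxl (by rw [D.pt_inj h]; exact hz)
    · exact hd x hxl (memOf hzw (D.avoid _ (adjOf hm hzw) _ hp))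
  · rcases h2 with ⟨z, hz, rfl⟩ | ⟨z, w, hzw, hp'⟩
    · exact hd z (memOf hxy (D.avoid _ (adjOf hl hxy) _ hp)) hz
    · have hc := hx x y z w hxy hzw
      by_cases hv : p ∈ Set.range D.pt
      · obtain ⟨q, rfl⟩ := hv
        exact hd q (memOf hxy (D.avoid _ (adjOf hl hxy) _ hp))
          (memOf hzw (D.avoid _ (adjOf hm hzw) _ hp'))
      · have : p ∈ D.crossings s(x, y) s(z, w) := ⟨⟨hp, hp'⟩, hv⟩
        rw [hc] at this
        exact this

open Classical in
/-- The arc from the apex. -/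
noncomputable def spoke (D : Drawing G) (A v : V) : ℝ → ℂ :=
  if h : G.Adj A v then (Classical.choose (D.isArc A v h)).extend else fun _ => 0

theorem spoke_spec (D : Drawing G) {A v : V} (h : G.Adj A v) :
    ∃ γ : Path (D.pt A) (D.pt v), Function.Injective γ ∧ Set.range γ = D.arc s(A, v) ∧
      spoke D A v = γ.extend := by
  refine ⟨Classical.choose (D.isArc A v h), (Classical.choose_spec (D.isArc A v h)).1,
    (Classical.choose_spec (D.isArc A v h)).2, ?_⟩
  unfold spoke
  rw [dif_pos h]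

theorem ext_mem {x y : ℂ} (γ : Path x y) (t : ℝ) : γ.extend t ∈ Set.range γ := by
  rw [← γ.extend_range]; exact ⟨t, rfl⟩

theorem ext_source {x y : ℂ} {γ : Path x y} (hγ : Function.Injective γ) (hxy : x ≠ y) {t : ℝ}
    (h : γ.extend t = x) : t ≤ 0 := by
  by_contra hcon
  push Not at hcon
  rcases le_or_gt t 1 with h1 | h1
  · have e1 : γ.extend t = γ ⟨t, hcon.le, h1⟩ := γ.extend_apply ⟨hcon.le, h1⟩
    have e2 : γ ⟨t, hcon.le, h1⟩ = γ 0 := by rw [← e1, γ.source]; exact h
    have := congrArg Subtype.val (hγ e2)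
    simp at this
    linarith
  · have : γ.extend t = y := γ.extend_of_one_le h1.le
    exact hxy (h.symm.trans this)

open Classical in
/-- The orientation of three neighbours of the apex. -/
noncomputable def ori (D : Drawing G) (A a b c : V) : ℤ :=
  if S (spoke D A a) (spoke D A b) (spoke D A c) = Real.pi * I then 1 else -1

theorem ori_spec (D : Drawing G) {A a b c : V} (ha : G.Adj A a) (hb : G.Adj A b)
    (hc : G.Adj A c) (hab : a ≠ b) (hbc : b ≠ c) (hac : a ≠ c)
    (xab : D.crossings s(A, a) s(A, b) = ∅) (xbc : D.crossings s(A, b) s(A, c) = ∅)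
    (xac : D.crossings s(A, a) s(A, c) = ∅) :
    S (spoke D A a) (spoke D A b) (spoke D A c) = (ori D A a b c : ℂ) * (Real.pi * I) ∧
      (ori D A a b c = 1 ∨ ori D A a b c = -1) := by
  have cor : ∀ {x y : V}, G.Adj A x → G.Adj A y → x ≠ y → D.crossings s(A, x) s(A, y) = ∅ →
      Cor (spoke D A x) (spoke D A y) := by
    intro x y hx hy hxy hcr s t hst
    obtain ⟨γ, gi, gr, ge⟩ := spoke_spec D hx
    obtain ⟨δ, di, dr, de⟩ := spoke_spec D hy
    have m1 : spoke D A x s ∈ D.arc s(A, x) := by rw [ge, ← gr]; exact ext_mem γ s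
    have m2 : spoke D A x s ∈ D.arc s(A, y) := by rw [hst, de, ← dr]; exact ext_mem δ t
    have h1 : spoke D A x s = D.pt A := by
      by_cases hv : spoke D A x s ∈ Set.range D.pt
      · obtain ⟨q, hq⟩ := hv
        rw [← hq] at m1 m2 ⊢
        have q1 := D.avoid _ hx _ m1
        have q2 := D.avoid _ hy _ m2
        rw [Sym2.mem_iff] at q1 q2
        rcases q1 with rfl | rfl
        · rfl
        · rcases q2 with rfl | rfl
          · rfl
          · exact absurd rfl hxy
      · have : spoke D A x s ∈ D.crossings s(A, x) s(A, y) := ⟨⟨m1, m2⟩, hv⟩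
        rw [hcr] at this
        exact absurd this (by simp)
    constructor
    · rw [ge] at h1
      exact ext_source gi (fun h => hx.ne (D.pt_inj h)) h1
    · rw [hst, de] at h1
      exact ext_source di (fun h => hy.ne (D.pt_inj h)) h1
  have c1 := cor ha hb hab xab
  have c2 := cor hb hc hbc xbc
  have c3 := cor ha hc hac xac
  have cont : ∀ {x : V}, G.Adj A x → Continuous (spoke D A x) := by
    intro x hx
    obtain ⟨γ, -, -, ge⟩ := spoke_spec D hx
    rw [ge]; exact γ.continuous_extend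
  have st : ∀ {x : V}, G.Adj A x → spoke D A x 0 = D.pt A := by
    intro x hx
    obtain ⟨γ, -, -, ge⟩ := spoke_spec D hx
    rw [ge]; exact γ.extend_zero
  have e1 := S_exp (cont ha) (cont hb) (cont hc) ((st ha).trans (st hb).symm)
    ((st ha).trans (st hc).symm) c1 c2 c3.symm
  obtain ⟨κ, hκ, e2⟩ := triple (cont ha) (cont hb) (cont hc) ((st ha).trans (st hb).symm)
    ((st ha).trans (st hc).symm) c1 c2 c3.symm
  have e3 : S (spoke D A a) (spoke D A b) (spoke D A c) = κ * I := e2
  have hpi := Real.pi_pos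
  -- `κ` is `π` or `-π`
  have hk : κ = Real.pi ∨ κ = -Real.pi := by
    rw [e3] at e1
    have e4 : Complex.exp (κ * I - Real.pi * I) = 1 := by
      rw [Complex.exp_sub, e1, Complex.exp_pi_mul_I]
      norm_num
    rw [Complex.exp_eq_one_iff] at e4
    obtain ⟨n, hn⟩ := e4
    have e5 : κ - Real.pi = n * (2 * Real.pi) := by
      have h6 : ((κ - Real.pi : ℝ) : ℂ) * I = ((n * (2 * Real.pi) : ℝ) : ℂ) * I := by
        push_cast
        linear_combination hn
      exact_mod_cast mul_right_cancel₀ I_ne_zero h6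
    rw [abs_lt] at hκ
    have h1 : (n : ℝ) < 1 := by
      by_contra hcon
      push Not at hcon
      nlinarith
    have h2 : (-2 : ℝ) < n := by
      by_contra hcon
      push Not at hcon
      nlinarith
    have h3 : n < 1 := by exact_mod_cast h1
    have h4 : -2 < n := by exact_mod_cast h2
    obtain rfl | rfl : n = 0 ∨ n = -1 := by omega
    · left; simp at e5; linarith
    · right; push_cast at e5; linarith
  have hne : (Real.pi : ℂ) * I ≠ -(Real.pi * I) := by
    intro h
    have h2 : (Real.pi : ℂ) * I = 0 := by linear_combination h / 2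
    rcases mul_eq_zero.1 h2 with h3 | h3
    · exact hpi.ne' (by exact_mod_cast h3)
    · exact I_ne_zero h3
  unfold ori
  rcases hk with rfl | rfl
  · rw [e3, if_pos rfl]
    simp
  · have : ((-Real.pi : ℝ) : ℂ) * I ≠ Real.pi * I := by
      intro h
      exact hne (h.symm.trans (by push_cast; ring))
    rw [e3, if_neg this]
    refine ⟨by push_cast; ring, Or.inr rfl⟩

/-- Two disjoint paths between neighbours of the apex do not separate each other. -/
theorem wheel_list (D : Drawing G) {A v₁ v₂ v₃ v₄ : V} (a1 : G.Adj A v₁) (a2 : G.Adj A v₂)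
    (a3 : G.Adj A v₃) (a4 : G.Adj A v₄) {l m : List V} (hl : l.IsChain G.Adj)
    (hm : m.IsChain G.Adj) (l1 : l.head? = some v₁) (l2 : l.getLast? = some v₂)
    (m1 : m.head? = some v₃) (m2 : m.getLast? = some v₄) (hAl : A ∉ l) (hAm : A ∉ m)
    (hd : ∀ x ∈ l, x ∉ m)
    (x3 : ∀ x y, [x, y] <:+: l → D.crossings s(x, y) s(A, v₃) = ∅)
    (x4 : ∀ x y, [x, y] <:+: l → D.crossings s(x, y) s(A, v₄) = ∅)
    (x1 : ∀ x y, [x, y] <:+: m → D.crossings s(x, y) s(A, v₁) = ∅)
    (x2 : ∀ x y, [x, y] <:+: m → D.crossings s(x, y) s(A, v₂) = ∅)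
    (xx : ∀ x y z w, [x, y] <:+: l → [z, w] <:+: m → D.crossings s(x, y) s(z, w) = ∅) :
    S (spoke D A v₁) (spoke D A v₂) (spoke D A v₃) =
      S (spoke D A v₁) (spoke D A v₂) (spoke D A v₄) := by
  have cont : ∀ {x : V}, G.Adj A x → Continuous (spoke D A x) := by
    intro x hx
    obtain ⟨γ, -, -, ge⟩ := spoke_spec D hx
    rw [ge]; exact γ.continuous_extend
  have st : ∀ {x : V}, G.Adj A x → spoke D A x 0 = D.pt A := by
    intro x hx
    obtain ⟨γ, -, -, ge⟩ := spoke_spec D hx
    rw [ge]; exact γ.extend_zero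
  have en : ∀ {x : V}, G.Adj A x → spoke D A x 1 = D.pt x := by
    intro x hx
    obtain ⟨γ, -, -, ge⟩ := spoke_spec D hx
    rw [ge]; exact γ.extend_one
  have mem : ∀ {x : V} (hx : G.Adj A x) (t : ℝ), spoke D A x t ∈ D.arc s(A, x) := by
    intro x hx t
    obtain ⟨γ, -, gr, ge⟩ := spoke_spec D hx
    rw [ge, ← gr]; exact ext_mem γ t
  have lst : ∀ {l : List V} {v w : V}, l.IsChain G.Adj → l.head? = some v →
      l.getLast? = some w → ∃ γ : Path (D.pt v) (D.pt w), ∀ t : ℝ,
      (∃ x ∈ l, γ.extend t = D.pt x) ∨ ∃ x y, [x, y] <:+: l ∧ γ.extend t ∈ D.arc s(x, y) := by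
    intro l v w hc h1 h2
    cases l with
    | nil => simp at h1
    | cons a l =>
      obtain ⟨v', hv, γ, hγ⟩ := list_path D l a hc
      rw [h2] at hv
      simp only [List.head?_cons, Option.some.injEq] at h1 hv
      subst h1 hv
      refine ⟨γ, fun t => ?_⟩
      obtain ⟨t', ht'⟩ := ext_mem γ t
      rw [← ht']
      exact hγ t'
  obtain ⟨γ, hγ⟩ := lst hl l1 l2
  obtain ⟨δ, hδ⟩ := lst hm m1 m2
  have m3 : v₃ ∈ m := List.mem_of_mem_head? m1
  have m4 : v₄ ∈ m := List.mem_of_mem_getLast? m2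
  have k1 : v₁ ∈ l := List.mem_of_mem_head? l1
  have k2 : v₂ ∈ l := List.mem_of_mem_getLast? l2
  have sp : ∀ {l : List V} {v : V}, l.IsChain G.Adj → G.Adj A v → A ∉ l → v ∉ l →
      (∀ x y, [x, y] <:+: l → D.crossings s(x, y) s(A, v) = ∅) → ∀ {p : ℂ},
      ((∃ x ∈ l, p = D.pt x) ∨ ∃ x y, [x, y] <:+: l ∧ p ∈ D.arc s(x, y)) → ∀ t : ℝ,
      p ≠ spoke D A v t := by
    intro l v hc ha h1 h2 h3 p hp t hpt
    refine lists_disjoint D hc (m := [A, v]) (by simpa using ha) ?_ ?_ hp
      (Or.inr ⟨A, v, List.infix_refl _, by rw [hpt]; exact mem ha t⟩)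
    · intro x hx hx'
      simp only [List.mem_cons, List.not_mem_nil, or_false] at hx'
      rcases hx' with rfl | rfl
      · exact h1 hx
      · exact h2 hx
    · intro x y z w hxy hzw
      have hle := hzw.eq_of_length (by simp)
      simp only [List.cons.injEq, and_true] at hle
      rw [hle.1, hle.2]
      exact h3 x y hxy
  refine wheel (cont a1) (cont a2) (cont a3) (cont a4) γ.continuous_extend δ.continuous_extend
    ((st a1).trans (st a2).symm) ((st a1).trans (st a3).symm) ((st a1).trans (st a4).symm)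
    (γ.extend_zero.trans (en a1).symm) (γ.extend_one.trans (en a2).symm)
    (δ.extend_zero.trans (en a3).symm) (δ.extend_one.trans (en a4).symm) ?_ ?_ ?_ ?_ ?_
  · intro s t
    exact sp hl a3 hAl (fun h => hd _ h m3) x3 (hγ s) t
  · intro s t
    exact sp hl a4 hAl (fun h => hd _ h m4) x4 (hγ s) t
  · intro s t
    exact sp hm a1 hAm (fun h => hd _ k1 h) x1 (hδ s) t
  · intro s t
    exact sp hm a2 hAm (fun h => hd _ k2 h) x2 (hδ s) t
  · intro s t hst
    exact lists_disjoint D hl hm hd xx (hγ s) (by rw [hst]; exact hδ t)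

end Pool.Agent.U20.LP
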